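import Pool.Agent.Lib.MP_c7af3c_ag.MET.Y.SchDefs
import Pool.Agent.Lib.MP_c7af3c_ag.GEN.H26.MainGroups

/-! Lemmas on values of sections at points. -/

set_option autoImplicit false

namespace Pool.Agent.Met.Y

open AlgebraicGeometry CategoryTheory CategoryTheory.Limits
open MvPolynomial (homogeneousSubmodule)
open Pool.Agent.Gen

section

variable {K' : Type} [Field K'] {Y : Scheme.{0}} (y : Spec (CommRingCat.of K') ⟶ Y)
  (U : Y.Opens) (h : ⊤ ≤ y ⁻¹ᵁ U)

theorem kval_of_bot (s : Γ(Y, U)) (hs : Y.basicOpen s = ⊥) : kval y U h s = 0 := by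
  by_contra hne
  have hu : IsUnit (H96.kvalHom y U h s) := isUnit_iff_ne_zero.2 hne
  have hu2 : IsUnit ((y.appLE U ⊤ h).hom s) := by
    have h1 : H96.kvalHom y U h s =
        (Scheme.ΓSpecIso (CommRingCat.of K')).hom.hom ((y.appLE U ⊤ h).hom s) := rfl
    rw [h1] at hu
    have h2 := hu.map (Scheme.ΓSpecIso (CommRingCat.of K')).inv.hom
    have h3 := congrArg (fun m => m.hom ((y.appLE U ⊤ h).hom s))
      (Scheme.ΓSpecIso (CommRingCat.of K')).hom_inv_id
    change (Scheme.ΓSpecIso (CommRingCat.of K')).inv.hom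
      ((Scheme.ΓSpecIso (CommRingCat.of K')).hom.hom ((y.appLE U ⊤ h).hom s)) = _ at h3
    rw [h3] at h2
    exact h2
  have h4 := Scheme.basicOpen_of_isUnit _ hu2
  rw [Scheme.basicOpen_appLE y ⊤ U h s, hs] at h4
  have h6 : (⊤ : (Spec (CommRingCat.of K')).Opens) = ⊥ := by
    rw [← h4]
    ext z
    simp
  have h5 : (IsLocalRing.closedPoint K' : Spec (CommRingCat.of K')) ∈
      (⊤ : (Spec (CommRingCat.of K')).Opens) := trivial
  rw [h6] at h5
  exact h5

theorem kval_eval {k : Type} [Field k] [Algebra k K'] (a : Y ⟶ Spec (CommRingCat.of k))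
    (hy : y ≫ a = Spec.map (CommRingCat.ofHom (algebraMap k K'))) {J : Type}
    (g : J → Γ(Y, U)) (q : MvPolynomial J k) :
    kval y U h (MvPolynomial.eval₂ (cstR a U) g q) =
      MvPolynomial.eval (fun j => kval y U h (g j)) (MvPolynomial.map (algebraMap k K') q) := by
  rw [MvPolynomial.eval_map]
  have h1 := MvPolynomial.eval₂_comp_left (H96.kvalHom y U h) (cstR a U) g q
  refine h1.trans ?_
  congr 1
  refine RingHom.ext fun c => ?_
  exact H72.kval_cst y a hy U h c

end

section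

variable {k : Type} [Field k] {r : ℕ} (N : Fin r → ℕ)
  [∀ i, GradedAlgebra (homogeneousSubmodule (Fin (N i + 1)) k)]
  {X : Scheme.{0}} (f : ∀ i, X ⟶ Proj (homogeneousSubmodule (Fin (N i + 1)) k))

theorem chart_le (p : ∀ i, Fin (N i + 1)) (i : Fin r) : chart N f p ≤
    (f i) ⁻¹ᵁ Proj.basicOpen (homogeneousSubmodule (Fin (N i + 1)) k) (MvPolynomial.X (p i)) :=
  iInf_le _ i

theorem le_chart {A : Scheme.{0}} (y : A ⟶ X) (p : ∀ i, Fin (N i + 1))
    (h : ∀ i, ⊤ ≤ y ⁻¹ᵁ ((f i) ⁻¹ᵁ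
      Proj.basicOpen (homogeneousSubmodule (Fin (N i + 1)) k) (MvPolynomial.X (p i)))) :
    ⊤ ≤ y ⁻¹ᵁ chart N f p := by
  intro x hx
  have h1 : y.base x ∈ (chart N f p : Set X) := by
    unfold chart
    rw [TopologicalSpace.Opens.coe_iInf]
    simp only [Set.mem_iInter]
    exact fun i => h i hx
  exact h1

theorem kval_crd {K' : Type} [Field K'] (y : Spec (CommRingCat.of K') ⟶ X)
    (p : ∀ i, Fin (N i + 1)) (h : ⊤ ≤ y ⁻¹ᵁ chart N f p) (s : Sg N)
    (h' : ⊤ ≤ (y ≫ f s.1) ⁻¹ᵁ
      Proj.basicOpen (homogeneousSubmodule (Fin (N s.1 + 1)) k) (MvPolynomial.X (p s.1))) :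
    kval y (chart N f p) h (crd N f p s) =
      kval (y ≫ f s.1) _ h' (coordSec k (N s.1) (p s.1) s.2) := by
  have e1 := H96.kval_res y _ _ (chart_le N f p s.1) h (fun x hx => h' hx)
    (((f s.1).app _).hom (coordSec k (N s.1) (p s.1) s.2))
  have e2 := H41.kval_comp y (f s.1) _ h' (fun x hx => h' hx) (coordSec k (N s.1) (p s.1) s.2)
  exact e1.trans e2.symm

end

section

variable (k : Type) [Field k] (n : ℕ) [GradedAlgebra (homogeneousSubmodule (Fin (n + 1)) k)]

instance projStr_lft : LocallyOfFiniteType (projStr k n) := by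
  have h1 : IsScalarTower k (homogeneousSubmodule (Fin (n + 1)) k 0)
      (MvPolynomial (Fin (n + 1)) k) :=
    ⟨fun a b c => by
      change (a • (b : MvPolynomial (Fin (n + 1)) k)) * c = a • ((b : MvPolynomial _ k) * c)
      exact smul_mul_assoc a _ c⟩
  have h2 : Algebra.FiniteType (homogeneousSubmodule (Fin (n + 1)) k 0)
      (MvPolynomial (Fin (n + 1)) k) :=
    Algebra.FiniteType.of_restrictScalars_finiteType k _ _
  have h3 : Function.Surjective
      (algebraMap k (homogeneousSubmodule (Fin (n + 1)) k 0)) := by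
    rintro ⟨x, hx⟩
    rw [MvPolynomial.mem_homogeneousSubmodule] at hx
    refine ⟨MvPolynomial.coeff 0 x, Subtype.ext ?_⟩
    change MvPolynomial.C (MvPolynomial.coeff 0 x) = x
    exact (MvPolynomial.totalDegree_eq_zero_iff_eq_C.1
      ((MvPolynomial.totalDegree_zero_iff_isHomogeneous _).2 hx)).symm
  have h4 : LocallyOfFiniteType (Spec.map (CommRingCat.ofHom
      (algebraMap k (homogeneousSubmodule (Fin (n + 1)) k 0)))) := by
    rw [HasRingHomProperty.Spec_iff (P := @LocallyOfFiniteType)]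
    exact RingHom.FiniteType.of_surjective _ h3
  unfold projStr
  infer_instance

end

end Pool.Agent.Met.Y
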