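import Pool.Agent.Lib.MP_c7af3c_ag.MET.Y.Glob

/-! The Nullstellensatz identity. -/

set_option autoImplicit false
set_option linter.unusedSectionVars false

namespace Pool.Agent.Met.Y

open MvPolynomial

/-- Module BPF, multigraded: forms over `k0` without common zero on `Z(k)`. -/
theorem bpfM {k0 k : Type} [Field k0] [Field k] [IsAlgClosed k] [Algebra k0 k]
    {σ τ : Type} [Fintype σ] [DecidableEq σ] [Fintype τ] [DecidableEq τ] {r r' c : ℕ}
    (P : Shape k0 σ τ r r' c) (I0 : Set (MvPolynomial σ k0))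
    (h : ∀ x : σ → k, (∀ g ∈ I0, aeval x g = 0) → (∀ i, ∃ s, P.gs s = i ∧ x s ≠ 0) →
      ∀ t', ∃ u, P.gt u = t' ∧ aeval x (P.φ u) ≠ 0) : Bpf P I0 := by
  classical
  intro t' t ht
  set I' : Ideal (MvPolynomial σ k0) :=
    Ideal.span (I0 ∪ Set.range fun u : {u // P.gt u = t'} => P.φ u) with hI'
  have h1 : (∏ i, X (t i) : MvPolynomial σ k0) ∈ vanishingIdeal k0 (zeroLocus k I') := by
    intro x hx
    have hx0 : ∀ g ∈ I0, aeval x g = 0 := fun g hg => hx g (Ideal.subset_span (Or.inl hg))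
    have hx1 : ∀ u, P.gt u = t' → aeval x (P.φ u) = 0 := fun u hu =>
      hx _ (Ideal.subset_span (Or.inr ⟨⟨u, hu⟩, rfl⟩))
    rw [map_prod]
    by_contra hne
    have hne' := Finset.prod_ne_zero_iff.1 hne
    obtain ⟨u, hu, hu'⟩ := h x hx0 (fun i => ⟨t i, ht i, by
      have := hne' i (Finset.mem_univ i)
      rwa [aeval_X] at this⟩) t'
    exact hu' (hx1 u hu)
  rw [vanishingIdeal_zeroLocus_eq_radical] at h1
  obtain ⟨e, he⟩ := h1
  rw [hI', Ideal.span_union, Submodule.mem_sup] at he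
  obtain ⟨a, ha, b, hb, hab⟩ := he
  obtain ⟨A, hA⟩ := Ideal.mem_span_range_iff_exists_fun.1 hb
  refine ⟨e, fun u => if hu : P.gt u = t' then A ⟨u, hu⟩ else 0, ?_⟩
  intro L _ _ x hx
  have h2 : ∀ u ∈ Ideal.span I0, aeval x u = 0 := by
    have h3 : Ideal.span I0 ≤ RingHom.ker (aeval x : MvPolynomial σ k0 →ₐ[k0] L) := by
      rw [Ideal.span_le]
      exact fun g hg => hx g hg
    exact fun u hu => h3 hu
  have h4 := congrArg (aeval x) hab
  rw [map_add, h2 a ha, zero_add, ← hA, map_sum, map_pow, map_prod] at h4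
  simp only [aeval_X, map_mul] at h4
  rw [← h4, Finset.sum_subtype (Finset.univ.filter fun u => P.gt u = t')
    (p := fun u => P.gt u = t') (by simp)]
  refine Finset.sum_congr rfl fun u _ => ?_
  beta_reduce
  rw [dif_pos u.2]

end Pool.Agent.Met.Y
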