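import Pool.Agent.Lib.MP_c7af3c_ag.MET.Y.SchLem

/-! Module GRPLM: grouplessness (after YY.H46.Sch). -/

set_option autoImplicit false

namespace Pool.Agent.Met.Y

open AlgebraicGeometry CategoryTheory CategoryTheory.Limits MonoidalCategory
  CartesianMonoidalCategory MonObj
open MvPolynomial (homogeneousSubmodule)
open Pool.Agent.Gen Pool.Agent.Gen.H26

/-- Two of the points `φ(R P^n)` coincide. -/
theorem gfinM (k : Type) [Field k] [CharZero k] (r : ℕ) (N : Fin r → ℕ) (c : ℕ)
    (E : (∀ i, Fin (N i + 1)) → Set (MvPolynomial (Sg N ⊕ Fin c) k))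
    [CartesianMonoidalCategory (Over (Spec (CommRingCat.of k)))]
    (A : Over (Spec (CommRingCat.of k))) [GrpObj A] (hprop : IsProper A.hom)
    [∀ i, GradedAlgebra (homogeneousSubmodule (Fin (N i + 1)) k)]
    (φ : ∀ i, A.left ⟶ Proj (homogeneousSubmodule (Fin (N i + 1)) k))
    (hφ : ∀ i, φ i ≫ projStr k (N i) = A.hom)
    (K' : Type) [Field K'] [Algebra k K']
    (hL : ∀ p, FinSolM K' (Sg N ⊕ Fin c) (MvPolynomial.map (algebraMap k K') '' E p))
    (V : (∀ i, Fin (N i + 1)) → A.left.Opens) (H : ∀ p, Sg N ⊕ Fin c → Γ(A.left, V p))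
    (hV : ∀ p (y : Spec (CommRingCat.of K') ⟶ A.left), (∀ i, ⊤ ≤ (y ≫ φ i) ⁻¹ᵁ
      Proj.basicOpen (homogeneousSubmodule (Fin (N i + 1)) k) (MvPolynomial.X (p i))) →
      ⊤ ≤ y ⁻¹ᵁ V p)
    (hcrd : ∀ p (y : Spec (CommRingCat.of K') ⟶ A.left) (h : ⊤ ≤ y ⁻¹ᵁ V p) (s : Sg N)
      (h' : ⊤ ≤ (y ≫ φ s.1) ⁻¹ᵁ
        Proj.basicOpen (homogeneousSubmodule (Fin (N s.1 + 1)) k) (MvPolynomial.X (p s.1))),
      kval y (V p) h (H p (Sum.inl s)) =
        kval (y ≫ φ s.1) _ h' (coordSec k (N s.1) (p s.1) s.2))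
    (hsol : ∀ p (y : Spec (CommRingCat.of K') ⟶ A.left) (h : ⊤ ≤ y ⁻¹ᵁ V p),
      y ≫ A.hom = Spec.map (CommRingCat.ofHom (algebraMap k K')) → ∀ q ∈ E p,
      MvPolynomial.eval (fun j => kval y (V p) h (H p j))
        (MvPolynomial.map (algebraMap k K') q) = 0)
    (P R : ptOver k K' ⟶ A) :
    ∃ n₁ n₂ : ℕ, n₁ ≠ n₂ ∧ ∀ i, (R * P ^ n₁).left ≫ φ i = (R * P ^ n₂).left ≫ φ i := by
  classical
  have hcharK : CharZero K' :=
    charZero_of_injective_algebraMap (algebraMap k K').injective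
  obtain ⟨Ch⟩ := H33.gchart k A.left A.hom inferInstance inferInstance
  obtain ⟨T1, hT1, hmul⟩ := (H82.gmul H72.grat) k K' A hprop Ch
  have hval := fun (p : ∀ i, Fin (N i + 1)) (j : Sg N ⊕ Fin c) =>
    (H82.gval H72.grat) k K' A.left A.hom hprop Ch (V p) (H p j)
  choose T2 hT2 hval using hval
  -- the finitely generated field
  let S : Set K' := algebraMap k K' '' (T1 ∪ ⋃ p, ⋃ j, T2 p j) ∪
    (H41.vals Ch P.left ∪ H41.vals Ch R.left)
  have hS : S.Finite := by
    refine ((hT1.union (Set.finite_iUnion fun p => Set.finite_iUnion fun j => hT2 p j)).image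
      _).union ((H41.vals_finite Ch _).union (H41.vals_finite Ch _))
  let K : Subfield K' := Subfield.closure S
  have hSK : S ⊆ K := Subfield.subset_closure
  have hratP : Ch.IsRat K P.left := by
    intro i h b hb
    exact hSK (Or.inr (Or.inl ⟨i, h, b, hb, rfl⟩))
  have hratR : Ch.IsRat K R.left := by
    intro i h b hb
    exact hSK (Or.inr (Or.inr ⟨i, h, b, hb, rfl⟩))
  have hmulK := hmul K (fun t ht => hSK (Or.inl ⟨t, Or.inl ht, rfl⟩))
  have hvalK := fun p j => hval p j K (fun t ht => hSK (Or.inl ⟨t, Or.inr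
    (Set.mem_iUnion.2 ⟨p, Set.mem_iUnion.2 ⟨j, ht⟩⟩), rfl⟩))
  have hrat : ∀ m : ℕ, Ch.IsRat K (R * P ^ m).left := by
    intro m
    induction m with
    | zero => rw [pow_zero, _root_.mul_one]; exact hratR
    | succ m ih =>
      rw [pow_succ, ← _root_.mul_assoc]
      exact hmulK _ _ ih hratP
  -- the points
  let y : ℕ → (Spec (CommRingCat.of K') ⟶ A.left) := fun m => (R * P ^ m).left
  have hy : ∀ m, y m ≫ A.hom = Spec.map (CommRingCat.ofHom (algebraMap k K')) :=
    fun m => Over.w (R * P ^ m)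
  let pt : Spec (CommRingCat.of K') := (⟨⊥, Ideal.isPrime_bot⟩ : PrimeSpectrum K')
  have hpt : ∀ x : Spec (CommRingCat.of K'), x = pt := fun x =>
    @Subsingleton.elim (PrimeSpectrum K') _ x pt
  have hch : ∀ m i, ∃ j : Fin (N i + 1), ⊤ ≤ (y m ≫ φ i) ⁻¹ᵁ
      Proj.basicOpen (homogeneousSubmodule (Fin (N i + 1)) k) (MvPolynomial.X j) := by
    intro m i
    obtain ⟨j, hj⟩ := (H38.sproj k (N i)).chart ((y m ≫ φ i).base pt)
    refine ⟨j, ?_⟩
    intro x _
    rw [hpt x]
    exact hj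
  choose jm hjm using hch
  obtain ⟨p0, hp0⟩ := Finite.exists_infinite_fiber jm
  have hjm0 : ∀ m : jm ⁻¹' {p0}, ∀ i, ⊤ ≤ (y m.1 ≫ φ i) ⁻¹ᵁ
      Proj.basicOpen (homogeneousSubmodule (Fin (N i + 1)) k) (MvPolynomial.X (p0 i)) := by
    intro m i
    have h1 := hjm m.1 i
    rwa [show jm m.1 = p0 from m.2] at h1
  have hVm : ∀ m : jm ⁻¹' {p0}, ⊤ ≤ (y m.1) ⁻¹ᵁ V p0 := fun m => hV p0 (y m.1) (hjm0 m)
  -- the coordinates of the points over `p0`
  have hfin := hL p0 S hS
  let x : jm ⁻¹' {p0} → (Sg N ⊕ Fin c → K') := fun m j => kval (y m.1) (V p0) (hVm m) (H p0 j)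
  have hxS : ∀ m, x m ∈ {x : Sg N ⊕ Fin c → K' | (∀ j, x j ∈ Subfield.closure S) ∧
      ∀ g ∈ MvPolynomial.map (algebraMap k K') '' E p0, MvPolynomial.eval x g = 0} := by
    intro m
    refine ⟨fun j => hvalK p0 j (y m.1) (hy m.1) (hrat m.1) (hVm m), ?_⟩
    rintro _ ⟨q, hq, rfl⟩
    exact hsol p0 (y m.1) (hVm m) (hy m.1) q hq
  have hnotinj : ¬ Function.Injective x := by
    intro hinj
    have h3 : Finite (jm ⁻¹' {p0}) := by
      have h4 : (Set.range x).Finite := hfin.subset (by rintro _ ⟨m, rfl⟩; exact hxS m)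
      exact Set.finite_range_iff hinj |>.1 h4
    exact hp0.not_finite h3
  rw [Function.Injective] at hnotinj
  push Not at hnotinj
  obtain ⟨m1, m2, h12, hne⟩ := hnotinj
  refine ⟨m1.1, m2.1, fun h => hne (Subtype.ext h), fun i => ?_⟩
  refine (H70.gproj k (N i) K').inj (p0 i) _ _ (hjm0 m1 i) (hjm0 m2 i)
    (by rw [Category.assoc, hφ]; exact hy m1.1)
    (by rw [Category.assoc, hφ]; exact hy m2.1) ?_
  funext l
  have h5 := congrFun h12 (Sum.inl ⟨i, l⟩)
  have h6 := hcrd p0 (y m1.1) (hVm m1) ⟨i, l⟩ (hjm0 m1 i)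
  have h7 := hcrd p0 (y m2.1) (hVm m2) ⟨i, l⟩ (hjm0 m2 i)
  exact h6.symm.trans (h5.trans h7)

/-- constancy from finite joint fibres -/
theorem constM (k : Type) [Field k] [IsAlgClosed k] (r : ℕ) (N : Fin r → ℕ)
    [∀ i, GradedAlgebra (homogeneousSubmodule (Fin (N i + 1)) k)]
    (A X : Over (Spec (CommRingCat.of k))) (hAint : AlgebraicGeometry.IsIntegral A.left)
    (hA : LocallyOfFiniteType A.hom) (hX : LocallyOfFiniteType X.hom)
    (f : ∀ i, X.left ⟶ Proj (homogeneousSubmodule (Fin (N i + 1)) k))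
    (hf : ∀ i, f i ≫ projStr k (N i) = X.hom)
    (hfib : ∀ P : ∀ i, Spec (CommRingCat.of k) ⟶ Proj (homogeneousSubmodule (Fin (N i + 1)) k),
      {x : Spec (CommRingCat.of k) ⟶ X.left | x ≫ X.hom = 𝟙 _ ∧ ∀ i, x ≫ f i = P i}.Finite)
    (g : A ⟶ X)
    (hconst : ∀ i (a b : A.left), (g.left ≫ f i).base a = (g.left ≫ f i).base b)
    (a b : A.left) : g.left.base a = g.left.base b := by
  classical
  have hjac : JacobsonSpace A.left := LocallyOfFiniteType.jacobsonSpace A.hom
  have hgX : g.left ≫ X.hom = A.hom := Over.w g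
  -- a closed point of `A`
  have hne : (closedPoints A.left).Nonempty := by
    have h1 : (Set.univ ∩ closedPoints A.left).Nonempty :=
      nonempty_inter_closedPoints ⟨a, trivial⟩ isClosed_univ.isLocallyClosed
    rwa [Set.univ_inter] at h1
  obtain ⟨a0, ha0⟩ := hne
  let x0 : Spec (CommRingCat.of k) ⟶ A.left := pointOfClosedPoint A.hom a0 ha0
  have hx0 : x0 ≫ A.hom = 𝟙 _ := pointOfClosedPoint_comp A.hom a0 ha0
  have hfin := hfib fun i => (x0 ≫ g.left) ≫ f i
  set F := {x : Spec (CommRingCat.of k) ⟶ X.left | x ≫ X.hom = 𝟙 _ ∧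
    ∀ i, x ≫ f i = (x0 ≫ g.left) ≫ f i} with hF
  let T : Set X.left := (fun x : Spec (CommRingCat.of k) ⟶ X.left =>
    x (IsLocalRing.closedPoint k)) '' F
  have hT : T.Finite := hfin.image _
  have hTc : T ⊆ closedPoints X.left := by
    rintro _ ⟨x, hx, rfl⟩
    exact (pointEquivClosedPoint X.hom ⟨x, hx.1⟩).2
  -- the closed points of `A` map to `T`
  have hcl : ∀ z ∈ closedPoints A.left, g.left.base z ∈ T := by
    intro z hz
    let x1 : Spec (CommRingCat.of k) ⟶ A.left := pointOfClosedPoint A.hom z hz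
    have hx1 : x1 ≫ A.hom = 𝟙 _ := pointOfClosedPoint_comp A.hom z hz
    refine ⟨x1 ≫ g.left, ⟨by rw [Category.assoc, hgX, hx1], fun i => ?_⟩, ?_⟩
    · refine ext_of_apply_closedPoint_eq (projStr k (N i)) ?_ ?_ ?_
      · rw [Category.assoc, Category.assoc, hf, hgX, hx1]
      · rw [Category.assoc, Category.assoc, hf, hgX, hx0]
      · have h1 := hconst i (x1 (IsLocalRing.closedPoint k)) (x0 (IsLocalRing.closedPoint k))
        simpa using h1
    · have h2 : x1 (IsLocalRing.closedPoint k) = z := pointOfClosedPoint_apply A.hom z hz _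
      change (x1 ≫ g.left).base (IsLocalRing.closedPoint k) = g.left.base z
      rw [← h2]
      simp
  have hTclosed : IsClosed T := by
    have h1 : T = ⋃ t ∈ T, {t} := by simp
    rw [h1]
    exact hT.isClosed_biUnion fun t ht => hTc ht
  have hall : ∀ z : A.left, g.left.base z ∈ T := by
    have h1 : IsClosed (g.left.base ⁻¹' T) := hTclosed.preimage g.left.continuous
    have h2 : closure (closedPoints A.left) ⊆ g.left.base ⁻¹' T := closure_minimal hcl h1
    rw [closure_closedPoints] at h2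
    exact fun z => h2 (Set.mem_univ z)
  -- conclusion
  have hirr : IrreducibleSpace A.left := inferInstance
  have hconn : PreconnectedSpace A.left := inferInstance
  have hd : _root_.IsDiscrete T := hT.isDiscrete_of_subset_closedPoints hTc
  have hdt : DiscreteTopology T := hd.to_subtype
  let u : A.left → T := fun x => ⟨g.left.base x, hall x⟩
  have hu : Continuous u := Continuous.subtype_mk g.left.continuous _
  have h1 : _root_.IsPreconnected (Set.range u) := by
    rw [← Set.image_univ]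
    exact isPreconnected_univ.image u hu.continuousOn
  have h2 := h1.subsingleton ⟨a, rfl⟩ ⟨b, rfl⟩
  exact congrArg Subtype.val h2

/-- Module GRPLM. -/
theorem grplM : GrplMStatement := by
  intro k _ _ _ r N c E hL X hXlft hXqc hX cm A gA hAint hAprop g
  obtain ⟨inst, f, hf, hfib, hy⟩ := hX
  choose y hyE using hy
  have hYsep : ∀ i, IsSeparated (projStr k (N i)) := by
    intro i
    unfold projStr
    infer_instance
  let Y : ∀ i, Over (Spec (CommRingCat.of k)) := fun i => Over.mk (projStr k (N i))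
  have hφ : ∀ i, (g.left ≫ f i) ≫ projStr k (N i) = A.hom := by
    intro i
    rw [Category.assoc, hf, Over.w]
  let φ : ∀ i, A ⟶ Y i := fun i => Over.homMk (g.left ≫ f i) (hφ i)
  -- data on `A`
  let V : (∀ i, Fin (N i + 1)) → A.left.Opens := fun p => g.left ⁻¹ᵁ chart N f p
  let H : ∀ p, Sg N ⊕ Fin c → Γ(A.left, V p) := fun p j =>
    (g.left.app (chart N f p)).hom (Sum.elim (crd N f p) (y p) j)
  have hHval : ∀ (K' : Type) [Field K'] (p) (z : Spec (CommRingCat.of K') ⟶ A.left)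
      (h : ⊤ ≤ z ⁻¹ᵁ V p) (j), kval z (V p) h (H p j) =
        kval (z ≫ g.left) (chart N f p) h (Sum.elim (crd N f p) (y p) j) := by
    intro K' _ p z h j
    exact (H41.kval_comp z g.left (chart N f p) h h _).symm
  have key : ∀ v : dualOver k ⟶ A, ∀ i, rho k 0 ≫ v ≫ φ i = v ≫ φ i := by
    intro v i
    let Q : ptS k ⟶ A := iot k ≫ v
    have hQ : rho k 0 ≫ v = str k (dualOver k) ≫ Q := by
      rw [rho_zero, Category.assoc]
    let w : dualOver k ⟶ A := (rho k 0 ≫ v)⁻¹ * v
    have hw : rho k 0 ≫ w = 1 := by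
      change rho k 0 ≫ ((rho k 0 ≫ v)⁻¹ * v) = 1
      rw [comp_mul, GrpObj.comp_inv, ← Category.assoc, rho_comp_rho_zero, inv_mul_cancel]
    have hw' : ∀ m : ℕ, (rho k 0 ≫ v) * w ^ m = rho k m ≫ v := by
      intro m
      rw [H91.gdual k A w hw m]
      change _ * (rho k m ≫ ((rho k 0 ≫ v)⁻¹ * v)) = _
      rw [comp_mul, GrpObj.comp_inv, ← Category.assoc (rho k (m : k)), rho_comp_rho_zero,
        mul_inv_cancel_left]
    obtain ⟨K', _, _, _, P, hP⟩ := H83.ggen k A hAint
    obtain ⟨n₁, n₂, hne, heq⟩ := gfinM k r N c E A hAprop (fun i => g.left ≫ f i) hφ K'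
      (fun p => hL K' p) V H
      (fun p z hz => le_chart N f (z ≫ g.left) p fun i => by
        have h1 := hz i
        rw [← Category.assoc] at h1
        exact h1)
      (fun p z h s h' => by
        rw [hHval K' p z h]
        have h2 : ⊤ ≤ ((z ≫ g.left) ≫ f s.1) ⁻¹ᵁ
          Proj.basicOpen (homogeneousSubmodule (Fin (N s.1 + 1)) k)
            (MvPolynomial.X (p s.1)) := by
          rw [Category.assoc]
          exact h'
        have h3 := kval_crd N f (z ≫ g.left) p h s h2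
        exact h3)
      (fun p z h hz q hq => by
        have h1 : (fun j => kval z (V p) h (H p j)) = fun j =>
            kval (z ≫ g.left) (chart N f p) h (Sum.elim (crd N f p) (y p) j) := by
          funext j
          exact hHval K' p z h j
        rw [h1]
        have h2 := kval_eval (z ≫ g.left) (chart N f p) h X.hom
          (by rw [Category.assoc, Over.w]; exact hz) (Sum.elim (crd N f p) (y p)) q
        rw [← h2]
        exact kval_of_bot _ _ _ _ (hyE p q hq))
      P (str k (ptOver k K') ≫ Q)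
    let ψ : ℕ → (A ⟶ A) := fun m => (str k A ≫ Q) * (𝟙 A) ^ m
    have hPψ : ∀ m, P ≫ ψ m = (str k (ptOver k K') ≫ Q) * P ^ m := by
      intro m
      change P ≫ ((str k A ≫ Q) * (𝟙 A) ^ m) = _
      rw [comp_mul, comp_pow, Category.comp_id, ← Category.assoc, comp_str]
    have h1 : ψ n₁ ≫ φ i = ψ n₂ ≫ φ i := by
      apply hP (Y i) (hYsep i)
      rw [← Category.assoc, ← Category.assoc, hPψ, hPψ]
      apply Over.OverMorphism.ext
      exact heq i
    have hwψ : ∀ m, w ≫ ψ m = rho k m ≫ v := by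
      intro m
      rw [← hw' m]
      change w ≫ ((str k A ≫ Q) * (𝟙 A) ^ m) = _
      rw [comp_mul, comp_pow, Category.comp_id, ← Category.assoc, comp_str, hQ]
    have h2 : rho k n₁ ≫ v ≫ φ i = rho k n₂ ≫ v ≫ φ i := by
      rw [← Category.assoc, ← Category.assoc, ← hwψ, ← hwψ, Category.assoc, Category.assoc, h1]
    apply Over.OverMorphism.ext
    exact H33.gtzero k (Y i).left (v ≫ φ i).left n₁ n₂ hne (congrArg (fun f => f.left) h2)
  have hconst : ∀ i, ∀ a b : A.left, (g.left ≫ f i).base a = (g.left ≫ f i).base b := fun i =>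
    H58.gtan k A (Y i) hAint (by infer_instance) (hYsep i) (φ i) fun v => key v i
  intro a b
  exact constM k r N A X hAint (by infer_instance) hXlft f hf hfib g hconst a b

end Pool.Agent.Met.Y
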