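import Pool.Agent.Lib.MP_c7af3c_ag.MET.Y.Glob
import Pool.Agent.Lib.MP_c7af3c_ag.YY.H46.Rank

/-! The rank of the derivatives of a point, from the Krull dimension (after YY.H46.Rank). -/

set_option autoImplicit false

namespace Pool.Agent.Met.Y

open MvPolynomial Pool.Agent.GenY.H46

section

variable {k0 : Type} [Field k0]

/-- monomial substitution is injective -/
theorem thetaM_inj (B : Type) {r : ℕ} (g : B → Fin r) : Function.Injective
    (aeval (R := k0) (Sum.elim (fun i : Fin r => X (Sum.inl i))
      (fun p : B => X (Sum.inl (g p)) * X (Sum.inr p)) :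
        Fin r ⊕ B → MvPolynomial (Fin r ⊕ B) k0)) := by
  set θ := aeval (R := k0) (Sum.elim (fun i : Fin r => X (Sum.inl i))
      (fun p : B => X (Sum.inl (g p)) * X (Sum.inr p)) :
        Fin r ⊕ B → MvPolynomial (Fin r ⊕ B) k0) with hθ
  let Q := FractionRing (MvPolynomial (Fin r ⊕ B) k0)
  let q := algebraMap (MvPolynomial (Fin r ⊕ B) k0) Q
  have hq : Function.Injective q := IsFractionRing.injective (MvPolynomial (Fin r ⊕ B) k0) Q
  have hX : ∀ i, q (X (Sum.inl i)) ≠ 0 := fun i h => X_ne_zero (R := k0) (Sum.inl i : Fin r ⊕ B)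
    (hq (by rw [h, map_zero]))
  let η : MvPolynomial (Fin r ⊕ B) k0 →ₐ[k0] Q :=
    aeval (Sum.elim (fun i => q (X (Sum.inl i)))
      (fun p : B => (q (X (Sum.inl (g p))))⁻¹ * q (X (Sum.inr p))))
  have h1 : η.comp θ = (Algebra.ofId (MvPolynomial (Fin r ⊕ B) k0) Q).restrictScalars k0 := by
    apply MvPolynomial.algHom_ext
    rintro (u | p)
    · change η (θ (X (Sum.inl u))) = q (X (Sum.inl u))
      rw [hθ, aeval_X, Sum.elim_inl]
      change aeval _ (X (Sum.inl u)) = _
      rw [aeval_X, Sum.elim_inl]
    · change η (θ (X (Sum.inr p))) = q (X (Sum.inr p))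
      rw [hθ, aeval_X, Sum.elim_inr, map_mul]
      change aeval _ (X (Sum.inl (g p))) * aeval _ (X (Sum.inr p)) = _
      rw [aeval_X, aeval_X, Sum.elim_inl, Sum.elim_inr, ← mul_assoc, mul_inv_cancel₀ (hX _),
        one_mul]
  intro a b hab
  apply hq
  have h2 := congrArg η hab
  have h3 : ∀ a, η (θ a) = q a := fun a => congrArg (fun f => f a) h1
  rwa [h3, h3] at h2

theorem indep_coneM {K B : Type} [Field K] [Algebra k0 K] {r : ℕ} (g : B → Fin r) (s : B → K)
    (hs : AlgebraicIndependent k0 s) : AlgebraicIndependent k0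
      (Sum.elim (fun i : Fin r => X i) (fun p : B => X (g p) * C (s p)) :
        Fin r ⊕ B → MvPolynomial (Fin r) K) := by
  have hX : AlgebraicIndependent K (X : Fin r → MvPolynomial (Fin r) K) :=
    MvPolynomial.algebraicIndependent_X (Fin r) K
  have h1 : AlgebraicIndependent k0
      (Sum.elim (X : Fin r → MvPolynomial (Fin r) K) (algebraMap K _ ∘ s)) :=
    hs.sumElim_comp hX
  have h2 : aeval (R := k0) (Sum.elim (fun i : Fin r => X i)
      (fun p : B => X (g p) * C (s p)) : Fin r ⊕ B → MvPolynomial (Fin r) K) =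
      (aeval (Sum.elim (X : Fin r → MvPolynomial (Fin r) K) (algebraMap K _ ∘ s))).comp
        (aeval (Sum.elim (fun i : Fin r => X (Sum.inl i))
          (fun p : B => X (Sum.inl (g p)) * X (Sum.inr p)) :
            Fin r ⊕ B → MvPolynomial (Fin r ⊕ B) k0)) := by
    apply MvPolynomial.algHom_ext
    rintro (u | p)
    · simp
    · simp [MvPolynomial.algebraMap_eq]
  rw [AlgebraicIndependent, h2, AlgHom.coe_comp]
  exact Function.Injective.comp h1 (thetaM_inj B g)

end

/-- Module RANK, multigraded. -/
theorem rankM {k0 : Type} [Field k0] {σ : Type} [Fintype σ] [DecidableEq σ] {r n : ℕ}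
    (g : σ → Fin r) (I0 : Set (MvPolynomial σ k0)) (hI0 : ∀ q ∈ I0, ∃ D, MH g q D)
    (hdim : ringKrullDim (MvPolynomial σ k0 ⧸ Ideal.span I0) ≤ (n + r : ℕ))
    (j0 : Fin r → σ) (hj0 : ∀ i, g (j0 i) = i) : RankLe I0 j0 n := by
  classical
  intro K _ _ _ x hx1 h0
  -- a transcendence basis among the coordinates
  obtain ⟨B, hB⟩ := (AlgebraicIndependent.matroid k0 K).exists_isBasis (Set.range x)
    (Set.subset_univ _)
  obtain ⟨hBi, hBs, hBa⟩ := AlgebraicIndependent.matroid_isBasis_iff.1 hB
  have hBfin : B.Finite := (Set.finite_range x).subset hBs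
  have : Fintype B := hBfin.fintype
  choose sB hsB using fun b : B => hBs b.2
  have hcard : Fintype.card B ≤ n := by
    let f0 : MvPolynomial σ k0 →ₐ[k0] MvPolynomial (Fin r) K := aeval fun p => X (g p) * C (x p)
    have hf0 : ∀ q ∈ Ideal.span I0, f0 q = 0 := by
      have : Ideal.span I0 ≤ RingHom.ker f0 := by
        rw [Ideal.span_le]
        intro q hq
        obtain ⟨D, hD⟩ := hI0 q hq
        change aeval (fun p => X (g p) * C (x p)) q = 0
        have h2 : aeval (fun p => X (g p) * C (x p)) q =
            (∏ i, (X i : MvPolynomial (Fin r) K) ^ D i) * C (aeval x q) := by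
          rw [aeval_def, eval₂_eq', aeval_def, eval₂_eq', map_sum, Finset.mul_sum]
          refine Finset.sum_congr rfl fun I hI => ?_
          have h3 : ∏ s, ((X (g s) : MvPolynomial (Fin r) K) * C (x s)) ^ I s =
              (∏ i, (X i : MvPolynomial (Fin r) K) ^ D i) * C (∏ s, x s ^ I s) := by
            simp only [mul_pow, Finset.prod_mul_distrib]
            rw [map_prod]
            simp only [map_pow]
            congr 1
            rw [← Finset.prod_fiberwise Finset.univ g
              (fun s => (X (g s) : MvPolynomial (Fin r) K) ^ I s)]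
            refine Finset.prod_congr rfl fun i _ => ?_
            have h4 : ∏ s with g s = i, (X (g s) : MvPolynomial (Fin r) K) ^ I s =
                ∏ s with g s = i, (X i : MvPolynomial (Fin r) K) ^ I s :=
              Finset.prod_congr rfl fun s hs => by rw [(Finset.mem_filter.1 hs).2]
            rw [h4, Finset.prod_pow_eq_pow_sum]
            congr 1
            have h5 := hD i (mem_support_iff.1 hI)
            have h6 : mdeg g I i = D i := h5
            rw [← h6, mdeg_eq, Finset.sum_filter]
          rw [h3, map_mul]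
          have h7 : algebraMap k0 (MvPolynomial (Fin r) K) (coeff I q) =
              C (algebraMap k0 K (coeff I q)) := rfl
          rw [h7]
          ring
        rw [h2, h0 q hq, map_zero, mul_zero]
      exact fun q hq => this hq
    let f : (MvPolynomial σ k0 ⧸ Ideal.span I0) →ₐ[k0] MvPolynomial (Fin r) K :=
      Ideal.Quotient.liftₐ (Ideal.span I0) f0 hf0
    have h3 := le_krullDim f (Sum.elim (fun i : Fin r => X i)
      (fun b : B => X (g (sB b)) * C (b : K)) : Fin r ⊕ B → MvPolynomial (Fin r) K)
      (indep_coneM (fun b => g (sB b)) (fun b : B => (b : K)) hBi) (by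
        rintro (i | b)
        · refine ⟨Ideal.Quotient.mk _ (X (j0 i)), ?_⟩
          change f0 (X (j0 i)) = _
          simp only [f0, aeval_X, hx1, hj0, MvPolynomial.C_1, mul_one, Sum.elim_inl]
        · refine ⟨Ideal.Quotient.mk _ (X (sB b)), ?_⟩
          change f0 (X (sB b)) = _
          simp only [f0, aeval_X, hsB, Sum.elim_inr]) (n + r) hdim
    rw [Fintype.card_sum, Fintype.card_fin] at h3
    omega
  have hr := finrank_le (k0 := k0) (fun b : B => (b : K)) x (fun p => by
    rw [Subtype.range_coe]
    exact hBa _ ⟨p, rfl⟩)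
  exact hr.trans hcard

end Pool.Agent.Met.Y
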