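import Pool.Agent.Lib.MP_c7af3c_ag.MET.Y.BpfM
import Pool.Agent.Lib.MP_c7af3c_ag.MET.Y.RankM
import Pool.Agent.Lib.MP_c7af3c_ag.MET.Y.GrplM
import Pool.Agent.Lib.MP_c7af3c_ag.MET.Y.H81.SfinM
import Pool.Agent.Lib.MP_c7af3c_ag.MET.All

/-!
# MP_c7af3c_ag, project MET, part Y: assembly
-/

set_option autoImplicit false
set_option linter.unusedSectionVars false

namespace Pool.Agent.Met.Y

open MvPolynomial Pool.Agent.Gen Pool.Agent.Met

/-! ### finiteness -/

section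

variable {k0 : Type} [Field k0] {σ τ : Type} [Fintype σ] [DecidableEq σ] [Fintype τ]
  [DecidableEq τ] {r r' c : ℕ} (P : Shape k0 σ τ r r' c)

theorem finM (I0 : Set (MvPolynomial σ k0)) (hI0 : ∀ g ∈ I0, ∃ E, MH P.gs g E)
    (j0 : Fin r → σ) (hj0 : ∀ i, P.gs (j0 i) = i) (n : ℕ) (qm : Fin r → ℕ)
    (hdim : ringKrullDim (MvPolynomial σ k0 ⧸ Ideal.span I0) ≤ (n + r : ℕ))
    (hb : Bpf P I0) (hbig : Big P n qm)
    (K : Type) [Field K] [IsAlgClosed K] [CharZero K] [Algebra k0 K] (a : P.Idx → K)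
    (ha : AlgebraicIndependent k0 a) (S : Set K) (hS : S.Finite) :
    {z : σ ⊕ Fin c → K | (∀ j, z j ∈ Subfield.closure S) ∧ IsSol P I0 j0 a z}.Finite := by
  let R := algebraicClosure k0 K
  have hR1 := algebraicClosure.isAlgClosure k0 K
  have hR0 : IsAlgClosed R := hR1.isAlgClosed
  have hRc : CharZero R := (algebraMap R K).charZero
  have hfin := thm2All k0 R K P.Idx (σ ⊕ Fin c) (EE P I0 j0) (algebraMap k0 R)
    a ha.algebraicClosure
    (hbY I0 j0 hj0 n qm hI0 (rankM P.gs I0 hI0 hdim j0 hj0) hb hbig) S hS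
  refine hfin.subset ?_
  rintro x ⟨hx1, hx2⟩
  refine ⟨fun j => ?_, ?_⟩
  · have h1 : Subfield.closure S ≤ (IntermediateField.adjoin R S).toSubfield :=
      (Subfield.closure_le).mpr fun a ha => IntermediateField.subset_adjoin R S ha
    exact h1 (hx1 j)
  · have e0 : ((algebraMap R K).comp (algebraMap k0 R)) = algebraMap k0 K :=
      (IsScalarTower.algebraMap_eq k0 R K).symm
    rw [e0, sol_iff]
    exact hx2

end

/-! ### the systems on the charts -/

section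

variable {k0 : Type} [Field k0] {r r' c : ℕ} {N : Fin r → ℕ} {M : Fin r' → ℕ}

theorem mdeg_sigma (I : Sg N →₀ ℕ) (i : Fin r) :
    mdeg (Sigma.fst : Sg N → Fin r) I i = ∑ j, I ⟨i, j⟩ := by
  classical
  rw [mdeg_eq, Fintype.sum_sigma, Finset.sum_eq_single i]
  · simp
  · intro b _ hb
    simp [hb]
  · simp

theorem MH_iff {R : Type} [CommSemiring R] (q : MvPolynomial (Sg N) R) (D : Fin r → ℕ) :
    MH (Sigma.fst : Sg N → Fin r) q D ↔
      ∀ I, coeff I q ≠ 0 → ∀ i, ∑ j, I ⟨i, j⟩ = D i := by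
  constructor
  · intro h I hI i
    rw [← mdeg_sigma]
    exact h i hI
  · intro h i I hI
    rw [← h I hI i, ← mdeg_sigma]
    rfl

/-- the system of the chart `p` over the field `k` -/
def ES {k : Type} [Field k] [Algebra k0 k] (G : Set (MvPolynomial (Sg N) k0))
    (φ : Sg M → MvPolynomial (Sg N) k0) (F : Fin c → MvPolynomial (Sg M) k) (e : Fin c → ℕ)
    (p : ∀ i, Fin (N i + 1)) : Set (MvPolynomial (Sg N ⊕ Fin c) k) :=
  {q | (∃ i, q = X (Sum.inl ⟨i, p i⟩) - 1) ∨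
    (∃ g ∈ G, q = rename Sum.inl (map (algebraMap k0 k) g)) ∨
    (∃ j, e j = 0 ∧ q = rename Sum.inl (bind₁ (fun t => map (algebraMap k0 k) (φ t)) (F j))) ∨
    (∃ j, e j = 0 ∧ q = X (Sum.inr j)) ∨
    ∃ j, e j ≠ 0 ∧ q = rename Sum.inl (bind₁ (fun t => map (algebraMap k0 k) (φ t)) (F j)) -
      X (Sum.inr j) ^ e j}

/-- the shape -/
def shp (φ : Sg M → MvPolynomial (Sg N) k0) (Q : Fin r' → Fin r → ℕ)
    (hφ : ∀ t, MH (Sigma.fst : Sg N → Fin r) (φ t) (Q t.1)) (d : Fin c → Fin r' → ℕ)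
    (e : Fin c → ℕ) (w : Fin c → Fin r → ℕ)
    (hw : ∀ j, e j ≠ 0 → ∀ i, e j * w j i = ∑ t, d j t * Q t i) :
    Shape k0 (Sg N) (Sg M) r r' c where
  gs := Sigma.fst
  gt := Sigma.fst
  Q := Q
  φ := φ
  φh := hφ
  d := d
  e := e
  m := w
  em := hw

variable {k : Type} [Field k] [Algebra k0 k] (G : Set (MvPolynomial (Sg N) k0))
  (φ : Sg M → MvPolynomial (Sg N) k0) (Q : Fin r' → Fin r → ℕ)
  (hφ : ∀ t, MH (Sigma.fst : Sg N → Fin r) (φ t) (Q t.1)) (d : Fin c → Fin r' → ℕ)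
  (e : Fin c → ℕ) (w : Fin c → Fin r → ℕ)
  (hw : ∀ j, e j ≠ 0 → ∀ i, e j * w j i = ∑ t, d j t * Q t i)
  (F : Fin c → MvPolynomial (Sg M) k)
  (hF : ∀ j, MH (Sigma.fst : Sg M → Fin r') (F j) (d j))

include hF in
theorem frm_eq {K' : Type} [Field K'] [Algebra k K'] (j : Fin c) :
    frm (shp φ Q hφ d e w hw) (fun s => algebraMap k K' (coeff s.1.2 (F s.1.1))) j =
      map (algebraMap k K') (F j) := by
  classical
  ext I
  rw [coeff_frm, coeff_map]
  by_cases h : ∀ i, mdeg (shp φ Q hφ d e w hw).gt I i = (shp φ Q hφ d e w hw).d j i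
  · rw [cf_pos _ _ h]
  · rw [cf_neg _ _ h]
    by_contra hne
    apply h
    intro i
    have h1 : coeff I (F j) ≠ 0 := fun h0 => hne (by rw [h0, map_zero])
    exact hF j i h1

include hF in
theorem isSol_of {K' : Type} [Field K'] [Algebra k K'] [Algebra k0 K'] [IsScalarTower k0 k K']
    (p : ∀ i, Fin (N i + 1)) (z : Sg N ⊕ Fin c → K')
    (hz : ∀ q ∈ map (algebraMap k K') '' ES G φ F e p, eval z q = 0) :
    IsSol (shp φ Q hφ d e w hw) G (fun i => ⟨i, p i⟩)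
      (fun s => algebraMap k K' (coeff s.1.2 (F s.1.1))) z := by
  have hz' : ∀ q ∈ ES G φ F e p, aeval z q = 0 := by
    intro q hq
    have h1 := hz _ ⟨q, hq, rfl⟩
    rwa [eval_map] at h1
  have hyv : yv (shp φ Q hφ d e w hw) z =
      fun t => aeval (fun s => z (Sum.inl s)) (map (algebraMap k0 k) (φ t)) := by
    funext t
    rw [aeval_map_algebraMap]
    rfl
  have hfr : ∀ j, aeval z (rename (Sum.inl : Sg N → Sg N ⊕ Fin c)
      (bind₁ (fun t => map (algebraMap k0 k) (φ t)) (F j))) =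
      eval (yv (shp φ Q hφ d e w hw) z) (frm (shp φ Q hφ d e w hw)
        (fun s => algebraMap k K' (coeff s.1.2 (F s.1.1))) j) := by
    intro j
    rw [frm_eq φ Q hφ d e w hw F hF j, eval_map, hyv, aeval_rename, aeval_bind₁]
    rfl
  refine ⟨fun i => ?_, fun g hg => ?_, fun j hj => ?_, fun j hj => ?_, fun j hj => ?_⟩
  · have := hz' _ (Or.inl ⟨i, rfl⟩)
    rw [map_sub, aeval_X, map_one] at this
    exact sub_eq_zero.1 this
  · have := hz' _ (Or.inr (Or.inl ⟨g, hg, rfl⟩))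
    rw [aeval_rename, aeval_map_algebraMap] at this
    exact this
  · have := hz' _ (Or.inr (Or.inr (Or.inl ⟨j, hj, rfl⟩)))
    rw [hfr] at this
    exact this
  · have := hz' _ (Or.inr (Or.inr (Or.inr (Or.inl ⟨j, hj, rfl⟩))))
    rw [aeval_X] at this
    exact this
  · have := hz' _ (Or.inr (Or.inr (Or.inr (Or.inr ⟨j, hj, rfl⟩))))
    rw [map_sub, hfr, map_pow, aeval_X] at this
    exact sub_eq_zero.1 this

end

end Pool.Agent.Met.Y
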