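import Pool.Agent.Lib.MP_c7af3c_ag.MET.Y.Rows

/-! The height inequality. -/

set_option autoImplicit false
set_option linter.unusedSectionVars false
set_option linter.unusedVariables false

namespace Pool.Agent.Met.Y

open MvPolynomial WithZero Pool.Agent.Gen Pool.Agent.Met

theorem exp_sum' {ι : Type} (s : Finset ι) (f : ι → ℤ) :
    (exp (∑ i ∈ s, f i) : ℤᵐ⁰) = ∏ i ∈ s, exp (f i) := by
  classical
  induction s using Finset.induction_on with
  | empty => simp
  | insert a s ha ih => rw [Finset.sum_insert ha, Finset.prod_insert ha, exp_add, ih]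

theorem exp_mul_log {x : ℤᵐ⁰} (hx : x ≠ 0) (n : ℕ) : exp ((n : ℤ) * log x) = x ^ n := by
  rw [← nsmul_eq_mul, exp_nsmul, exp_log hx]

theorem exp_sum_log {ι : Type} (s : Finset ι) (n : ι → ℕ) (x : ι → ℤᵐ⁰) (hx : ∀ i, x i ≠ 0) :
    (exp (∑ i ∈ s, (n i : ℤ) * log (x i)) : ℤᵐ⁰) = ∏ i ∈ s, x i ^ n i := by
  rw [exp_sum']
  exact Finset.prod_congr rfl fun i _ => exp_mul_log (hx i) _

theorem log_le_of_le {x y : ℤᵐ⁰} (hx : x ≠ 0) (h : x ≤ y) : log x ≤ log y := by
  have hy : y ≠ 0 := fun h0 => hx (by rw [h0, le_zero_iff] at h; exact h)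
  rw [← exp_log hx, ← exp_log hy] at h
  exact WithZero.exp_le_exp.1 h

theorem log_nonneg_of {x : ℤᵐ⁰} (h : 1 ≤ x) : 0 ≤ log x := by
  have := log_le_of_le one_ne_zero h
  rwa [log_one] at this

/-- height of an element from a pointwise bound -/
theorem h1_le {L : Type} [Field L] (S : PlaceSys L) (hS : S.IsProd) (y : L) (T : Finset S.V)
    (φ : S.V → ℤ) (hφ0 : ∀ p, p ∉ T → φ p = 0) (hy : ∀ p, S.v p y ≤ exp (φ p))
    (hφ : ∀ p, 0 ≤ φ p) :
    Met.h1 S y ≤ ∑ p ∈ T, (S.w p : ℤ) * φ p := by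
  classical
  have hne : (![1, y] : Fin 2 → L) ≠ 0 := by
    intro h
    have := congrFun h 0
    simp at this
  have hmx : ∀ p, S.mx (n := 1) ![1, y] p ≤ exp (φ p) := by
    intro p
    refine Finset.sup'_le _ _ fun j _ => ?_
    fin_cases j
    · change S.v p 1 ≤ _
      rw [map_one, ← exp_zero]
      exact WithZero.exp_le_exp.2 (hφ p)
    · exact hy p
  have hl : ∀ p, log (S.mx (n := 1) ![1, y] p) ≤ φ p := by
    intro p
    have h1 := log_le_of_le (S.mx_ne_zero (n := 1) ![1, y] hne p) (hmx p)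
    rwa [log_exp] at h1
  have hl0 : ∀ p, 0 ≤ log (S.mx (n := 1) ![1, y] p) := fun p =>
    S.log_mx_nonneg (n := 1) ![1, y] (j0 := 0) rfl p
  have e1 : Met.h1 S y = ∑ p ∈ T, (S.w p : ℤ) * log (S.mx (n := 1) ![1, y] p) := by
    refine finsum_eq_sum_of_support_subset _ ?_
    intro p hp
    by_contra hT
    simp only [Function.mem_support, ne_eq, mul_eq_zero, not_or] at hp
    apply hp.2
    have h2 := hl p
    rw [hφ0 p hT] at h2
    exact le_antisymm h2 (hl0 p)
  rw [e1]
  exact Finset.sum_le_sum fun p _ => mul_le_mul_of_nonneg_left (hl p) (by positivity)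

section
variable {k0 : Type} [Field k0] {σ τ : Type} [Fintype σ] [DecidableEq σ] [Fintype τ]
  [DecidableEq τ] {r r' c : ℕ} (P : Shape k0 σ τ r r' c)

/-- the forms `φ` have no common zero on the ambient variety -/
def Bpf (I0 : Set (MvPolynomial σ k0)) : Prop :=
  ∀ (t' : Fin r') (t : Fin r → σ), (∀ i, P.gs (t i) = i) →
    ∃ (e : ℕ) (A : τ → MvPolynomial σ k0),
      ∀ (L : Type) [Field L] [Algebra k0 L] (x : σ → L), (∀ g ∈ I0, aeval x g = 0) →
        (∏ i, x (t i)) ^ e = ∑ u with P.gt u = t', aeval x (A u) * aeval x (P.φ u)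

/-- the degree of the `j`-th composed form in the direction `i` -/
def Shape.dd (j : Fin c) (i : Fin r) : ℕ := ∑ t, P.d j t * P.Q t i

/-- the numerical condition -/
def Big (n : ℕ) (qm : Fin r → ℕ) : Prop :=
  (∀ t i, P.Q t i ≤ qm i) ∧
  ∀ i, min (Finset.univ.filter fun s => P.gs s = i).card (n + 1) +
    ∑ j, (if P.e j = 0 then 0 else P.m j i) + qm i * n + 1 ≤
      ∑ j, P.dd j i + qm i * (Finset.univ.filter fun j => P.e j = 0).card

variable {P}

section loc
variable {L : Type} [Field L] [Algebra k0 L]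
  {D : DD P.Idx L} {v : Valuation L ℤᵐ⁰} {M : ℤᵐ⁰} {z : σ ⊕ Fin c → L} {l : Fin r → L}

theorem v_lq (l : Fin r → L) (t' : Fin r') : v (lq P l t') = ∏ i, v (l i) ^ P.Q t' i := by
  unfold lq
  rw [map_prod]
  exact Finset.prod_congr rfl fun i _ => map_pow _ _ _

theorem v_lq_prod (l : Fin r → L) (j : Fin c) :
    ∏ t', v (lq P l t') ^ P.d j t' = ∏ i, v (l i) ^ P.dd j i := by
  simp only [v_lq, ← Finset.prod_pow]
  rw [Finset.prod_comm]
  refine Finset.prod_congr rfl fun i _ => ?_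
  simp only [← pow_mul]
  rw [Finset.prod_pow_eq_pow_sum]
  congr 1
  exact Finset.sum_congr rfl fun t _ => mul_comm _ _

/-- the maximal value among the `φ` of a group -/
theorem LH.phi_ge (h : LH P D v M z l) {I0 : Set (MvPolynomial σ k0)} (hb : Bpf P I0)
    (hI0 : ∀ g ∈ I0, ∃ E, MH P.gs g E)
    (hz0 : ∀ g ∈ I0, aeval (fun s => z (Sum.inl s)) g = 0)
    (t : Fin r → σ) (ht : ∀ i, P.gs (t i) = i) (hl : ∀ i, l i = z (Sum.inl (t i)))
    (t' : Fin r') (u : τ) (hu : ∀ u', P.gt u' = t' → v (yv P z u') ≤ v (yv P z u)) :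
    v (lq P l t') ≤ v (yv P z u) := by
  classical
  obtain ⟨e, A, hid⟩ := hb t' t ht
  have hnz : ∀ g ∈ I0, aeval (fun s => nz P l z (Sum.inl s)) g = 0 := by
    intro g hg
    obtain ⟨E, hE⟩ := hI0 g hg
    have h2 : (fun s => z (Sum.inl s)) = fun s => l (P.gs s) * nz P l z (Sum.inl s) := by
      funext s
      rw [z_eq P h.l0 z (Sum.inl s), Lam_inl]
    have h3 := hz0 g hg
    rw [h2, aeval_scale P.gs E g hE l] at h3
    exact (mul_eq_zero.1 h3).resolve_left
      (Finset.prod_ne_zero_iff.2 fun i _ => pow_ne_zero _ (h.l0 i))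
  have hone : ∀ i, nz P l z (Sum.inl (t i)) = 1 := by
    intro i
    unfold nz
    rw [Lam_inl, ht i, ← hl i, div_self (h.l0 i)]
  have h1 := hid L (fun s => nz P l z (Sum.inl s)) hnz
  rw [Finset.prod_eq_one fun i _ => hone i, one_pow] at h1
  -- some term has value at least one
  have h2 : ∃ u', P.gt u' = t' ∧ 1 ≤ v (yv P (nz P l z) u') := by
    by_contra hc
    push Not at hc
    have h3 : v (∑ u with P.gt u = t', aeval (fun s => nz P l z (Sum.inl s)) (A u) *
        aeval (fun s => nz P l z (Sum.inl s)) (P.φ u)) < 1 := by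
      refine v.map_sum_lt one_ne_zero fun u' hu' => ?_
      rw [map_mul]
      have h4 := aeval_le h.k (fun s => nz P l z (Sum.inl s)) h.nz_inl (A u')
      have h5 : v (aeval (fun s => nz P l z (Sum.inl s)) (P.φ u')) < 1 :=
        hc u' (Finset.mem_filter.1 hu').2
      calc _ ≤ 1 * v (aeval (fun s => nz P l z (Sum.inl s)) (P.φ u')) := mul_le_mul' h4 le_rfl
        _ < 1 := by rw [one_mul]; exact h5
    rw [← h1, map_one] at h3
    exact lt_irrefl _ h3
  obtain ⟨u', hu', h6⟩ := h2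
  refine le_trans ?_ (hu u' hu')
  rw [yv_eq P h.l0 z u', hu', map_mul]
  calc v (lq P l t') = v (lq P l t') * 1 := (mul_one _).symm
    _ ≤ _ := mul_le_mul' le_rfl h6

/-- the value of a general form -/
theorem LH.frm_le (h : LH P D v M z l) (j : Fin c) :
    v (eval (yv P z) (frm P D.a j)) ≤ M * ∏ i, v (l i) ^ P.dd j i := by
  have h1 : yv P z = fun t => lq P l (P.gt t) * yv P (nz P l z) t := by
    funext t
    exact yv_eq P h.l0 z t
  have h5 : eval (fun t => lq P l (P.gt t) * yv P (nz P l z) t) (frm P D.a j) =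
      (∏ t', lq P l t' ^ P.d j t') * eval (yv P (nz P l z)) (frm P D.a j) :=
    eval_scale P.gt (P.d j) _ (MH_frm P D.a j) (lq P l) _
  rw [h1, h5, map_mul, map_prod]
  have h2 : v (eval (yv P (nz P l z)) (frm P D.a j)) ≤ M := by
    rw [eval_eq']
    refine v.map_sum_le fun I _ => ?_
    rw [map_mul, coeff_frm]
    calc _ ≤ M * 1 := mul_le_mul' (h.cf j I) (prod_le_one' _ h.yv_le I)
      _ = M := mul_one M
  have h3 : ∏ t', v (lq P l t' ^ P.d j t') = ∏ i, v (l i) ^ P.dd j i := by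
    rw [← v_lq_prod]
    exact Finset.prod_congr rfl fun t' _ => map_pow _ _ _
  rw [h3, mul_comm]
  exact mul_le_mul' h2 le_rfl

end loc

theorem hbY (I0 : Set (MvPolynomial σ k0)) (j0 : Fin r → σ) (hj0 : ∀ i, P.gs (j0 i) = i)
    (n : ℕ) (qm : Fin r → ℕ) (hI0 : ∀ g ∈ I0, ∃ E, MH P.gs g E)
    (hrk : RankLe I0 j0 n) (hb : Bpf P I0) (hbig : Big P n qm) :
    HB (EE P I0 j0) := by
  classical
  set K0 : ℕ := 3 * (r + n + c) with hK0
  set K1 : ℕ := ∑ j, ∑ i, P.dd j i with hK1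
  refine ⟨1 + K0 + K1 * K0, ?_⟩
  intro L _ _ φ0 D hD' z hz' S hS hk' M hM ρ0
  let _ : Algebra k0 L := φ0.toAlgebra
  have hD : ∀ s (a : k0), D.del s (algebraMap k0 L a) = 0 := hD'
  have hk : ∀ p (a : k0), S.v p (algebraMap k0 L a) ≤ 1 := hk'
  have hz : IsSol P I0 j0 D.a z := (sol_iff P I0 j0 D.a z).1 hz'
  -- some `φ` does not vanish
  have hne : ∀ i, ∃ t, P.gt t = i ∧ yv P z t ≠ 0 := by
    intro t'
    by_contra hc
    push Not at hc
    obtain ⟨e, A, hid⟩ := hb t' j0 hj0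
    have h1 := hid L (fun s => z (Sum.inl s)) hz.amb
    rw [Finset.prod_eq_one fun i _ => hz.one i, one_pow] at h1
    have h3 : ∑ u with P.gt u = t', aeval (fun s => z (Sum.inl s)) (A u) *
        aeval (fun s => z (Sum.inl s)) (P.φ u) = 0 := by
      refine Finset.sum_eq_zero fun u hu => ?_
      have h4 : aeval (fun s => z (Sum.inl s)) (P.φ u) = 0 := hc u (Finset.mem_filter.1 hu).2
      rw [h4, mul_zero]
    rw [h3] at h1
    exact one_ne_zero h1
  -- maxima
  have hmax : ∀ p : S.V, ∀ i : Fin r, ∃ s : σ, P.gs s = i ∧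
      ∀ s', P.gs s' = i → S.v p (z (Sum.inl s')) ≤ S.v p (z (Sum.inl s)) := by
    intro p i
    obtain ⟨s, hs, hs'⟩ := Finset.exists_max_image (Finset.univ.filter fun s => P.gs s = i)
      (fun s => S.v p (z (Sum.inl s))) ⟨j0 i, by simp [hj0]⟩
    exact ⟨s, (Finset.mem_filter.1 hs).2, fun s' h => hs' s' (by simp [h])⟩
  choose t htg htmax using hmax
  have hmaxy : ∀ p : S.V, ∀ t' : Fin r', ∃ u : τ, P.gt u = t' ∧
      ∀ u', P.gt u' = t' → S.v p (yv P z u') ≤ S.v p (yv P z u) := by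
    intro p t'
    obtain ⟨u0, hu0, -⟩ := hne t'
    obtain ⟨s, hs, hs'⟩ := Finset.exists_max_image (Finset.univ.filter fun s => P.gt s = t')
      (fun s => S.v p (yv P z s)) ⟨u0, by simp [hu0]⟩
    exact ⟨s, (Finset.mem_filter.1 hs).2, fun s' h => hs' s' (by simp [h])⟩
  choose u hug humax using hmaxy
  set sm : S.V → Fin r → ℤᵐ⁰ := fun p i => S.v p (z (Sum.inl (t p i))) with hsm
  have hsm1 : ∀ p i, 1 ≤ sm p i := by
    intro p i
    have := htmax p i (j0 i) (hj0 i)
    rwa [hz.one i, map_one] at this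
  have hsm0 : ∀ p i, sm p i ≠ 0 := fun p i h => by
    have := hsm1 p i
    rw [h] at this
    exact absurd this (by simp)
  have hle : ∀ p s, S.v p (z (Sum.inl s)) ≤ sm p (P.gs s) := fun p s => htmax p _ s rfl
  have hLH : ∀ p, LH P D (S.v p) (exp (M p : ℤ)) z (fun i => z (Sum.inl (t p i))) := fun p =>
    { M1 := by
        rw [← exp_zero]
        exact WithZero.exp_le_exp.2 (by positivity)
      k := hk p
      del := fun s f hf => hM.del p s f hf
      a := fun s => hM.a p s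
      l0 := fun i h => hsm0 p i (by rw [hsm]; simp only [h, map_zero])
      le := fun s => htmax p _ s rfl }
  -- the linear algebra
  obtain ⟨m, q, R, μ, hok, hμ, hdet⟩ := linY (LYof P hj0 D hD z hz hne)
  have hok' : ∀ a, Ok P.gt P.d (q a) := hok
  obtain ⟨tu, htu, htune⟩ := exists_piv (LYof P hj0 D hD z hz hne)
  have hdne : Matrix.det (Matrix.of fun a k =>
      (LYof P hj0 D hD z hz hne).col q tu k (R a)) ≠ 0 := by
    rw [hdet tu htu]
    exact mul_ne_zero hμ (Finset.prod_ne_zero_iff.2 fun i _ => pow_ne_zero _ (htune i))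
  have hm := z_le hj0 hD hz hne hrk q tu R hdne
  have hww := ww_le hj0 hD hz hne hrk q tu R hdne
  set W : Fin r → ℕ := fun i => ∑ a, ww P i (R a) + ∑ b, P.Q (P.gt (q b).2.1) i with hW
  -- local inequality
  have hlocal : ∀ p, log (S.v p μ) + ∑ i, ((∑ j, P.dd j i : ℕ) : ℤ) * log (sm p i) ≤
      (K0 : ℤ) * M p + ∑ i, ((W i : ℕ) : ℤ) * log (sm p i) := by
    intro p
    have h1 := loc (hLH p) hj0 hD hz hne q hok' R (u p)
    rw [hdet (u p) (hug p), map_mul, map_prod] at h1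
    have h2 : ∏ t', S.v p ((LYof P hj0 D hD z hz hne).y (u p t') ^
        ∑ j, (LYof P hj0 D hD z hz hne).d j t') ≥ ∏ i, sm p i ^ ∑ j, P.dd j i := by
      have h3 : ∀ t', S.v p ((LYof P hj0 D hD z hz hne).y (u p t') ^
          ∑ j, (LYof P hj0 D hD z hz hne).d j t') ≥
          ∏ j, S.v p (lq P (fun i => z (Sum.inl (t p i))) t') ^ P.d j t' := by
        intro t'
        rw [Finset.prod_pow_eq_pow_sum, map_pow]
        exact pow_le_pow_left' ((hLH p).phi_ge hb hI0 hz.amb (t p) (htg p) (fun i => rfl) t'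
          (u p t') (humax p t')) _
      have h4 : ∏ i, sm p i ^ ∑ j, P.dd j i = ∏ t', ∏ j,
          S.v p (lq P (fun i => z (Sum.inl (t p i))) t') ^ P.d j t' := by
        rw [Finset.prod_comm]
        simp only [v_lq_prod]
        rw [Finset.prod_comm]
        refine Finset.prod_congr rfl fun i _ => ?_
        rw [Finset.prod_pow_eq_pow_sum]
      rw [h4]
      exact Finset.prod_le_prod' fun t' _ => h3 t'
    have h5 : S.v p μ * ∏ i, sm p i ^ ∑ j, P.dd j i ≤
        (exp (M p : ℤ) ^ 3) ^ (r + m + c) * ∏ i, sm p i ^ W i :=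
      (mul_le_mul' le_rfl h2).trans h1
    have hlhs : S.v p μ * ∏ i, sm p i ^ (∑ j, P.dd j i) =
        exp (log (S.v p μ) + ∑ i, ((∑ j, P.dd j i : ℕ) : ℤ) * log (sm p i)) := by
      rw [exp_add, exp_log ((map_ne_zero _).2 hμ), exp_sum_log _ _ _ (hsm0 p)]
    have hrhs : (exp (M p : ℤ) ^ 3) ^ (r + m + c) * ∏ i, sm p i ^ W i =
        exp (((3 * (r + m + c) : ℕ) : ℤ) * M p + ∑ i, ((W i : ℕ) : ℤ) * log (sm p i)) := by
      rw [exp_add, exp_sum_log _ _ _ (hsm0 p), ← pow_mul, ← nsmul_eq_mul, exp_nsmul]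
    rw [hlhs, hrhs] at h5
    have h6 := WithZero.exp_le_exp.1 h5
    have h7 : (3 * (r + m + c) : ℕ) ≤ K0 := by omega
    have h8 : ((3 * (r + m + c) : ℕ) : ℤ) * (M p : ℤ) ≤ (K0 : ℤ) * (M p : ℤ) :=
      mul_le_mul_of_nonneg_right (by exact_mod_cast h7) (by positivity)
    linarith
  -- finite sums
  have hcf : ∀ x : L, x ≠ 0 → {p | S.v p x ≠ 1}.Finite := hS.fin
  have hfz : (⋃ s : {s : σ // z (Sum.inl s) ≠ 0}, {p | S.v p (z (Sum.inl s.1)) ≠ 1}).Finite :=
    Set.finite_iUnion fun s => hS.fin _ s.2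
  have hf2 := hS.fin μ hμ
  set T : Finset S.V := hfz.toFinset ∪ hf2.toFinset ∪ hM.fin.toFinset with hT
  have hT1 : ∀ p, p ∉ T → ∀ i, sm p i = 1 := by
    intro p hp i
    rw [hT] at hp
    simp only [Finset.mem_union, Set.Finite.mem_toFinset, Set.mem_iUnion, Set.mem_ofPred_eq,
      not_or, not_exists, not_not] at hp
    have h0 : z (Sum.inl (t p i)) ≠ 0 := fun h => hsm0 p i (by rw [hsm]; simp only [h, map_zero])
    exact hp.1.1 ⟨_, h0⟩
  have hT2 : ∀ p, p ∉ T → S.v p μ = 1 := by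
    intro p hp
    rw [hT] at hp
    simp only [Finset.mem_union, Set.Finite.mem_toFinset, Set.mem_iUnion, Set.mem_ofPred_eq,
      not_or, not_exists, not_not] at hp
    exact hp.1.2
  have hT3 : ∀ p, p ∉ T → M p = 0 := by
    intro p hp
    rw [hT] at hp
    simp only [Finset.mem_union, Set.Finite.mem_toFinset, Set.mem_iUnion, Set.mem_ofPred_eq,
      not_or, not_exists, not_not] at hp
    exact hp.2
  set H : Fin r → ℤ := fun i => ∑ p ∈ T, (S.w p : ℤ) * log (sm p i) with hH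
  set B : ℤ := ∑ p ∈ T, (S.w p : ℤ) * (M p : ℤ) with hB
  have hs2 : (0 : ℤ) = ∑ p ∈ T, (S.w p : ℤ) * log (S.v p μ) := by
    rw [← hS.prod μ hμ]
    refine finsum_eq_sum_of_support_subset _ ?_
    intro p hp
    by_contra hc
    simp only [Function.mem_support, ne_eq, mul_eq_zero, not_or] at hp
    apply hp.2
    rw [hT2 p hc, log_one]
  have hs3 : ∑ᶠ p, (S.w p : ℤ) * (M p : ℤ) = B := by
    refine finsum_eq_sum_of_support_subset _ ?_
    intro p hp
    by_contra hc
    simp only [Function.mem_support, ne_eq, mul_eq_zero, not_or] at hp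
    apply hp.2
    rw [hT3 p hc]
    rfl
  have hH0 : ∀ i, 0 ≤ H i := fun i => Finset.sum_nonneg fun p _ =>
    mul_nonneg (by positivity) (log_nonneg_of (hsm1 p i))
  have hB0 : 0 ≤ B := Finset.sum_nonneg fun p _ => by positivity
  have hsum : ∑ i, ((∑ j, P.dd j i : ℕ) : ℤ) * H i ≤
      (K0 : ℤ) * B + ∑ i, ((W i : ℕ) : ℤ) * H i := by
    have e1 : ∀ w : Fin r → ℕ, ∑ i, (w i : ℤ) * H i =
        ∑ p ∈ T, (S.w p : ℤ) * ∑ i, (w i : ℤ) * log (sm p i) := by
      intro w
      rw [hH]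
      simp only [Finset.mul_sum]
      rw [Finset.sum_comm]
      exact Finset.sum_congr rfl fun p _ => Finset.sum_congr rfl fun i _ => by ring
    rw [e1, e1]
    calc _ = ∑ p ∈ T, (S.w p : ℤ) * log (S.v p μ) +
          ∑ p ∈ T, (S.w p : ℤ) * ∑ i, ((∑ j, P.dd j i : ℕ) : ℤ) * log (sm p i) := by
          rw [← hs2, zero_add]
      _ = ∑ p ∈ T, (S.w p : ℤ) * (log (S.v p μ) +
          ∑ i, ((∑ j, P.dd j i : ℕ) : ℤ) * log (sm p i)) := by
        rw [← Finset.sum_add_distrib]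
        exact Finset.sum_congr rfl fun p _ => by ring
      _ ≤ ∑ p ∈ T, (S.w p : ℤ) * ((K0 : ℤ) * M p +
          ∑ i, ((W i : ℕ) : ℤ) * log (sm p i)) :=
        Finset.sum_le_sum fun p _ => mul_le_mul_of_nonneg_left (hlocal p) (by positivity)
      _ = _ := by
        rw [hB, Finset.mul_sum, ← Finset.sum_add_distrib]
        exact Finset.sum_congr rfl fun p _ => by ring
  have hgap : ∀ i, W i + 1 ≤ ∑ j, P.dd j i := by
    intro i
    have h1 := hbig.2 i
    have h2 := hww i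
    have h3 : ∑ b, P.Q (P.gt (q b).2.1) i ≤ m * qm i := by
      have := Finset.sum_le_card_nsmul Finset.univ (fun b => P.Q (P.gt (q b).2.1) i) (qm i)
        fun b _ => hbig.1 _ i
      rwa [Finset.card_univ, Fintype.card_fin, smul_eq_mul] at this
    have h4 := Nat.mul_le_mul_left (qm i) hm
    have h5 : qm i * (m + (Finset.univ.filter fun j => P.e j = 0).card) =
      m * qm i + qm i * (Finset.univ.filter fun j => P.e j = 0).card := by ring
    rw [h5] at h4
    have h6 : W i = ∑ a, ww P i (R a) + ∑ b, P.Q (P.gt (q b).2.1) i := rfl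
    omega
  have hHsum : ∑ i, H i ≤ (K0 : ℤ) * B := by
    have h1 : ∑ i, ((W i : ℕ) : ℤ) * H i + ∑ i, H i ≤
        ∑ i, ((∑ j, P.dd j i : ℕ) : ℤ) * H i := by
      rw [← Finset.sum_add_distrib]
      refine Finset.sum_le_sum fun i _ => ?_
      have h2 : ((W i : ℕ) : ℤ) + 1 ≤ ((∑ j, P.dd j i : ℕ) : ℤ) := by
        exact_mod_cast hgap i
      nlinarith [hH0 i]
    linarith
  have hHi : ∀ i, H i ≤ (K0 : ℤ) * B := fun i =>
    (Finset.single_le_sum (f := H) (fun i _ => hH0 i) (Finset.mem_univ i)).trans hHsum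
  rw [hs3]
  have hcast : ((1 + K0 + K1 * K0 : ℕ) : ℤ) = 1 + (K0 : ℤ) + (K1 : ℤ) * (K0 : ℤ) := by
    push_cast
    ring
  rw [hcast]
  have hKB : 0 ≤ (K1 : ℤ) * (K0 : ℤ) * B := by positivity
  have hKB' : 0 ≤ (K0 : ℤ) * B := by positivity
  have hexp : (1 + (K0 : ℤ) + (K1 : ℤ) * (K0 : ℤ)) * B =
      B + (K0 : ℤ) * B + (K1 : ℤ) * (K0 : ℤ) * B := by ring
  rw [hexp]
  -- the coordinates
  cases ρ0 with
  | inl s =>
    have h1 := h1_le S hS (z (Sum.inl s)) T (fun p => log (sm p (P.gs s)))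
      (fun p hp => by rw [hT1 p hp, log_one]) (fun p => by
        rw [exp_log (hsm0 p _)]; exact hle p s) (fun p => log_nonneg_of (hsm1 p _))
    have h2 := hHi (P.gs s)
    have h3 : Met.h1 S (z (Sum.inl s)) ≤ (K0 : ℤ) * B := h1.trans h2
    linarith
  | inr j =>
    have h1 := h1_le S hS (z (Sum.inr j)) T
      (fun p => M p + ∑ i, ((P.dd j i : ℕ) : ℤ) * log (sm p i)) ?_ ?_ ?_
    · have h2 : ∑ p ∈ T, (S.w p : ℤ) * (M p + ∑ i, ((P.dd j i : ℕ) : ℤ) * log (sm p i)) =
          B + ∑ i, ((P.dd j i : ℕ) : ℤ) * H i := by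
        rw [hB, hH]
        simp only [mul_add, Finset.sum_add_distrib, Finset.mul_sum]
        congr 1
        rw [Finset.sum_comm]
        exact Finset.sum_congr rfl fun p _ => Finset.sum_congr rfl fun i _ => by ring
      rw [h2] at h1
      have h3 : ∑ i, ((P.dd j i : ℕ) : ℤ) * H i ≤ (K1 : ℤ) * ((K0 : ℤ) * B) := by
        calc _ ≤ ∑ i, ((P.dd j i : ℕ) : ℤ) * ((K0 : ℤ) * B) :=
              Finset.sum_le_sum fun i _ => mul_le_mul_of_nonneg_left (hHi i) (by positivity)
          _ = ((∑ i, P.dd j i : ℕ) : ℤ) * ((K0 : ℤ) * B) := by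
              rw [← Finset.sum_mul, Nat.cast_sum]
          _ ≤ _ := by
              refine mul_le_mul_of_nonneg_right ?_ hKB'
              have : ∑ i, P.dd j i ≤ K1 :=
                Finset.single_le_sum (f := fun j => ∑ i, P.dd j i)
                  (fun _ _ => Nat.zero_le _) (Finset.mem_univ j)
              exact_mod_cast this
      have h4 : (K1 : ℤ) * ((K0 : ℤ) * B) = (K1 : ℤ) * (K0 : ℤ) * B := by ring
      rw [h4] at h3
      linarith
    · intro p hp
      rw [hT3 p hp]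
      simp only [hT1 p hp, log_one, mul_zero, Finset.sum_const_zero, Nat.cast_zero, add_zero]
    · intro p
      have hnn : (0 : ℤ) ≤ M p + ∑ i, ((P.dd j i : ℕ) : ℤ) * log (sm p i) :=
        add_nonneg (by positivity) (Finset.sum_nonneg fun i _ =>
            mul_nonneg (by positivity) (log_nonneg_of (hsm1 p i)))
      by_cases he : P.e j = 0
      · rw [hz.y0 j he, map_zero]
        exact zero_le
      · have hBd : S.v p (eval (yv P z) (frm P D.a j)) ≤
            exp ((M p : ℤ) + ∑ i, ((P.dd j i : ℕ) : ℤ) * log (sm p i)) := by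
          rw [exp_add, exp_sum_log _ _ _ (hsm0 p)]
          exact (hLH p).frm_le j
        rw [hz.root j he, map_pow] at hBd
        rcases le_or_gt (S.v p (z (Sum.inr j))) 1 with h7 | h7
        · refine h7.trans ?_
          rw [← exp_zero]
          exact WithZero.exp_le_exp.2 hnn
        · exact (le_self_pow₀ h7.le he).trans hBd
    · intro p
      exact add_nonneg (by positivity) (Finset.sum_nonneg fun i _ =>
            mul_nonneg (by positivity) (log_nonneg_of (hsm1 p i)))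

end

end Pool.Agent.Met.Y
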