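import Pool.Agent.Lib.MP_c7af3c_ag.MET.Base
import Pool.Agent.Lib.MP_c7af3c_ag.GEN.Y.H26.LinY

/-!
# MP_c7af3c_ag, project MET, part Y: multigraded linear algebra with minors
(after MET.MG.Lin and GEN.Y.H26.LinY)
-/

set_option autoImplicit false
set_option linter.unusedSectionVars false
set_option linter.unusedVariables false

namespace Pool.Agent.Met.Y

open MvPolynomial WithZero Pool.Agent.Gen Pool.Agent.Met

/-- the weight of the group `i` of variables -/
def wt {σ : Type} {r : ℕ} (g : σ → Fin r) (i : Fin r) : σ → ℕ := fun s => if g s = i then 1 else 0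

/-- multihomogeneous of multidegree `D` -/
def MH {σ : Type} {r : ℕ} (g : σ → Fin r) {L : Type} [CommSemiring L] (F : MvPolynomial σ L)
    (D : Fin r → ℕ) : Prop :=
  ∀ i, F.IsWeightedHomogeneous (wt g i) (D i)

/-- multidegree of a monomial -/
noncomputable def mdeg {σ : Type} {r : ℕ} (g : σ → Fin r) (I : σ →₀ ℕ) (i : Fin r) : ℕ :=
  Finsupp.weight (wt g i) I

/-- the pivot monomials -/
noncomputable def Um (L : Type) [Field L] {τ : Type} {r : ℕ} (D : Fin r → ℕ) (t : Fin r → τ) :
    MvPolynomial τ L :=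
  ∏ i, X (t i) ^ D i

/-- abstract data for the linear algebra: rows `ρ`, auxiliary point `y` with coordinates `τ`
(groups `g`), `c` functionals `ell`, vectors `V j G`, and `r` vectors `pt` -/
structure LY (L : Type) [Field L] (ρ τ : Type) [Fintype ρ] [DecidableEq ρ] [Fintype τ]
    [DecidableEq τ] (r r' c : ℕ) where
  g : τ → Fin r'
  d : Fin c → Fin r' → ℕ
  y : τ → L
  ne : ∀ i, ∃ t, g t = i ∧ y t ≠ 0
  V : Fin c → MvPolynomial τ L →ₗ[L] (ρ → L)
  ell : Fin c → (ρ → L) →ₗ[L] L
  rel : ∀ (j' j : Fin c) (H : MvPolynomial τ L), MH g H (d j) →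
    ell j' (V j H) = if j' = j then - eval y H else 0
  pt : Fin r → ρ → L
  ptk : ∀ i j, ell j (pt i) = 0
  ptli : LinearIndependent L pt

/-- index of a `Z` column: form, two coordinates, monomial -/
abbrev QQ (τ : Type) (c : ℕ) : Type := Fin c × τ × τ × (τ →₀ ℕ)

/-- the admissible indices -/
def Ok {τ : Type} {r' c : ℕ} (g : τ → Fin r') (d : Fin c → Fin r' → ℕ) (q : QQ τ c) : Prop :=
  g q.2.1 = g q.2.2.1 ∧ ∀ i, mdeg g (q.2.2.2 + Finsupp.single q.2.1 1) i = d q.1 i

section

variable {L : Type} [Field L] {ρ τ : Type} [Fintype ρ] [DecidableEq ρ] [Fintype τ]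
  [DecidableEq τ] {r r' c : ℕ} (S : LY L ρ τ r r' c)

/-- the column `Z` -/
noncomputable def LY.Z (q : QQ τ c) : ρ → L :=
  S.y q.2.2.1 • S.V q.1 (X q.2.1 * monomial q.2.2.2 1) -
    S.y q.2.1 • S.V q.1 (X q.2.2.1 * monomial q.2.2.2 1)

/-- the columns -/
noncomputable def LY.col {z : ℕ} (q : Fin z → QQ τ c) (t : Fin r' → τ) :
    (Fin r ⊕ Fin z) ⊕ Fin c → (ρ → L) :=
  Sum.elim (Sum.elim S.pt (fun a => S.Z (q a))) (fun j => S.V j (Um L (S.d j) t))

theorem MH_monomial {g : τ → Fin r'} {D : Fin r' → ℕ} {I : τ →₀ ℕ} (h : ∀ i, mdeg g I i = D i)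
    (a : L) : MH g (monomial I a) D := fun i =>
  isWeightedHomogeneous_monomial _ _ _ (h i)

theorem mdeg_add (g : τ → Fin r') (I J : τ →₀ ℕ) (i : Fin r') :
    mdeg g (I + J) i = mdeg g I i + mdeg g J i := by
  unfold mdeg
  rw [map_add]

theorem mdeg_single (g : τ → Fin r') (s : τ) (k : ℕ) (i : Fin r') :
    mdeg g (Finsupp.single s k) i = if g s = i then k else 0 := by
  unfold mdeg
  rw [Finsupp.weight_single]
  simp only [wt, smul_eq_mul, mul_ite, mul_one, mul_zero]

theorem X_mul_mono (s : τ) (I : τ →₀ ℕ) :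
    (X s * monomial I (1 : L) : MvPolynomial τ L) = monomial (I + Finsupp.single s 1) 1 := by
  rw [X, monomial_mul, one_mul, add_comm]

theorem Ok.fst {q : QQ τ c} (h : Ok S.g S.d q) :
    MH S.g (X q.2.1 * monomial q.2.2.2 (1 : L)) (S.d q.1) := by
  rw [X_mul_mono]
  exact MH_monomial h.2 1

theorem Ok.snd {q : QQ τ c} (h : Ok S.g S.d q) :
    MH S.g (X q.2.2.1 * monomial q.2.2.2 (1 : L)) (S.d q.1) := by
  rw [X_mul_mono]
  refine MH_monomial (fun i => ?_) 1
  rw [← h.2 i, mdeg_add, mdeg_add, mdeg_single, mdeg_single, h.1]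

theorem ell_Z {q : QQ τ c} (hq : Ok S.g S.d q) (j' : Fin c) : S.ell j' (S.Z q) = 0 := by
  unfold LY.Z
  rw [map_sub, map_smul, map_smul, S.rel _ _ _ (Ok.fst S hq), S.rel _ _ _ (Ok.snd S hq)]
  by_cases h : j' = q.1
  · rw [if_pos h, if_pos h]
    simp only [map_mul, eval_X, smul_eq_mul]
    ring
  · rw [if_neg h, if_neg h, smul_zero, smul_zero, sub_zero]

/-- the span of the `pt` and the `Z` columns -/
noncomputable def KK : Submodule L (ρ → L) :=
  Submodule.span L (Set.range S.pt ∪ S.Z '' {q | Ok S.g S.d q})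

theorem pt_mem (i : Fin r) : S.pt i ∈ KK S := Submodule.subset_span (Or.inl ⟨i, rfl⟩)

theorem Z_mem {q : QQ τ c} (hq : Ok S.g S.d q) : S.Z q ∈ KK S :=
  Submodule.subset_span (Or.inr ⟨q, hq, rfl⟩)

theorem KK_le (j' : Fin c) : KK S ≤ LinearMap.ker (S.ell j') := by
  rw [KK, Submodule.span_le]
  rintro u (⟨i, rfl⟩ | ⟨q, hq, rfl⟩)
  · exact S.ptk i j'
  · exact ell_Z S hq j'

theorem prod_map_X (t : Multiset τ) :
    (t.map (X : τ → MvPolynomial τ L)).prod = monomial (Multiset.toFinsupp t) 1 := by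
  induction t using Multiset.induction_on with
  | empty => simp
  | cons a t iht =>
    rw [Multiset.map_cons, Multiset.prod_cons, iht, X, monomial_mul, one_mul]
    congr 1
    rw [← Multiset.singleton_add, map_add, Multiset.toFinsupp_singleton]

theorem Um_eq (D : Fin r' → ℕ) (t : Fin r' → τ) :
    Um L D t = monomial (∑ i, Finsupp.single (t i) (D i)) 1 := by
  unfold Um
  rw [monomial_sum_one]
  exact Finset.prod_congr rfl fun i _ => X_pow_eq_monomial

theorem mdeg_Um (g : τ → Fin r') (D : Fin r' → ℕ) (t : Fin r' → τ) (ht : ∀ i, g (t i) = i)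
    (i : Fin r') : mdeg g (∑ i, Finsupp.single (t i) (D i)) i = D i := by
  have h : mdeg g (∑ i, Finsupp.single (t i) (D i)) i =
      ∑ k, mdeg g (Finsupp.single (t k) (D k)) i := by
    unfold mdeg
    rw [map_sum]
  rw [h]
  simp only [mdeg_single, ht]
  rw [Finset.sum_ite_eq' Finset.univ i, if_pos (Finset.mem_univ _)]

theorem MH_Um (g : τ → Fin r') (D : Fin r' → ℕ) (t : Fin r' → τ) (ht : ∀ i, g (t i) = i) :
    MH g (Um L D t) D := by
  rw [Um_eq]
  exact MH_monomial (mdeg_Um g D t ht) 1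

theorem X_mul_Um (D : Fin r' → ℕ) (t : Fin r' → τ) (k : Fin r') :
    X (t k) * Um L D t = Um L (fun i => D i + if k = i then 1 else 0) t := by
  unfold Um
  simp only [pow_add, Finset.prod_mul_distrib]
  rw [mul_comm]
  congr 1
  rw [Finset.prod_eq_single k]
  · simp
  · intro b _ hb
    rw [if_neg (Ne.symm hb), pow_zero]
  · intro h; exact absurd (Finset.mem_univ _) h

theorem mdeg_cons (g : τ → Fin r') (a : τ) (s : Multiset τ) (i : Fin r') :
    mdeg g (Multiset.toFinsupp (a ::ₘ s)) i =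
      mdeg g (Multiset.toFinsupp s) i + if g a = i then 1 else 0 := by
  rw [← Multiset.singleton_add, map_add, Multiset.toFinsupp_singleton, mdeg_add, mdeg_single,
    add_comm]

theorem prod_map_group (g : τ → Fin r') (y : Fin r' → L) (s : Multiset τ) :
    (s.map fun a => y (g a)).prod = ∏ i, y i ^ mdeg g (Multiset.toFinsupp s) i := by
  induction s using Multiset.induction_on with
  | empty => simp [mdeg]
  | cons a s ih =>
    rw [Multiset.map_cons, Multiset.prod_cons, ih]
    simp only [mdeg_cons, pow_add, Finset.prod_mul_distrib]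
    rw [mul_comm]
    congr 1
    rw [Finset.prod_eq_single (g a)]
    · simp
    · intro b _ hb
      rw [if_neg (Ne.symm hb), pow_zero]
    · intro h; exact absurd (Finset.mem_univ _) h

theorem eval_Um (x : τ → L) (D : Fin r' → ℕ) (t : Fin r' → τ) :
    eval x (Um L D t) = ∏ i, x (t i) ^ D i := by
  unfold Um
  rw [map_prod]
  exact Finset.prod_congr rfl fun i _ => by rw [map_pow, eval_X]

/-- key recursion -/
theorem key_mono (j : Fin c) (t : Fin r' → τ) (ht : ∀ i, S.g (t i) = i) (s : Multiset τ) :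
    ∀ b : Fin r' → ℕ, (∀ i, mdeg S.g (Multiset.toFinsupp s) i + b i = S.d j i) →
    (s.map fun a => S.y (t (S.g a))).prod • S.V j ((s.map X).prod * Um L b t) -
      (s.map S.y).prod • S.V j (Um L (S.d j) t) ∈ KK S := by
  induction s using Multiset.induction_on with
  | empty =>
    intro b hb
    have hb' : b = S.d j := by
      funext i
      have := hb i
      simpa [mdeg] using this
    simp [hb']
  | cons a s ih =>
    intro b hb
    have hdeg : ∀ i, mdeg S.g (Multiset.toFinsupp s) i +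
        (b i + if S.g a = i then 1 else 0) = S.d j i := by
      intro i
      rw [← hb i, mdeg_cons]
      ring
    set I : τ →₀ ℕ := Multiset.toFinsupp s + ∑ i, Finsupp.single (t i) (b i) with hI
    have hmon : ((s.map (X : τ → MvPolynomial τ L)).prod * Um L b t) = monomial I 1 := by
      rw [prod_map_X, Um_eq, monomial_mul, one_mul]
    have hok : Ok S.g S.d (j, a, t (S.g a), I) := by
      refine ⟨(ht _).symm, fun i => ?_⟩
      change mdeg S.g (I + Finsupp.single a 1) i = S.d j i
      rw [mdeg_add, mdeg_single, hI, mdeg_add, mdeg_Um S.g b t ht, ← hdeg i, add_assoc]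
    have hZ : S.Z (j, a, t (S.g a), I) ∈ KK S := Z_mem S hok
    change S.y (t (S.g a)) • S.V j (X a * monomial I 1) -
      S.y a • S.V j (X (t (S.g a)) * monomial I 1) ∈ KK S at hZ
    rw [← hmon] at hZ
    have h3 := ih _ hdeg
    rw [← X_mul_Um b t (S.g a)] at h3
    have h4 : X (t (S.g a)) * ((s.map (X : τ → MvPolynomial τ L)).prod * Um L b t) =
        (s.map X).prod * (X (t (S.g a)) * Um L b t) := by ring
    rw [h4] at hZ
    have h5 := (KK S).add_mem ((KK S).smul_mem ((s.map fun a => S.y (t (S.g a))).prod) hZ)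
      ((KK S).smul_mem (S.y a) h3)
    rw [Multiset.map_cons, Multiset.prod_cons, Multiset.map_cons, Multiset.prod_cons,
      Multiset.map_cons, Multiset.prod_cons, mul_assoc (X a)]
    convert h5 using 1
    module

theorem key_hom (j : Fin c) (t : Fin r' → τ) (ht : ∀ i, S.g (t i) = i)
    {H : MvPolynomial τ L} (hH : MH S.g H (S.d j)) :
    (∏ i, S.y (t i) ^ S.d j i) • S.V j H - eval S.y H • S.V j (Um L (S.d j) t) ∈ KK S := by
  have hmono : ∀ I : τ →₀ ℕ, (∀ i, mdeg S.g I i = S.d j i) →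
      (∏ i, S.y (t i) ^ S.d j i) • S.V j (monomial I 1) -
        eval S.y (monomial I (1 : L)) • S.V j (Um L (S.d j) t) ∈ KK S := by
    intro I hI
    have h1 := key_mono S j t ht (Finsupp.toMultiset I) 0 (by
      intro i
      rw [Finsupp.toMultiset_toFinsupp, hI i]
      rfl)
    have h2 : (Um L 0 t : MvPolynomial τ L) = 1 := by simp [Um]
    rw [prod_map_X, Finsupp.toMultiset_toFinsupp, h2, mul_one,
      prod_map_group S.g (fun i => S.y (t i)), Finsupp.toMultiset_toFinsupp] at h1
    simp only [hI] at h1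
    have h3 : (Finsupp.toMultiset I).map S.y =
        ((Finsupp.toMultiset I).map (X : τ → MvPolynomial τ L)).map (eval S.y) := by
      rw [Multiset.map_map]
      refine Multiset.map_congr rfl fun a _ => ?_
      simp
    rw [h3, Multiset.prod_hom, prod_map_X, Finsupp.toMultiset_toFinsupp] at h1
    exact h1
  have hsum : (∏ i, S.y (t i) ^ S.d j i) • S.V j H - eval S.y H • S.V j (Um L (S.d j) t) =
      ∑ I ∈ H.support, coeff I H • ((∏ i, S.y (t i) ^ S.d j i) • S.V j (monomial I 1) -
        eval S.y (monomial I (1 : L)) • S.V j (Um L (S.d j) t)) := by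
    have e1 : S.V j H = ∑ I ∈ H.support, coeff I H • S.V j (monomial I 1) := by
      conv_lhs => rw [H.as_sum]
      rw [map_sum]
      refine Finset.sum_congr rfl fun I _ => ?_
      rw [← map_smul, smul_monomial, smul_eq_mul, mul_one]
    have e2 : eval S.y H = ∑ I ∈ H.support, coeff I H * eval S.y (monomial I (1 : L)) := by
      conv_lhs => rw [H.as_sum]
      rw [map_sum]
      refine Finset.sum_congr rfl fun I _ => ?_
      rw [eval_monomial, eval_monomial, one_mul]
    rw [e1, e2, Finset.smul_sum, Finset.sum_smul, ← Finset.sum_sub_distrib]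
    refine Finset.sum_congr rfl fun I _ => ?_
    module
  rw [hsum]
  refine (KK S).sum_mem fun I hI => (KK S).smul_mem _ (hmono I fun i => ?_)
  exact hH i (mem_support_iff.1 hI)

theorem Um_mem (j : Fin c) (t t' : Fin r' → τ) (ht : ∀ i, S.g (t i) = i)
    (ht' : ∀ i, S.g (t' i) = i) (hne : ∀ i, S.y (t' i) ≠ 0) :
    S.V j (Um L (S.d j) t) - ((∏ i, S.y (t i) ^ S.d j i) / ∏ i, S.y (t' i) ^ S.d j i) •
      S.V j (Um L (S.d j) t') ∈ KK S := by
  have h := key_hom S j t' ht' (MH_Um (L := L) S.g (S.d j) t ht)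
  have h2 : ∏ i, S.y (t' i) ^ S.d j i ≠ 0 :=
    Finset.prod_ne_zero_iff.2 fun i _ => pow_ne_zero _ (hne i)
  have h3 := (KK S).smul_mem (∏ i, S.y (t' i) ^ S.d j i)⁻¹ h
  rw [smul_sub, smul_smul, smul_smul, inv_mul_cancel₀ h2, one_smul, eval_Um] at h3
  rw [div_eq_inv_mul]
  exact h3

/-- pivots exist -/
theorem exists_piv : ∃ t : Fin r' → τ, (∀ i, S.g (t i) = i) ∧ ∀ i, S.y (t i) ≠ 0 := by
  choose t ht using S.ne
  exact ⟨t, fun i => (ht i).1, fun i => (ht i).2⟩

/-- The linear algebra step. -/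
theorem linY : ∃ (z : ℕ) (q : Fin z → QQ τ c) (R : (Fin r ⊕ Fin z) ⊕ Fin c → ρ) (μ : L),
    (∀ a, Ok S.g S.d (q a)) ∧ μ ≠ 0 ∧ ∀ t : Fin r' → τ, (∀ i, S.g (t i) = i) →
      Matrix.det (Matrix.of fun a k => S.col q t k (R a)) =
        μ * ∏ i, S.y (t i) ^ (∑ j, S.d j i) := by
  classical
  obtain ⟨t, ht, hty⟩ := exists_piv S
  let Q : Type := Fin r ⊕ {q : QQ τ c // Ok S.g S.d q}
  let vv : Q → (ρ → L) := Sum.elim S.pt (fun q => S.Z q.1)
  have hinj : Function.Injective (Sum.inl : Fin r → Q) := Sum.inl_injective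
  obtain ⟨b, hbt, hsb, hspan, hli⟩ := exists_linearIndepOn_extension (K := L) (v := vv)
    (s := Set.range (Sum.inl : Fin r → Q)) (t := Set.univ)
    (by
      rw [linearIndepOn_range_iff hinj]
      exact S.ptli) (Set.subset_univ _)
  have hli' : LinearIndependent L fun x : b => vv x.1 := hli
  have hrangevv : Set.range vv = Set.range S.pt ∪ S.Z '' {q | Ok S.g S.d q} := by
    ext u
    constructor
    · rintro ⟨o | q, rfl⟩
      · exact Or.inl ⟨o, rfl⟩
      · exact Or.inr ⟨q.1, q.2, rfl⟩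
    · rintro (⟨i, rfl⟩ | ⟨q, hq, rfl⟩)
      · exact ⟨Sum.inl i, rfl⟩
      · exact ⟨Sum.inr ⟨q, hq⟩, rfl⟩
  have hTb : Submodule.span L (Set.range fun x : b => vv x.1) = KK S := by
    have hr : (Set.range fun x : b => vv x.1) = vv '' b := by
      ext y; simp
    rw [hr]
    refine le_antisymm ?_ ?_
    · rw [KK, ← hrangevv]
      exact Submodule.span_mono (Set.image_subset_range _ _)
    · rw [KK, ← hrangevv, Submodule.span_le, ← Set.image_univ]
      exact hspan
  have hfb : Finite b := hli'.finite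
  let B : Set {q : QQ τ c // Ok S.g S.d q} := {q | (Sum.inr q : Q) ∈ b}
  have hBf : Finite B := Finite.of_injective (fun q : B => (⟨Sum.inr q.1, q.2⟩ : b)) (by
    intro q q' h
    exact Subtype.ext (Sum.inr_injective (congrArg Subtype.val h)))
  have : Fintype B := Fintype.ofFinite B
  let z : ℕ := Fintype.card B
  let e' : Fin z ≃ B := (Fintype.equivFin B).symm
  let q : Fin z → QQ τ c := fun a => (e' a).1.1
  have hq : ∀ a, Ok S.g S.d (q a) := fun a => (e' a).1.2
  let f : Fin r ⊕ Fin z → b := Sum.elim (fun i => ⟨Sum.inl i, hsb ⟨i, rfl⟩⟩)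
    (fun a => ⟨Sum.inr (e' a).1, (e' a).2⟩)
  have hfinj : Function.Injective f := by
    rintro (i | a) (i' | a') h
    · have h1 : (Sum.inl i : Q) = Sum.inl i' := congrArg Subtype.val h
      rw [hinj h1]
    · have h1 : (Sum.inl i : Q) = Sum.inr (e' a').1 := congrArg Subtype.val h
      cases h1
    · have h1 : (Sum.inr (e' a).1 : Q) = Sum.inl i' := congrArg Subtype.val h
      cases h1
    · have h1 : (Sum.inr (e' a).1 : Q) = Sum.inr (e' a').1 := congrArg Subtype.val h
      rw [e'.injective (Subtype.ext (Sum.inr_injective h1))]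
  have hfsurj : Function.Surjective f := by
    rintro ⟨i | q0, hx⟩
    · exact ⟨Sum.inl i, rfl⟩
    · refine ⟨Sum.inr (e'.symm ⟨q0, hx⟩), ?_⟩
      apply Subtype.ext
      change (Sum.inr (e' (e'.symm ⟨q0, hx⟩)).1 : Q) = Sum.inr q0
      rw [Equiv.apply_symm_apply]
  let g0 : Fin r ⊕ Fin z → (ρ → L) := Sum.elim S.pt (fun a => S.Z (q a))
  have hfv : (fun x : b => vv x.1) ∘ f = g0 := by
    funext k
    rcases k with i | a
    · rfl
    · rfl
  have hg0 : LinearIndependent L g0 := by
    rw [← hfv]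
    exact hli'.comp f hfinj
  have hg0span : Submodule.span L (Set.range g0) = KK S := by
    rw [← hTb, ← hfv, hfsurj.range_comp]
  have hgK : ∀ k, g0 k ∈ KK S := fun k => by rw [← hg0span]; exact Submodule.subset_span ⟨k, rfl⟩
  have hPne : ∀ j, ∏ i, S.y (t i) ^ S.d j i ≠ 0 := fun j =>
    Finset.prod_ne_zero_iff.2 fun i _ => pow_ne_zero _ (hty i)
  -- all columns are independent
  have hcolli : LinearIndependent L (S.col q t) := by
    rw [Fintype.linearIndependent_iff]
    intro g hg
    rw [Fintype.sum_sum_type] at hg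
    have e1 : ∀ b, S.col q t (Sum.inl b) = g0 b := fun b => rfl
    have e2 : ∀ j, S.col q t (Sum.inr j) = S.V j (Um L (S.d j) t) := fun j => rfl
    simp only [e1, e2] at hg
    have h2 : ∀ j, g (Sum.inr j) = 0 := by
      intro j
      have h0 := congrArg (S.ell j) hg
      rw [map_add, map_sum, map_sum, map_zero, Finset.sum_eq_zero (fun b _ => by
        rw [map_smul, (KK_le S j (hgK b) : S.ell j (g0 b) = 0), smul_zero]), zero_add,
        Finset.sum_eq_single j (fun m' _ hm => by
          rw [map_smul, S.rel _ _ _ (MH_Um S.g _ t ht), if_neg (Ne.symm hm), smul_zero])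
          (fun h => absurd (Finset.mem_univ _) h),
        map_smul, S.rel _ _ _ (MH_Um S.g _ t ht), if_pos rfl, eval_Um, smul_eq_mul, mul_neg,
        neg_eq_zero, mul_eq_zero] at h0
      exact h0.resolve_right (hPne j)
    simp only [h2, zero_smul, Finset.sum_const_zero, add_zero] at hg
    have h4 := Fintype.linearIndependent_iff.1 hg0 _ hg
    intro k
    cases k with
    | inl b => exact h4 b
    | inr m => exact h2 m
  obtain ⟨R, hR⟩ := Pool.Agent.Gen.Y.H26.exists_minor (S.col q t) hcolli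
  have hprod : ∀ t' : Fin r' → τ, ∏ i, S.y (t' i) ^ (∑ j, S.d j i) =
      ∏ j, ∏ i, S.y (t' i) ^ S.d j i := by
    intro t'
    rw [Finset.prod_comm]
    exact Finset.prod_congr rfl fun i _ => (Finset.prod_pow_eq_pow_sum _ _ _).symm
  have hPne' : ∏ i, S.y (t i) ^ (∑ j, S.d j i) ≠ 0 :=
    Finset.prod_ne_zero_iff.2 fun i _ => pow_ne_zero _ (hty i)
  refine ⟨z, q, R, Matrix.det (Matrix.of fun a k => S.col q t k (R a)) /
    ∏ i, S.y (t i) ^ (∑ j, S.d j i), hq, div_ne_zero hR hPne', fun t' ht' => ?_⟩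
  -- change of the `U` columns
  have h1 : ∀ j : Fin c, ∃ w : Fin r ⊕ Fin z → L, S.V j (Um L (S.d j) t') =
      ((∏ i, S.y (t' i) ^ S.d j i) / ∏ i, S.y (t i) ^ S.d j i) • S.V j (Um L (S.d j) t) +
        ∑ b, w b • g0 b := by
    intro j
    have hk := Um_mem S j t' t ht' ht hty
    rw [← hg0span] at hk
    obtain ⟨w, hw⟩ := (Submodule.mem_span_range_iff_exists_fun L).1 hk
    exact ⟨w, by rw [hw]; abel⟩
  choose w hw using h1
  have hmul : (Matrix.of fun a k => S.col q t' k (R a)) =
      (Matrix.of fun a k => S.col q t k (R a)) *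
        Matrix.fromBlocks 1 (Matrix.of fun b j => w j b) 0
          (Matrix.diagonal fun j => (∏ i, S.y (t' i) ^ S.d j i) / ∏ i, S.y (t i) ^ S.d j i) := by
    ext a k
    rw [Matrix.mul_apply, Fintype.sum_sum_type]
    cases k with
    | inl b =>
      simp only [Matrix.fromBlocks_apply₁₁, Matrix.fromBlocks_apply₂₁, Matrix.zero_apply, mul_zero,
        Finset.sum_const_zero, add_zero, Matrix.one_apply, mul_ite, mul_one]
      rw [Finset.sum_ite_eq' Finset.univ b]
      simp only [Finset.mem_univ, if_true, Matrix.of_apply]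
      rfl
    | inr j =>
      simp only [Matrix.fromBlocks_apply₁₂, Matrix.fromBlocks_apply₂₂, Matrix.of_apply,
        Matrix.diagonal_apply, mul_ite, mul_zero]
      rw [Finset.sum_ite_eq' Finset.univ j]
      simp only [Finset.mem_univ, if_true]
      have h2 := congrFun (hw j) (R a)
      change S.V j (Um L (S.d j) t') (R a) = _
      rw [h2]
      simp only [Pi.add_apply, Pi.smul_apply, smul_eq_mul, Finset.sum_apply]
      rw [add_comm, mul_comm ((∏ i, S.y (t' i) ^ S.d j i) / ∏ i, S.y (t i) ^ S.d j i)]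
      congr 1
      refine Finset.sum_congr rfl fun b _ => ?_
      rw [mul_comm]
      rfl
  rw [hmul, Matrix.det_mul, Matrix.det_fromBlocks_zero₂₁, Matrix.det_one, one_mul,
    Matrix.det_diagonal, Finset.prod_div_distrib, hprod t', hprod t]
  ring

end

end Pool.Agent.Met.Y
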