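import Pool.Agent.Lib.MP_c7af3c_ag.MET.Y.Sys

/-! One valuation. -/

set_option autoImplicit false
set_option linter.unusedSectionVars false
set_option linter.unusedVariables false

namespace Pool.Agent.Met.Y

open MvPolynomial WithZero Pool.Agent.Gen Pool.Agent.Met

/-! ### logarithmic derivatives -/

section
variable {L : Type} [Field L] (δ : Derivation ℤ L L)

theorem ld_mul {u v : L} (hu : u ≠ 0) (hv : v ≠ 0) :
    δ (u * v) / (u * v) = δ u / u + δ v / v := by
  rw [Derivation.leibniz, smul_eq_mul, smul_eq_mul]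
  field_simp
  ring

theorem ld_pow {u : L} (hu : u ≠ 0) (n : ℕ) : δ (u ^ n) / u ^ n = n * (δ u / u) := by
  induction n with
  | zero => simp
  | succ n ih =>
    rw [pow_succ, ld_mul δ (pow_ne_zero n hu) hu, ih]
    push_cast
    ring

theorem ld_prod {ι : Type} (s : Finset ι) (u : ι → L) (hu : ∀ i ∈ s, u i ≠ 0) :
    δ (∏ i ∈ s, u i) / ∏ i ∈ s, u i = ∑ i ∈ s, δ (u i) / u i := by
  classical
  induction s using Finset.induction_on with
  | empty => simp
  | insert a s ha ih =>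
    rw [Finset.prod_insert ha, Finset.sum_insert ha, ld_mul δ (hu a (Finset.mem_insert_self a s))
      (Finset.prod_ne_zero_iff.2 fun i hi => hu i (Finset.mem_insert_of_mem hi)),
      ih fun i hi => hu i (Finset.mem_insert_of_mem hi)]

end

/-! ### scaling -/

theorem prod_scale {L : Type} [Field L] {σ : Type} [Fintype σ] [DecidableEq σ] {r : ℕ}
    (g : σ → Fin r) (D : Fin r → ℕ) (I : σ →₀ ℕ) (hI : ∀ i, mdeg g I i = D i) (l : Fin r → L)
    (x : σ → L) : ∏ s, (l (g s) * x s) ^ I s = (∏ i, l i ^ D i) * ∏ s, x s ^ I s := by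
  simp only [mul_pow, Finset.prod_mul_distrib]
  congr 1
  rw [← Finset.prod_fiberwise Finset.univ g (fun s => l (g s) ^ I s)]
  refine Finset.prod_congr rfl fun i _ => ?_
  have h2 : ∏ s with g s = i, l (g s) ^ I s = ∏ s with g s = i, l i ^ I s :=
    Finset.prod_congr rfl fun s hs => by rw [(Finset.mem_filter.1 hs).2]
  rw [h2, Finset.prod_pow_eq_pow_sum]
  congr 1
  rw [← hI i, mdeg_eq, Finset.sum_filter]

theorem eval_scale {L : Type} [Field L] {σ : Type} [Fintype σ] [DecidableEq σ] {r : ℕ}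
    (g : σ → Fin r) (D : Fin r → ℕ) (F : MvPolynomial σ L) (hF : MH g F D) (l : Fin r → L)
    (x : σ → L) : eval (fun s => l (g s) * x s) F = (∏ i, l i ^ D i) * eval x F := by
  rw [eval_eq', eval_eq', Finset.mul_sum]
  refine Finset.sum_congr rfl fun I hI => ?_
  rw [prod_scale g D I (fun i => hF i (mem_support_iff.1 hI)) l x]
  ring

theorem aeval_scale {k0 L : Type} [Field k0] [Field L] [Algebra k0 L] {σ : Type} [Fintype σ]
    [DecidableEq σ] {r : ℕ}
    (g : σ → Fin r) (D : Fin r → ℕ) (F : MvPolynomial σ k0) (hF : MH g F D) (l : Fin r → L)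
    (x : σ → L) : aeval (fun s => l (g s) * x s) F = (∏ i, l i ^ D i) * aeval x F := by
  rw [aeval_def, eval₂_eq', aeval_def, eval₂_eq', Finset.mul_sum]
  refine Finset.sum_congr rfl fun I hI => ?_
  rw [prod_scale g D I (fun i => hF i (mem_support_iff.1 hI)) l x]
  ring

section
variable {k0 : Type} [Field k0] {σ τ : Type} [Fintype σ] [DecidableEq σ] [Fintype τ]
  [DecidableEq τ] {r r' c : ℕ} (P : Shape k0 σ τ r r' c) {L : Type} [Field L] [Algebra k0 L]

/-- scaling factor -/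
noncomputable def Lam (l : Fin r → L) (ρ : σ ⊕ Fin c) : L := ∏ i, l i ^ ww P i ρ

/-- scaling factor of the target group `t'` -/
noncomputable def lq (l : Fin r → L) (t' : Fin r') : L := ∏ i, l i ^ P.Q t' i

theorem Lam_inl (l : Fin r → L) (s : σ) : Lam P l (Sum.inl s) = l (P.gs s) := by
  unfold Lam
  rw [Finset.prod_eq_single (P.gs s)]
  · simp [ww]
  · intro i _ hi
    simp only [ww]
    rw [if_neg (Ne.symm hi), pow_zero]
  · intro h; exact absurd (Finset.mem_univ _) h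

theorem Lam_ne {l : Fin r → L} (hl : ∀ i, l i ≠ 0) (ρ : σ ⊕ Fin c) : Lam P l ρ ≠ 0 :=
  Finset.prod_ne_zero_iff.2 fun i _ => pow_ne_zero _ (hl i)

/-- normalised coordinates -/
noncomputable def nz (l : Fin r → L) (z : σ ⊕ Fin c → L) (ρ : σ ⊕ Fin c) : L :=
  z ρ / Lam P l ρ

theorem z_eq {l : Fin r → L} (hl : ∀ i, l i ≠ 0) (z : σ ⊕ Fin c → L) (ρ : σ ⊕ Fin c) :
    z ρ = Lam P l ρ * nz P l z ρ := by
  unfold nz
  rw [mul_div_cancel₀ _ (Lam_ne P hl ρ)]

theorem yv_eq {l : Fin r → L} (hl : ∀ i, l i ≠ 0) (z : σ ⊕ Fin c → L) (t : τ) :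
    yv P z t = lq P l (P.gt t) * yv P (nz P l z) t := by
  unfold yv lq
  rw [← aeval_scale P.gs (P.Q (P.gt t)) (P.φ t) (P.φh t) l]
  congr 2
  funext s
  rw [z_eq P hl z (Sum.inl s), Lam_inl]

theorem der_z {l : Fin r → L} (hl : ∀ i, l i ≠ 0) (z : σ ⊕ Fin c → L) (ρ : σ ⊕ Fin c)
    (δ : Derivation ℤ L L) :
    δ (z ρ) = Lam P l ρ * (δ (nz P l z ρ) +
      (∑ i, (δ (l i) / l i) * (ww P i ρ : L)) * nz P l z ρ) := by
  have h3 : δ (Lam P l ρ) = Lam P l ρ * ∑ i, (δ (l i) / l i) * (ww P i ρ : L) := by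
    have h4 := ld_prod δ Finset.univ (fun i => l i ^ ww P i ρ) fun i _ => pow_ne_zero _ (hl i)
    have h5 : ∀ i, δ (l i ^ ww P i ρ) / l i ^ ww P i ρ = (δ (l i) / l i) * (ww P i ρ : L) := by
      intro i
      rw [ld_pow δ (hl i)]
      ring
    simp only [h5] at h4
    rw [← h4]
    change _ = Lam P l ρ * (δ (Lam P l ρ) / Lam P l ρ)
    rw [mul_div_cancel₀ _ (Lam_ne P hl ρ)]
  conv_lhs => rw [z_eq P hl z ρ]
  rw [Derivation.leibniz, smul_eq_mul, smul_eq_mul, h3]
  ring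

theorem root_nz {I0 : Set (MvPolynomial σ k0)} {j0 : Fin r → σ} {a : P.Idx → L}
    {z : σ ⊕ Fin c → L} (hz : IsSol P I0 j0 a z)
    {l : Fin r → L} (hl : ∀ i, l i ≠ 0) (j : Fin c) (he : P.e j ≠ 0) :
    eval (yv P (nz P l z)) (frm P a j) = nz P l z (Sum.inr j) ^ P.e j := by
  have h1 : yv P z = fun t => lq P l (P.gt t) * yv P (nz P l z) t := by
    funext t
    exact yv_eq P hl z t
  have h5 : eval (fun t => lq P l (P.gt t) * yv P (nz P l z) t) (frm P a j) =
      (∏ t', lq P l t' ^ P.d j t') * eval (yv P (nz P l z)) (frm P a j) :=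
    eval_scale P.gt (P.d j) _ (MH_frm P a j) (lq P l) _
  have h2 := hz.root j he
  rw [h1, h5] at h2
  have h3 : (Lam P l (Sum.inr j) : L) ^ P.e j = ∏ t', lq P l t' ^ P.d j t' := by
    unfold Lam lq
    simp only [← Finset.prod_pow]
    rw [Finset.prod_comm]
    refine Finset.prod_congr rfl fun i _ => ?_
    simp only [← pow_mul]
    rw [Finset.prod_pow_eq_pow_sum]
    congr 1
    change P.m j i * P.e j = _
    rw [mul_comm, P.em j he i]
    exact Finset.sum_congr rfl fun t _ => mul_comm _ _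
  rw [z_eq P hl z (Sum.inr j), mul_pow, h3] at h2
  have h4 : ∏ t', lq P l t' ^ P.d j t' ≠ 0 :=
    Finset.prod_ne_zero_iff.2 fun t' _ => pow_ne_zero _
      (Finset.prod_ne_zero_iff.2 fun i _ => pow_ne_zero _ (hl i))
  exact mul_left_cancel₀ h4 h2

end

theorem v_natCast_le {L : Type} [Field L] (v : Valuation L ℤᵐ⁰) (k : ℕ) : v (k : L) ≤ 1 := by
  induction k with
  | zero => simp
  | succ k ih =>
    push_cast
    exact (v.map_add _ _).trans (max_le ih (by rw [map_one]))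

/-! ### bounds -/

section
variable {k0 : Type} [Field k0] {σ τ : Type} [Fintype σ] [DecidableEq σ] [Fintype τ]
  [DecidableEq τ] {r r' c : ℕ} (P : Shape k0 σ τ r r' c) {L : Type} [Field L] [Algebra k0 L]
  (D : DD P.Idx L) (v : Valuation L ℤᵐ⁰) (M : ℤᵐ⁰)

/-- local hypotheses -/
structure LH (D : DD P.Idx L) (v : Valuation L ℤᵐ⁰) (M : ℤᵐ⁰) (z : σ ⊕ Fin c → L)
    (l : Fin r → L) : Prop where
  M1 : 1 ≤ M
  k : ∀ a : k0, v (algebraMap k0 L a) ≤ 1
  del : ∀ s f, v f ≤ 1 → v (D.del s f) ≤ M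
  a : ∀ s, v (D.a s) ≤ M
  l0 : ∀ i, l i ≠ 0
  le : ∀ s, v (z (Sum.inl s)) ≤ v (l (P.gs s))

variable {P D v M} {z : σ ⊕ Fin c → L} {l : Fin r → L}

theorem LH.dl (h : LH P D v M z l) (j : Fin c) (I : τ →₀ ℕ) (f : L) (hf : v f ≤ 1) :
    v (dl P D j I f) ≤ M := by
  unfold Y.dl
  split_ifs with hI
  · exact h.del _ f hf
  · have : (0 : Derivation ℤ L L) f = 0 := rfl
    rw [this, map_zero]
    exact zero_le

theorem dl_a (j : Fin c) (I : τ →₀ ℕ) (s : P.Idx) : v (dl P D j I (D.a s)) ≤ 1 := by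
  unfold Y.dl
  split_ifs with hI
  · by_cases h : (⟨(j, I), hI⟩ : P.Idx) = s
    · rw [h, D.one, map_one]
    · rw [D.zero _ _ h, map_zero]
      exact zero_le
  · have : (0 : Derivation ℤ L L) (D.a s) = 0 := rfl
    rw [this, map_zero]
    exact zero_le

theorem LH.cf (h : LH P D v M z l) (j : Fin c) (I : τ →₀ ℕ) : v (cf P D.a j I) ≤ M := by
  by_cases hI : ∀ i, mdeg P.gt I i = P.d j i
  · rw [cf_pos P D.a hI]; exact h.a _
  · rw [cf_neg P D.a hI, map_zero]; exact zero_le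

theorem LH.nz_inl (h : LH P D v M z l) (s : σ) : v (nz P l z (Sum.inl s)) ≤ 1 := by
  unfold nz
  rw [Lam_inl, map_div₀]
  exact div_le_one_of_le₀ (h.le s) zero_le

theorem prod_le_one' {σ : Type} [Fintype σ] (x : σ → L) (hx : ∀ s, v (x s) ≤ 1) (I : σ →₀ ℕ) :
    v (∏ s, x s ^ I s) ≤ 1 := by
  rw [map_prod]
  refine Finset.prod_le_one' fun s _ => ?_
  rw [map_pow]
  exact pow_le_one₀ zero_le (hx s)

theorem aeval_le (hk : ∀ a : k0, v (algebraMap k0 L a) ≤ 1) (x : σ → L)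
    (hx : ∀ s, v (x s) ≤ 1) (F : MvPolynomial σ k0) : v (aeval x F) ≤ 1 := by
  rw [aeval_def, eval₂_eq']
  refine v.map_sum_le fun I _ => ?_
  rw [map_mul]
  exact mul_le_one' (hk _) (prod_le_one' x hx I)

theorem LH.yv_le (h : LH P D v M z l) (t : τ) : v (yv P (nz P l z) t) ≤ 1 :=
  aeval_le h.k _ h.nz_inl _

/-- either the normalised root is integral or it is bounded by a coefficient -/
theorem LH.root_cases (h : LH P D v M z l) {I0 : Set (MvPolynomial σ k0)} {j0 : Fin r → σ}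
    (hz : IsSol P I0 j0 D.a z) (j : Fin c)
    (he : P.e j ≠ 0) : v (nz P l z (Sum.inr j)) ≤ 1 ∨
      ∃ s : P.Idx, v (nz P l z (Sum.inr j)) ≤ v (D.a s) := by
  by_cases h1 : v (nz P l z (Sum.inr j)) ≤ 1
  · exact Or.inl h1
  right
  by_contra hc
  push Not at hc h1
  have h2 := root_nz P hz h.l0 j he
  have h3 : v (eval (yv P (nz P l z)) (frm P D.a j)) < v (nz P l z (Sum.inr j)) := by
    rw [eval_eq']
    refine v.map_sum_lt (fun h0 => ?_) fun I hI => ?_
    · rw [h0] at h1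
      exact absurd h1 (by simp)
    · rw [map_mul, coeff_frm]
      have h4 : ∀ i, mdeg P.gt I i = P.d j i := fun i => MH_frm P D.a j i (mem_support_iff.1 hI)
      rw [cf_pos P D.a h4]
      exact (mul_le_of_le_one_right' (prod_le_one' _ h.yv_le I)).trans_lt (hc _)
  rw [h2, map_pow] at h3
  have h5 : v (nz P l z (Sum.inr j)) ≤ v (nz P l z (Sum.inr j)) ^ P.e j :=
    le_self_pow₀ h1.le he
  exact absurd h3 (not_lt.2 h5)

theorem LH.M2 (h : LH P D v M z l) : M ≤ M ^ 2 := le_self_pow₀ h.M1 (by norm_num)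

theorem LH.M3 (h : LH P D v M z l) : M ^ 2 ≤ M ^ 3 := pow_le_pow_right₀ h.M1 (by norm_num)

theorem LH.key (h : LH P D v M z l) {I0 : Set (MvPolynomial σ k0)} {j0 : Fin r → σ}
    (hz : IsSol P I0 j0 D.a z) (ρ : σ ⊕ Fin c) :
    v (nz P l z ρ) ≤ 1 ∨ ∃ s : P.Idx, v (nz P l z ρ) ≤ v (D.a s) := by
  cases ρ with
  | inl s => exact Or.inl (h.nz_inl s)
  | inr j =>
    by_cases he : P.e j = 0
    · left
      unfold nz
      rw [hz.y0 j he, zero_div, map_zero]
      exact zero_le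
    · exact h.root_cases hz j he

theorem LH.nz_le (h : LH P D v M z l) {I0 : Set (MvPolynomial σ k0)} {j0 : Fin r → σ}
    (hz : IsSol P I0 j0 D.a z) (ρ : σ ⊕ Fin c) : v (nz P l z ρ) ≤ M := by
  rcases h.key hz ρ with h1 | ⟨s, h1⟩
  · exact h1.trans h.M1
  · exact h1.trans (h.a s)

theorem LH.dnz_le (h : LH P D v M z l) {I0 : Set (MvPolynomial σ k0)} {j0 : Fin r → σ}
    (hz : IsSol P I0 j0 D.a z) (ρ : σ ⊕ Fin c) (j : Fin c) (I : τ →₀ ℕ) :
    v (Y.dl P D j I (nz P l z ρ)) ≤ M ^ 2 := by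
  rcases h.key hz ρ with h1 | ⟨s, h1⟩
  · exact (h.dl j I _ h1).trans h.M2
  · set u := nz P l z ρ with hu
    have ha : D.a s ≠ 0 := by
      intro h0
      have := D.one s
      rw [h0, map_zero] at this
      exact zero_ne_one this
    have h2 : u = D.a s * (u / D.a s) := by
      rw [mul_div_cancel₀ _ ha]
    have h3 : v (u / D.a s) ≤ 1 := by
      rw [map_div₀]
      exact div_le_one_of_le₀ h1 zero_le
    have h4 : Y.dl P D j I u = D.a s * Y.dl P D j I (u / D.a s) +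
        (u / D.a s) * Y.dl P D j I (D.a s) := by
      conv_lhs => rw [h2]
      rw [Derivation.leibniz, smul_eq_mul, smul_eq_mul]
    rw [h4]
    refine (v.map_add _ _).trans (max_le ?_ ?_)
    · rw [map_mul, sq]
      exact mul_le_mul' (h.a s) (h.dl j I _ h3)
    · rw [map_mul]
      calc _ ≤ (1 : ℤᵐ⁰) * 1 := mul_le_mul' h3 (dl_a j I s)
        _ = 1 := one_mul 1
        _ ≤ M ^ 2 := h.M1.trans h.M2

end

/-! ### the columns -/

section
variable {k0 : Type} [Field k0] {σ τ : Type} [Fintype σ] [DecidableEq σ] [Fintype τ]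
  [DecidableEq τ] {r r' c : ℕ} {P : Shape k0 σ τ r r' c} {L : Type} [Field L] [Algebra k0 L]
  {D : DD P.Idx L} {v : Valuation L ℤᵐ⁰} {M : ℤᵐ⁰} {z : σ ⊕ Fin c → L} {l : Fin r → L}

/-- a column decomposes into a bounded part and a combination of the Euler vectors -/
def Dec (P : Shape k0 σ τ r r' c) (v : Valuation L ℤᵐ⁰) (M : ℤᵐ⁰) (z : σ ⊕ Fin c → L)
    (l : Fin r → L) (s : L) (C : σ ⊕ Fin c → L) : Prop :=
  ∃ (C' : σ ⊕ Fin c → L) (u : Fin r → L), (∀ ρ, v (C' ρ) ≤ M ^ 3) ∧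
    ∀ ρ, C ρ = Lam P l ρ * (s * C' ρ + (∑ i, u i * (ww P i ρ : L)) * nz P l z ρ)

theorem Z_dec (h : LH P D v M z l) {I0 : Set (MvPolynomial σ k0)} {j0 : Fin r → σ}
    (hj0 : ∀ i, P.gs (j0 i) = i) (hD : ∀ s (a : k0), D.del s (algebraMap k0 L a) = 0)
    (hz : IsSol P I0 j0 D.a z) (hne : ∀ i, ∃ t, P.gt t = i ∧ yv P z t ≠ 0)
    (q : QQ τ c) (hq : Ok P.gt P.d q) :
    Dec P v M z l (lq P l (P.gt q.2.1)) ((LYof P hj0 D hD z hz hne).Z q) := by
  obtain ⟨j, s, t, I⟩ := q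
  obtain ⟨hst, hok⟩ := hq
  refine ⟨fun ρ => yv P (nz P l z) t * dl P D j (I + Finsupp.single s 1) (nz P l z ρ) -
      yv P (nz P l z) s * dl P D j (I + Finsupp.single t 1) (nz P l z ρ),
      fun i => yv P z t * (dl P D j (I + Finsupp.single s 1) (l i) / l i) -
        yv P z s * (dl P D j (I + Finsupp.single t 1) (l i) / l i), fun ρ => ?_, fun ρ => ?_⟩
  · refine ((v.map_sub _ _).trans (max_le ?_ ?_)).trans h.M3
    · rw [map_mul]
      calc _ ≤ 1 * M ^ 2 := mul_le_mul' (h.yv_le _) (h.dnz_le hz _ _ _)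
        _ = M ^ 2 := one_mul _
    · rw [map_mul]
      calc _ ≤ 1 * M ^ 2 := mul_le_mul' (h.yv_le _) (h.dnz_le hz _ _ _)
        _ = M ^ 2 := one_mul _
  · change (yv P z t • VV P D (fun δ ρ => δ (z ρ)) j (X s * monomial I 1) -
        yv P z s • VV P D (fun δ ρ => δ (z ρ)) j (X t * monomial I 1)) ρ = _
    rw [X_mul_mono, X_mul_mono, Pi.sub_apply, Pi.smul_apply, Pi.smul_apply, smul_eq_mul,
      smul_eq_mul, VV_monomial, VV_monomial, one_mul, one_mul, der_z P h.l0 z ρ,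
      der_z P h.l0 z ρ]
    have h2 : (∑ i, (yv P z t * (dl P D j (I + Finsupp.single s 1) (l i) / l i) -
        yv P z s * (dl P D j (I + Finsupp.single t 1) (l i) / l i)) * (ww P i ρ : L)) =
        yv P z t * ∑ i, (dl P D j (I + Finsupp.single s 1) (l i) / l i) * (ww P i ρ : L) -
        yv P z s * ∑ i, (dl P D j (I + Finsupp.single t 1) (l i) / l i) * (ww P i ρ : L) := by
      rw [Finset.mul_sum, Finset.mul_sum, ← Finset.sum_sub_distrib]
      exact Finset.sum_congr rfl fun i _ => by ring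
    have hst' : P.gt s = P.gt t := hst
    change _ = Lam P l ρ * (lq P l (P.gt s) * _ + _)
    rw [h2, yv_eq P h.l0 z s, yv_eq P h.l0 z t, ← hst']
    ring

theorem U_dec (h : LH P D v M z l) {I0 : Set (MvPolynomial σ k0)} {j0 : Fin r → σ}
    (hz : IsSol P I0 j0 D.a z) (j : Fin c) (t : Fin r' → τ) :
    Dec P v M z l 1 (VV P D (fun δ ρ => δ (z ρ)) j (Um L (P.d j) t)) := by
  rw [Um_eq]
  set I := ∑ i, Finsupp.single (t i) (P.d j i) with hI
  refine ⟨fun ρ => dl P D j I (nz P l z ρ), fun i => dl P D j I (l i) / l i,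
    fun ρ => (h.dnz_le hz _ _ _).trans h.M3, fun ρ => ?_⟩
  rw [VV_monomial, one_mul, der_z P h.l0 z ρ, one_mul]

end

/-! ### the determinant -/

/-- adding multiples of some columns to the others -/
theorem det_add_cols {R : Type} [Fintype R] [DecidableEq R] {L : Type} [Field L] {r : ℕ}
    (B C : Matrix R R L) (piv : Fin r → R) (u : R → Fin r → L)
    (hB : ∀ ρ k, B ρ k = C ρ k + ∑ i, u k i * C ρ (piv i)) (hu : ∀ i, u (piv i) = 0) :
    B.det = C.det := by
  classical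
  set A1 : Matrix R (Fin r) L := Matrix.of fun k' i => if k' = piv i then 1 else 0 with hA1
  set A2 : Matrix (Fin r) R L := Matrix.of fun i k => u k i with hA2
  have h1 : B = C * (1 + A1 * A2) := by
    rw [mul_add, mul_one]
    ext ρ k
    rw [hB, Matrix.add_apply]
    congr 1
    rw [← Matrix.mul_assoc, Matrix.mul_apply]
    refine Finset.sum_congr rfl fun i _ => ?_
    rw [Matrix.mul_apply, mul_comm]
    congr 1
    simp only [hA1, Matrix.of_apply, mul_ite, mul_one, mul_zero]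
    rw [Finset.sum_ite_eq' Finset.univ (piv i), if_pos (Finset.mem_univ _)]
  have h2 : A2 * A1 = 0 := by
    ext i i'
    rw [Matrix.mul_apply, Matrix.zero_apply]
    simp only [hA1, hA2, Matrix.of_apply, mul_ite, mul_one, mul_zero]
    rw [Finset.sum_ite_eq' Finset.univ (piv i'), if_pos (Finset.mem_univ _), hu i']
    rfl
  rw [h1, Matrix.det_mul, Matrix.det_one_add_mul_comm, h2, add_zero, Matrix.det_one, mul_one]

theorem v_det_le {R : Type} [Fintype R] [DecidableEq R] {L : Type} [Field L]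
    (v : Valuation L ℤᵐ⁰) (A : Matrix R R L) (N : ℤᵐ⁰)
    (hA : ∀ a b, v (A a b) ≤ N) : v A.det ≤ N ^ Fintype.card R := by
  rw [Matrix.det_apply]
  refine v.map_sum_le fun σ _ => ?_
  rw [Units.smul_def, zsmul_eq_mul, map_mul, map_prod]
  have hsgn : v ((Equiv.Perm.sign σ : ℤ) : L) ≤ 1 := by
    rcases Int.units_eq_one_or (Equiv.Perm.sign σ) with h | h
    · rw [h]; simp
    · rw [h]; simp
  calc _ ≤ (1 : ℤᵐ⁰) * ∏ _a : R, N :=
        mul_le_mul' hsgn (Finset.prod_le_prod' fun a _ => hA _ _)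
    _ = N ^ Fintype.card R := by
      rw [one_mul, Finset.prod_const, Finset.card_univ]

section
variable {k0 : Type} [Field k0] {σ τ : Type} [Fintype σ] [DecidableEq σ] [Fintype τ]
  [DecidableEq τ] {r r' c : ℕ} {P : Shape k0 σ τ r r' c} {L : Type} [Field L] [Algebra k0 L]
  {D : DD P.Idx L} {v : Valuation L ℤᵐ⁰} {M : ℤᵐ⁰} {z : σ ⊕ Fin c → L} {l : Fin r → L}

theorem loc (h : LH P D v M z l) {I0 : Set (MvPolynomial σ k0)} {j0 : Fin r → σ}
    (hj0 : ∀ i, P.gs (j0 i) = i) (hD : ∀ s (a : k0), D.del s (algebraMap k0 L a) = 0)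
    (hz : IsSol P I0 j0 D.a z) (hne : ∀ i, ∃ t, P.gt t = i ∧ yv P z t ≠ 0)
    {n : ℕ} (q : Fin n → QQ τ c) (hok : ∀ a, Ok P.gt P.d (q a))
    (R : (Fin r ⊕ Fin n) ⊕ Fin c → σ ⊕ Fin c) (t : Fin r' → τ) :
    v (Matrix.det (Matrix.of fun a k => (LYof P hj0 D hD z hz hne).col q t k (R a))) ≤
      (M ^ 3) ^ (r + n + c) *
        ∏ i, v (l i) ^ (∑ a, ww P i (R a) + ∑ b, P.Q (P.gt (q b).2.1) i) := by
  classical
  set S := LYof P hj0 D hD z hz hne with hS
  set A : Matrix ((Fin r ⊕ Fin n) ⊕ Fin c) ((Fin r ⊕ Fin n) ⊕ Fin c) L :=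
    Matrix.of fun a k => S.col q t k (R a) with hA
  -- weights of the columns
  set sg : (Fin r ⊕ Fin n) ⊕ Fin c → L :=
    Sum.elim (Sum.elim (fun _ => 1) (fun b => lq P l (P.gt (q b).2.1))) (fun _ => (1 : L)) with hsg
  have hdec : ∀ k : (Fin r ⊕ Fin n) ⊕ Fin c, ∃ (C' : σ ⊕ Fin c → L) (u : Fin r → L),
      (∀ ρ, v (C' ρ) ≤ M ^ 3) ∧
      (∀ i, k = Sum.inl (Sum.inl i) → (u = 0 ∧ ∀ ρ, C' ρ = (ww P i ρ : L) * nz P l z ρ)) ∧
      ∀ ρ, S.col q t k ρ = Lam P l ρ * (sg k * C' ρ +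
        (∑ i, u i * (ww P i ρ : L)) * nz P l z ρ) := by
    rintro ((i | b) | j)
    · refine ⟨fun ρ => (ww P i ρ : L) * nz P l z ρ, 0, fun ρ => ?_, fun i' hi' => ?_,
          fun ρ => ?_⟩
      · rw [map_mul]
        calc _ ≤ 1 * M := mul_le_mul' (v_natCast_le v _) (h.nz_le hz _)
          _ = M := one_mul _
          _ ≤ M ^ 3 := h.M2.trans h.M3
      · have h2 : i = i' := Sum.inl_injective (Sum.inl_injective hi')
        subst h2
        exact ⟨rfl, fun ρ => rfl⟩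
      · change (ww P i ρ : L) * z ρ = Lam P l ρ * (1 * _ + _)
        have h3 := z_eq P h.l0 z ρ
        simp only [Pi.zero_apply, zero_mul, Finset.sum_const_zero, add_zero, one_mul]
        conv_lhs => rw [h3]
        ring
    · obtain ⟨C', u, h1, h2⟩ := Z_dec h hj0 hD hz hne (q b) (hok b)
      refine ⟨C', u, h1, fun i' hi' => ?_, fun ρ => h2 ρ⟩
      exact absurd (Sum.inl_injective hi') (by simp)
    · obtain ⟨C', u, h1, h2⟩ := U_dec h hz j t
      refine ⟨C', u, h1, fun i' hi' => ?_, fun ρ => h2 ρ⟩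
      cases hi'
  choose C' u hC' hpv hval using hdec
  -- the determinant
  set B : Matrix ((Fin r ⊕ Fin n) ⊕ Fin c) ((Fin r ⊕ Fin n) ⊕ Fin c) L :=
    Matrix.of fun a k => sg k * C' k (R a) +
        (∑ i, u k i * (ww P i (R a) : L)) * nz P l z (R a) with hB
  have h0 : A.det = (∏ a, Lam P l (R a)) * B.det := by
    rw [← Matrix.det_mul_column]
    congr 1
    ext a k
    exact hval k (R a)
  have h1 : B.det = (Matrix.of fun a k => sg k * (Matrix.of fun a k => C' k (R a)) a k).det := by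
    refine det_add_cols _ _ (fun i => Sum.inl (Sum.inl i)) u (fun a k => ?_) fun i =>
      (hpv _ i rfl).1
    simp only [hB, Matrix.of_apply]
    congr 1
    rw [Finset.sum_mul]
    refine Finset.sum_congr rfl fun i _ => ?_
    rw [(hpv _ i rfl).2 (R a)]
    change _ = u k i * (1 * _)
    ring
  rw [Matrix.det_mul_row] at h1
  have h3 : A.det = (∏ a, Lam P l (R a)) *
      ((∏ k, sg k) * (Matrix.of fun a k => C' k (R a)).det) := by
    rw [h0, h1]
  rw [h3, map_mul, map_mul]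
  have h4 : v (∏ a, Lam P l (R a)) = ∏ i, v (l i) ^ (∑ a, ww P i (R a)) := by
    rw [map_prod]
    have : ∀ a, v (Lam P l (R a)) = ∏ i, v (l i) ^ ww P i (R a) := by
      intro a
      unfold Lam
      rw [map_prod]
      exact Finset.prod_congr rfl fun i _ => map_pow _ _ _
    simp only [this]
    rw [Finset.prod_comm]
    exact Finset.prod_congr rfl fun i _ => Finset.prod_pow_eq_pow_sum _ _ _
  have h5 : v (∏ k, sg k) = ∏ i, v (l i) ^ (∑ b, P.Q (P.gt (q b).2.1) i) := by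
    have h6 : ∏ k, sg k = ∏ b : Fin n, lq P l (P.gt (q b).2.1) := by
      rw [hsg, Fintype.prod_sum_type, Fintype.prod_sum_type]
      simp
    rw [h6, map_prod]
    have : ∀ b : Fin n, v (lq P l (P.gt (q b).2.1)) =
        ∏ i, v (l i) ^ P.Q (P.gt (q b).2.1) i := by
      intro b
      unfold lq
      rw [map_prod]
      exact Finset.prod_congr rfl fun i _ => map_pow _ _ _
    simp only [this]
    rw [Finset.prod_comm]
    exact Finset.prod_congr rfl fun i _ => Finset.prod_pow_eq_pow_sum _ _ _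
  have h7 := v_det_le v (Matrix.of fun a k => C' k (R a)) (M ^ 3) fun a b => hC' b (R a)
  have hcard : Fintype.card ((Fin r ⊕ Fin n) ⊕ Fin c) = r + n + c := by
    simp
  rw [hcard] at h7
  rw [h4, h5]
  calc _ = v (Matrix.of fun a k => C' k (R a)).det *
        ((∏ i, v (l i) ^ (∑ a, ww P i (R a))) *
          ∏ i, v (l i) ^ (∑ b, P.Q (P.gt (q b).2.1) i)) := by rw [← mul_assoc, mul_comm]
    _ ≤ (M ^ 3) ^ (r + n + c) * ((∏ i, v (l i) ^ (∑ a, ww P i (R a))) *
          ∏ i, v (l i) ^ (∑ b, P.Q (P.gt (q b).2.1) i)) := mul_le_mul' h7 le_rfl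
    _ = _ := by
      rw [← Finset.prod_mul_distrib]
      simp only [pow_add]

end

end Pool.Agent.Met.Y
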