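import Pool.Agent.Lib.MP_c7af3c_ag.MET.Y.FinM

/-!
# MP_c7af3c_ag, project MET, part Y: the theorem
-/

set_option autoImplicit false
set_option linter.unusedSectionVars false

namespace Pool.Agent.Met.Y

open Pool.Agent.Gen Pool.Agent.Met
open AlgebraicGeometry CategoryTheory
open MvPolynomial (homogeneousSubmodule)

theorem coordSec_self (k : Type) [Field k] (n : ℕ)
    [GradedAlgebra (homogeneousSubmodule (Fin (n + 1)) k)] (j : Fin (n + 1)) :
    coordSec k n j j = 1 := by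
  have h1 : coordSec k n j j =
      (Proj.awayToSection (homogeneousSubmodule (Fin (n + 1)) k) (MvPolynomial.X j)).hom
        (H38.frX k n j j) := rfl
  rw [h1, H38.frX_self, map_one]

theorem crd_self {k : Type} [Field k] {r : ℕ} (N : Fin r → ℕ)
    [∀ i, GradedAlgebra (homogeneousSubmodule (Fin (N i + 1)) k)]
    {X : Scheme.{0}} (f : ∀ i, X ⟶ Proj (homogeneousSubmodule (Fin (N i + 1)) k))
    (p : ∀ i, Fin (N i + 1)) (i : Fin r) : crd N f p ⟨i, p i⟩ = 1 := by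
  unfold crd
  simp only [coordSec_self, map_one]
  rfl

section

variable {k0 k : Type} [Field k0] [Field k] [Algebra k0 k] {r r' c : ℕ} (N : Fin r → ℕ)
  (M : Fin r' → ℕ)

/-- the data on `X` -/
def CovM (G : Set (MvPolynomial (Sg N) k0)) (φ : Sg M → MvPolynomial (Sg N) k0)
    (F : Fin c → MvPolynomial (Sg M) k) (e : Fin c → ℕ) (X : Over (Spec (CommRingCat.of k))) :
    Prop :=
  ∃ (_ : ∀ i, GradedAlgebra (homogeneousSubmodule (Fin (N i + 1)) k))
    (f : ∀ i, X.left ⟶ Proj (homogeneousSubmodule (Fin (N i + 1)) k)),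
    (∀ i, f i ≫ projStr k (N i) = X.hom) ∧
    (∀ P : ∀ i, Spec (CommRingCat.of k) ⟶ Proj (homogeneousSubmodule (Fin (N i + 1)) k),
      {x : Spec (CommRingCat.of k) ⟶ X.left | x ≫ X.hom = 𝟙 _ ∧ ∀ i, x ≫ f i = P i}.Finite) ∧
    ∀ p : ∀ i, Fin (N i + 1),
      (∀ g ∈ G, X.left.basicOpen (MvPolynomial.eval₂ (cstR X.hom (chart N f p)) (crd N f p)
        (MvPolynomial.map (algebraMap k0 k) g)) = ⊥) ∧
      ∀ j, (e j = 0 → X.left.basicOpen (MvPolynomial.eval₂ (cstR X.hom (chart N f p))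
        (crd N f p) (MvPolynomial.bind₁ (fun t => MvPolynomial.map (algebraMap k0 k) (φ t))
          (F j))) = ⊥) ∧
        (e j ≠ 0 → ∃ y : Γ(X.left, chart N f p), X.left.basicOpen
          (MvPolynomial.eval₂ (cstR X.hom (chart N f p))
            (crd N f p) (MvPolynomial.bind₁ (fun t => MvPolynomial.map (algebraMap k0 k) (φ t))
              (F j)) - y ^ e j) = ⊥)

theorem over_of (G : Set (MvPolynomial (Sg N) k0)) (φ : Sg M → MvPolynomial (Sg N) k0)
    (F : Fin c → MvPolynomial (Sg M) k) (e : Fin c → ℕ) (X : Over (Spec (CommRingCat.of k)))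
    (hX : CovM N M G φ F e X) : Over1 N c (ES G φ F e) X := by
  classical
  obtain ⟨inst, f, h1, h2, h3⟩ := hX
  refine ⟨inst, f, h1, h2, fun p => ?_⟩
  obtain ⟨h4, h5⟩ := h3 p
  have h6 : ∀ j, ∃ y : Γ(X.left, chart N f p), (e j = 0 → y = 0) ∧
      (e j ≠ 0 → X.left.basicOpen (MvPolynomial.eval₂ (cstR X.hom (chart N f p))
        (crd N f p) (MvPolynomial.bind₁ (fun t => MvPolynomial.map (algebraMap k0 k) (φ t))
          (F j)) - y ^ e j) = ⊥) := by
    intro j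
    by_cases hj : e j = 0
    · exact ⟨0, fun _ => rfl, fun h => absurd hj h⟩
    · obtain ⟨y, hy⟩ := (h5 j).2 hj
      exact ⟨y, fun h => absurd h hj, fun _ => hy⟩
  choose y hy0 hy1 using h6
  refine ⟨y, ?_⟩
  have h7 : ∀ q : MvPolynomial (Sg N) k, MvPolynomial.eval₂ (cstR X.hom (chart N f p))
      (Sum.elim (crd N f p) y) (MvPolynomial.rename Sum.inl q) =
      MvPolynomial.eval₂ (cstR X.hom (chart N f p)) (crd N f p) q := by
    intro q
    rw [MvPolynomial.eval₂_rename]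
    rfl
  rintro q (⟨i, rfl⟩ | ⟨g, hg, rfl⟩ | ⟨j, hj, rfl⟩ | ⟨j, hj, rfl⟩ | ⟨j, hj, rfl⟩)
  · rw [MvPolynomial.eval₂_sub, MvPolynomial.eval₂_X, MvPolynomial.eval₂_one, Sum.elim_inl,
      crd_self, sub_self]
    exact Scheme.basicOpen_zero _ _
  · rw [h7]
    exact h4 g hg
  · rw [h7]
    exact (h5 j).1 hj
  · rw [MvPolynomial.eval₂_X, Sum.elim_inr, hy0 j hj]
    exact Scheme.basicOpen_zero _ _
  · rw [MvPolynomial.eval₂_sub, h7, MvPolynomial.eval₂_pow, MvPolynomial.eval₂_X, Sum.elim_inr]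
    exact hy1 j hj

end

theorem card_fst {r : ℕ} (N : Fin r → ℕ) (i : Fin r) :
    (Finset.univ.filter fun s : Sg N => s.1 = i).card = N i + 1 := by
  classical
  rw [Finset.card_filter, Fintype.sum_sigma, Finset.sum_eq_single i]
  · simp
  · intro b _ hb
    simp [hb]
  · simp

/-- the coefficients -/
theorem indep_conv {k0 k : Type} [Field k0] [Field k] [Algebra k0 k] {r' c : ℕ} {M : Fin r' → ℕ}
    (d : Fin c → Fin r' → ℕ) (F : Fin c → MvPolynomial (Sg M) k)
    (h : AlgebraicIndependent k0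
      (fun s : {s : Fin c × (Sg M →₀ ℕ) // ∀ t, ∑ j, s.2 ⟨t, j⟩ = d s.1 t} =>
        MvPolynomial.coeff s.1.2 (F s.1.1))) :
    AlgebraicIndependent k0
      (fun s : {s : Fin c × (Sg M →₀ ℕ) // ∀ i, mdeg (Sigma.fst : Sg M → Fin r') s.2 i = d s.1 i}
        => MvPolynomial.coeff s.1.2 (F s.1.1)) := by
  have e1 : ∀ s : Fin c × (Sg M →₀ ℕ),
      (∀ i, mdeg (Sigma.fst : Sg M → Fin r') s.2 i = d s.1 i) →
        ∀ t, ∑ j, s.2 ⟨t, j⟩ = d s.1 t := by
    intro s hs t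
    rw [← hs t, mdeg_sigma]
  let ψ : {s : Fin c × (Sg M →₀ ℕ) // ∀ i, mdeg (Sigma.fst : Sg M → Fin r') s.2 i = d s.1 i} →
    {s : Fin c × (Sg M →₀ ℕ) // ∀ t, ∑ j, s.2 ⟨t, j⟩ = d s.1 t} := fun s => ⟨s.1, e1 s.1 s.2⟩
  have hψ : Function.Injective ψ := by
    intro a b hab
    have h1 := congrArg Subtype.val hab
    exact Subtype.ext h1
  exact h.comp ψ hψ
theorem mainM (k0 k : Type) [Field k0] [Field k] [IsAlgClosed k] [CharZero k] [Algebra k0 k]
    {r r' c : ℕ} (N : Fin r → ℕ) (M : Fin r' → ℕ) (n : ℕ)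
    (G : Set (MvPolynomial (Sg N) k0))
    (hG : ∀ g ∈ G, ∃ D, MH (Sigma.fst : Sg N → Fin r) g D)
    (hdim : ringKrullDim (MvPolynomial (Sg N) k0 ⧸ Ideal.span G) ≤ (n + r : ℕ))
    (φ : Sg M → MvPolynomial (Sg N) k0) (Q : Fin r' → Fin r → ℕ)
    (hφ : ∀ t, MH (Sigma.fst : Sg N → Fin r) (φ t) (Q t.1))
    (free : ∀ x : Sg N → k, (∀ g ∈ G, MvPolynomial.aeval x g = 0) → (∀ i, ∃ j, x ⟨i, j⟩ ≠ 0) →
      ∀ t, ∃ j, MvPolynomial.aeval x (φ ⟨t, j⟩) ≠ 0)
    (d : Fin c → Fin r' → ℕ) (F : Fin c → MvPolynomial (Sg M) k)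
    (hF : ∀ j, MH (Sigma.fst : Sg M → Fin r') (F j) (d j))
    (hind : AlgebraicIndependent k0
      (fun s : {s : Fin c × (Sg M →₀ ℕ) // ∀ i, mdeg (Sigma.fst : Sg M → Fin r') s.2 i = d s.1 i}
        => MvPolynomial.coeff s.1.2 (F s.1.1)))
    (e : Fin c → ℕ) (w : Fin c → Fin r → ℕ)
    (hw : ∀ j, e j ≠ 0 → ∀ i, e j * w j i = ∑ t, d j t * Q t i)
    (q : Fin r → ℕ) (hq : ∀ t i, Q t i ≤ q i)
    (hd : ∀ i, min (N i) n + 2 + q i * n + ∑ j, (if e j = 0 then 0 else w j i) ≤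
      ∑ j, ∑ t, d j t * Q t i + q i * (Finset.univ.filter fun j => e j = 0).card)
    (X : Over (Spec (CommRingCat.of k))) (hX1 : LocallyOfFiniteType X.hom)
    (hX2 : QuasiCompact X.hom) (hX : CovM N M G φ F e X) :
    IsGL k X ∧ IsAH k X := by
  classical
  set P := shp φ Q hφ d e w hw with hP
  have hb : Bpf P G := by
    refine bpfM (k := k) P G fun x hx hx1 t' => ?_
    obtain ⟨j, hj⟩ := free x hx (fun i => by
      obtain ⟨⟨i', j⟩, hs, hs'⟩ := hx1 i
      have hs2 : i' = i := hs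
      subst hs2
      exact ⟨j, hs'⟩) t'
    exact ⟨⟨t', j⟩, rfl, hj⟩
  have hbig : Big P n q := by
    refine ⟨hq, fun i => ?_⟩
    have h1 := hd i
    have h2 : (Finset.univ.filter fun s => P.gs s = i).card = N i + 1 := card_fst N i
    rw [h2]
    have h3 : min (N i + 1) (n + 1) = min (N i) n + 1 := by omega
    rw [h3]
    change min (N i) n + 1 + ∑ j, (if e j = 0 then 0 else w j i) + q i * n + 1 ≤
      ∑ j, ∑ t, d j t * Q t i + q i * (Finset.univ.filter fun j => e j = 0).card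
    omega
  have key : ∀ (K' : Type) [Field K'] [IsAlgClosed K'] [Algebra k K'] (p : ∀ i, Fin (N i + 1)),
      FinSolM K' (Sg N ⊕ Fin c) (MvPolynomial.map (algebraMap k K') '' ES G φ F e p) := by
    intro K' _ _ _ p S hS
    let _ : Algebra k0 K' := ((algebraMap k K').comp (algebraMap k0 k)).toAlgebra
    have : IsScalarTower k0 k K' := IsScalarTower.of_algebraMap_eq fun _ => rfl
    have : CharZero K' := charZero_of_injective_algebraMap (algebraMap k K').injective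
    have ha : AlgebraicIndependent k0 (fun s : P.Idx =>
        algebraMap k K' (MvPolynomial.coeff s.1.2 (F s.1.1))) :=
      hind.map' (f := IsScalarTower.toAlgHom k0 k K') (algebraMap k K').injective
    refine (finM P G hG (fun i => ⟨i, p i⟩) (fun _ => rfl) n q hdim hb hbig K' _ ha S hS).subset
      ?_
    rintro z ⟨hz1, hz2⟩
    exact ⟨hz1, isSol_of G φ Q hφ d e w hw F hF p z hz2⟩
  have hX' := over_of N M G φ F e X hX
  constructor
  · exact grplM k r N c (ES G φ F e) key X hX1 hX2 hX'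
  · refine H81.sfinM k r N c (ES G φ F e) (fun p => ?_) X hX1 hX2 hX'
    have h1 := key k p
    have h2 : (MvPolynomial.map (algebraMap k k) :
        MvPolynomial (Sg N ⊕ Fin c) k →+* MvPolynomial (Sg N ⊕ Fin c) k) = RingHom.id _ := by
      refine RingHom.ext fun q => ?_
      rw [Algebra.algebraMap_self, MvPolynomial.map_id]
      rfl
    rw [h2] at h1
    have h3 : (RingHom.id (MvPolynomial (Sg N ⊕ Fin c) k)) '' ES G φ F e p = ES G φ F e p :=
      Set.image_id _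
    rwa [h3] at h1

end Pool.Agent.Met.Y
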