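import Pool.Agent.Lib.MP_c7af3c_ag.MET.Y.Loc

/-! The rows of the minor: ranks. -/

set_option autoImplicit false
set_option linter.unusedSectionVars false
set_option linter.unusedVariables false

namespace Pool.Agent.Met.Y

open MvPolynomial WithZero Pool.Agent.Gen Pool.Agent.Met

section
variable {L : Type} [Field L]

/-- rows of a nonsingular matrix whose columns come from a small space -/
theorem rows_le {K ρ : Type} [Fintype K] [DecidableEq K] [Fintype ρ] (w : K → ρ → L)
    (R : K → ρ) (hdet : Matrix.det (Matrix.of fun a k => w k (R a)) ≠ 0) (p : ρ → Prop)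
    [DecidablePred p] (W : Submodule L (ρ → L)) (b : ℕ) (hW : Module.finrank L W ≤ b)
    (hw : ∀ k, ∃ u ∈ W, ∀ x, p x → w k x = u x) :
    (Finset.univ.filter fun a => p (R a)).card ≤ b := by
  classical
  choose u hu hwu using hw
  let A : Type := {a : K // p (R a)}
  let Θ : W →ₗ[L] (A → L) :=
    { toFun := fun v a => v.1 (R a.1)
      map_add' := fun v v' => by funext a; rfl
      map_smul' := fun c v => by funext a; rfl }
  have hsurj : Function.Surjective Θ := by
    intro y
    set M : Matrix K K L := Matrix.of fun a k => w k (R a) with hM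
    let y' : K → L := fun a => if h : p (R a) then y ⟨a, h⟩ else 0
    have hunit : IsUnit M.det := isUnit_iff_ne_zero.2 hdet
    let cc : K → L := M⁻¹.mulVec y'
    have hcc : M.mulVec cc = y' := by
      rw [Matrix.mulVec_mulVec, Matrix.mul_nonsing_inv M hunit, Matrix.one_mulVec]
    refine ⟨⟨∑ k, cc k • u k, W.sum_mem fun k _ => W.smul_mem _ (hu k)⟩, ?_⟩
    funext a
    change (∑ k, cc k • u k) (R a.1) = y a
    have h1 := congrFun hcc a.1
    have h2 : y' a.1 = y a := by
      simp only [y']
      rw [dif_pos a.2]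
    rw [h2] at h1
    rw [← h1, Finset.sum_apply]
    change _ = ∑ k, M a.1 k * cc k
    refine Finset.sum_congr rfl fun k _ => ?_
    rw [Pi.smul_apply, smul_eq_mul, ← hwu k (R a.1) a.2, mul_comm]
    rfl
  have h1 : Module.finrank L (A → L) ≤ Module.finrank L W :=
    LinearMap.finrank_le_finrank_of_surjective (f := Θ) hsurj
  rw [Module.finrank_fintype_fun_eq_card] at h1
  have h2 : Fintype.card A = (Finset.univ.filter fun a => p (R a)).card :=
    Fintype.card_subtype _
  rw [← h2]
  exact h1.trans hW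

theorem R_inj {K ρ : Type} [Fintype K] [DecidableEq K] (w : K → ρ → L)
    (R : K → ρ) (hdet : Matrix.det (Matrix.of fun a k => w k (R a)) ≠ 0) :
    Function.Injective R := by
  intro a b hab
  by_contra hne
  apply hdet
  apply Matrix.det_zero_of_row_eq hne
  funext k
  change w k (R a) = w k (R b)
  rw [hab]

theorem row_ne {K ρ : Type} [Fintype K] [DecidableEq K] (w : K → ρ → L)
    (R : K → ρ) (hdet : Matrix.det (Matrix.of fun a k => w k (R a)) ≠ 0) (a : K)
    (h : ∀ k, w k (R a) = 0) : False := by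
  apply hdet
  apply Matrix.det_eq_zero_of_row_eq_zero a
  exact h

end

/-- a derivation which kills the constants -/
def toK0 {k0 L : Type} [Field k0] [Field L] [Algebra k0 L] (δ : Derivation ℤ L L)
    (hδ : ∀ a : k0, δ (algebraMap k0 L a) = 0) : Derivation k0 L L where
  toFun := δ
  map_add' := map_add δ
  map_smul' := by
    intro a x
    rw [Algebra.smul_def, Derivation.leibniz, hδ, smul_zero, add_zero, smul_eq_mul,
      RingHom.id_apply, Algebra.smul_def]
  map_one_eq_zero' := Derivation.map_one_eq_zero δ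
  leibniz' := fun a b => Derivation.leibniz δ a b

/-- the rank of the derivatives of the normalised points of the ambient variety -/
def RankLe {k0 : Type} [Field k0] {σ : Type} [Fintype σ] {r : ℕ} (I0 : Set (MvPolynomial σ k0))
    (j0 : Fin r → σ) (n : ℕ) : Prop :=
  ∀ (L : Type) [Field L] [CharZero L] [Algebra k0 L] (x : σ → L), (∀ i, x (j0 i) = 1) →
    (∀ g ∈ I0, aeval x g = 0) →
    Module.finrank L (Submodule.span L {u : σ → L | ∃ δ : Derivation k0 L L,
      u = fun s => δ (x s)}) ≤ n

section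
variable {k0 : Type} [Field k0] {σ τ : Type} [Fintype σ] [DecidableEq σ] [Fintype τ]
  [DecidableEq τ] {r r' c : ℕ} {P : Shape k0 σ τ r r' c} {L : Type} [Field L] [CharZero L]
  [Algebra k0 L] {D : DD P.Idx L} {z : σ ⊕ Fin c → L}

/-- extension by zero -/
noncomputable def extz (L : Type) [Field L] (σ : Type) (c : ℕ) : (σ → L) →ₗ[L] (σ ⊕ Fin c → L) where
  toFun u := Sum.elim u 0
  map_add' u v := by
    funext ρ
    cases ρ <;> simp
  map_smul' a u := by
    funext ρ
    cases ρ <;> simp

theorem V_mem (hD : ∀ s (a : k0), D.del s (algebraMap k0 L a) = 0) (j : Fin c)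
    (G : MvPolynomial τ L) :
    ∃ u ∈ Submodule.map (extz L σ c) (Submodule.span L {u : σ → L | ∃ δ : Derivation k0 L L,
      u = fun s => δ (z (Sum.inl s))}), ∀ s, VV P D (fun δ ρ => δ (z ρ)) j G (Sum.inl s) =
        u (Sum.inl s) := by
  refine ⟨extz L σ c (∑ I ∈ G.support, coeff I G • fun s => dl P D j I (z (Sum.inl s))),
    Submodule.mem_map_of_mem (Submodule.sum_mem _ fun I _ => Submodule.smul_mem _ _
      (Submodule.subset_span ⟨toK0 (dl P D j I) (dl_k0 P D hD j I), rfl⟩)), fun s => ?_⟩
  rw [VV_sum]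
  change _ = (∑ I ∈ G.support, coeff I G • fun s => dl P D j I (z (Sum.inl s))) s
  rw [Finset.sum_apply, Finset.sum_apply]
  rfl

variable {I0 : Set (MvPolynomial σ k0)} {j0 : Fin r → σ} (hj0 : ∀ i, P.gs (j0 i) = i)
  (hD : ∀ s (a : k0), D.del s (algebraMap k0 L a) = 0) (hz : IsSol P I0 j0 D.a z)
  (hne : ∀ i, ∃ t, P.gt t = i ∧ yv P z t ≠ 0)

include hj0 in
theorem Zcol_mem {n : ℕ} (q : Fin n → QQ τ c) (t : Fin r' → τ) (k : Fin n ⊕ Fin c) :
    ∃ u ∈ Submodule.map (extz L σ c) (Submodule.span L {u : σ → L | ∃ δ : Derivation k0 L L,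
      u = fun s => δ (z (Sum.inl s))}), ∀ s,
      (LYof P hj0 D hD z hz hne).col q t (Sum.map Sum.inr id k) (Sum.inl s) =
        u (Sum.inl s) := by
  rcases k with b | j
  · obtain ⟨u1, hu1, h1⟩ := V_mem (P := P) (z := z) hD (q b).1
      (X (q b).2.1 * monomial (q b).2.2.2 1)
    obtain ⟨u2, hu2, h2⟩ := V_mem (P := P) (z := z) hD (q b).1
      (X (q b).2.2.1 * monomial (q b).2.2.2 1)
    refine ⟨yv P z (q b).2.2.1 • u1 - yv P z (q b).2.1 • u2,
      Submodule.sub_mem _ (Submodule.smul_mem _ _ hu1) (Submodule.smul_mem _ _ hu2), fun s => ?_⟩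
    change (yv P z (q b).2.2.1 • VV P D (fun δ ρ => δ (z ρ)) (q b).1 _ -
      yv P z (q b).2.1 • VV P D (fun δ ρ => δ (z ρ)) (q b).1 _) (Sum.inl s) = _
    simp only [Pi.sub_apply, Pi.smul_apply, h1, h2]
  · exact V_mem (P := P) (z := z) hD j (Um L (P.d j) t)

/-- the number of projective rows -/
theorem rows_inl {n : ℕ} (hrk : RankLe I0 j0 n) {m : ℕ} (q : Fin m → QQ τ c) (t : Fin r' → τ)
    (R : (Fin r ⊕ Fin m) ⊕ Fin c → σ ⊕ Fin c)
    (hdet : Matrix.det (Matrix.of fun a k => (LYof P hj0 D hD z hz hne).col q t k (R a)) ≠ 0) :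
    (Finset.univ.filter fun a => (R a).isLeft = true).card ≤ r + n := by
  classical
  have hr := hrk L (fun s => z (Sum.inl s)) hz.one hz.amb
  set W0 := Submodule.span L {u : σ → L | ∃ δ : Derivation k0 L L,
      u = fun s => δ (z (Sum.inl s))} with hW0
  set W := Submodule.span L (Set.range (ptt P z)) ⊔ Submodule.map (extz L σ c) W0 with hW
  refine rows_le _ R hdet (fun x => x.isLeft = true) W (r + n) ?_ ?_
  · refine (Submodule.finrank_add_le_finrank_add_finrank _ _).trans (add_le_add ?_ ?_)
    · have := finrank_range_le_card (R := L) (ptt P z)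
      rw [Fintype.card_fin] at this
      exact this
    · exact (Submodule.finrank_map_le _ _).trans hr
  · rintro ((i | b) | j)
    · exact ⟨ptt P z i, Submodule.mem_sup_left (Submodule.subset_span ⟨i, rfl⟩), fun x _ => rfl⟩
    · obtain ⟨u, hu, h⟩ := Zcol_mem hj0 hD hz hne q t (Sum.inl b)
      refine ⟨u, Submodule.mem_sup_right hu, fun x hx => ?_⟩
      obtain ⟨s, rfl⟩ := Sum.isLeft_iff.1 hx
      exact h s
    · obtain ⟨u, hu, h⟩ := Zcol_mem hj0 hD hz hne q t (Sum.inr j)
      refine ⟨u, Submodule.mem_sup_right hu, fun x hx => ?_⟩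
      obtain ⟨s, rfl⟩ := Sum.isLeft_iff.1 hx
      exact h s

open Classical in
/-- the number of projective rows of one group -/
theorem rows_grp {n : ℕ} (hrk : RankLe I0 j0 n) {m : ℕ} (q : Fin m → QQ τ c) (t : Fin r' → τ)
    (R : (Fin r ⊕ Fin m) ⊕ Fin c → σ ⊕ Fin c)
    (hdet : Matrix.det (Matrix.of fun a k => (LYof P hj0 D hD z hz hne).col q t k (R a)) ≠ 0)
    (i : Fin r) :
    (Finset.univ.filter fun a => Sum.elim (fun s => P.gs s = i) (fun _ => False) (R a)).card ≤
      n + 1 := by
  classical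
  have hr := hrk L (fun s => z (Sum.inl s)) hz.one hz.amb
  set W0 := Submodule.span L {u : σ → L | ∃ δ : Derivation k0 L L,
      u = fun s => δ (z (Sum.inl s))} with hW0
  set W := Submodule.span L {ptt P z i} ⊔ Submodule.map (extz L σ c) W0 with hW
  refine rows_le _ R hdet (fun x => Sum.elim (fun s => P.gs s = i) (fun _ => False) x) W
    (n + 1) ?_ ?_
  · refine (Submodule.finrank_add_le_finrank_add_finrank _ _).trans ?_
    rw [add_comm n 1]
    refine add_le_add ?_ ?_
    · have := finrank_span_le_card (R := L) ({ptt P z i} : Set (σ ⊕ Fin c → L))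
      simpa using this
    · exact (Submodule.finrank_map_le _ _).trans hr
  · rintro ((i' | b) | j)
    · by_cases hi : i' = i
      · subst hi
        exact ⟨ptt P z i', Submodule.mem_sup_left (Submodule.mem_span_singleton_self _),
          fun x _ => rfl⟩
      · refine ⟨0, Submodule.zero_mem _, fun x hx => ?_⟩
        rcases x with s | j
        · change ((if P.gs s = i' then 1 else 0 : ℕ) : L) * z (Sum.inl s) = 0
          have hs : P.gs s = i := hx
          rw [hs, if_neg (Ne.symm hi)]
          simp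
        · exact hx.elim
    · obtain ⟨u, hu, h⟩ := Zcol_mem hj0 hD hz hne q t (Sum.inl b)
      refine ⟨u, Submodule.mem_sup_right hu, fun x hx => ?_⟩
      rcases x with s | j
      · exact h s
      · exact hx.elim
    · obtain ⟨u, hu, h⟩ := Zcol_mem hj0 hD hz hne q t (Sum.inr j)
      refine ⟨u, Submodule.mem_sup_right hu, fun x hx => ?_⟩
      rcases x with s | j
      · exact h s
      · exact hx.elim

/-- the roots among the rows are proper -/
theorem rows_inr {m : ℕ} (q : Fin m → QQ τ c) (t : Fin r' → τ)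
    (R : (Fin r ⊕ Fin m) ⊕ Fin c → σ ⊕ Fin c)
    (hdet : Matrix.det (Matrix.of fun a k => (LYof P hj0 D hD z hz hne).col q t k (R a)) ≠ 0)
    (a : (Fin r ⊕ Fin m) ⊕ Fin c) (j : Fin c) (ha : R a = Sum.inr j) : P.e j ≠ 0 := by
  intro he
  have h0 := hz.y0 j he
  have hV : ∀ (j' : Fin c) (G : MvPolynomial τ L),
      VV P D (fun δ ρ => δ (z ρ)) j' G (Sum.inr j) = 0 := by
    intro j' G
    rw [VV_sum, Finset.sum_apply]
    refine Finset.sum_eq_zero fun I _ => ?_
    change coeff I G * (dl P D j' I (z (Sum.inr j))) = 0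
    rw [h0, map_zero, mul_zero]
  refine row_ne _ R hdet a fun k => ?_
  rw [ha]
  rcases k with (i | b) | j'
  · change (ww P i (Sum.inr j) : L) * z (Sum.inr j) = 0
    rw [h0, mul_zero]
  · change (yv P z (q b).2.2.1 • VV P D (fun δ ρ => δ (z ρ)) (q b).1 _ -
      yv P z (q b).2.1 • VV P D (fun δ ρ => δ (z ρ)) (q b).1 _) (Sum.inr j) = _
    simp only [Pi.sub_apply, Pi.smul_apply, hV, smul_zero, sub_zero]
  · exact hV j' _

/-- number of `Z` columns -/
theorem z_le {n : ℕ} (hrk : RankLe I0 j0 n) {m : ℕ} (q : Fin m → QQ τ c) (t : Fin r' → τ)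
    (R : (Fin r ⊕ Fin m) ⊕ Fin c → σ ⊕ Fin c)
    (hdet : Matrix.det (Matrix.of fun a k => (LYof P hj0 D hD z hz hne).col q t k (R a)) ≠ 0) :
    m + (Finset.univ.filter fun j => P.e j = 0).card ≤ n := by
  classical
  have h1 := rows_inl hj0 hD hz hne hrk q t R hdet
  have hinj := R_inj _ R hdet
  have h2 : (Finset.univ.filter fun a => ¬ (R a).isLeft = true).card ≤
      (Finset.univ.filter fun j => ¬ P.e j = 0).card := by
    have h3 : ∀ a ∈ Finset.univ.filter (fun a => ¬ (R a).isLeft = true),
        R a ∈ (Finset.univ.filter fun j => ¬ P.e j = 0).image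
          (Sum.inr : Fin c → σ ⊕ Fin c) := by
      intro a ha
      have h4 := (Finset.mem_filter.1 ha).2
      rcases hRa : R a with s | j
      · rw [hRa] at h4; simp at h4
      · exact Finset.mem_image.2 ⟨j, by
          rw [Finset.mem_filter]
          exact ⟨Finset.mem_univ _, rows_inr hj0 hD hz hne q t R hdet a j hRa⟩, rfl⟩
    have h5 := Finset.card_le_card_of_injOn R h3 (fun a _ b _ h => hinj h)
    rwa [Finset.card_image_of_injective _ Sum.inr_injective] at h5
  have h6 := Finset.card_filter_add_card_filter_not (s := Finset.univ)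
    (fun a : (Fin r ⊕ Fin m) ⊕ Fin c => (R a).isLeft = true)
  have h7 := Finset.card_filter_add_card_filter_not (s := Finset.univ)
    (fun j : Fin c => P.e j = 0)
  rw [Finset.card_univ] at h6 h7
  simp only [Fintype.card_sum, Fintype.card_fin] at h6 h7
  omega

/-- weights of the rows -/
theorem ww_le {n : ℕ} (hrk : RankLe I0 j0 n) {m : ℕ} (q : Fin m → QQ τ c) (t : Fin r' → τ)
    (R : (Fin r ⊕ Fin m) ⊕ Fin c → σ ⊕ Fin c)
    (hdet : Matrix.det (Matrix.of fun a k => (LYof P hj0 D hD z hz hne).col q t k (R a)) ≠ 0)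
    (i : Fin r) :
    ∑ a, ww P i (R a) ≤ min (Finset.univ.filter fun s => P.gs s = i).card (n + 1) +
      ∑ j, (if P.e j = 0 then 0 else P.m j i) := by
  classical
  have hinj := R_inj _ R hdet
  have h1 := rows_grp hj0 hD hz hne hrk q t R hdet i
  set A := Finset.univ.filter fun a => Sum.elim (fun s => P.gs s = i) (fun _ => False) (R a)
    with hA
  have h2 : A.card ≤ (Finset.univ.filter fun s => P.gs s = i).card := by
    have h3 : ∀ a ∈ A, R a ∈ (Finset.univ.filter fun s => P.gs s = i).image
        (Sum.inl : σ → σ ⊕ Fin c) := by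
      intro a ha
      have h4 := (Finset.mem_filter.1 ha).2
      rcases hRa : R a with s | j
      · rw [hRa] at h4
        exact Finset.mem_image.2 ⟨s, by
          rw [Finset.mem_filter]
          exact ⟨Finset.mem_univ _, h4⟩, rfl⟩
      · rw [hRa] at h4; exact h4.elim
    have h5 := Finset.card_le_card_of_injOn R h3 (fun a _ b _ h => hinj h)
    rwa [Finset.card_image_of_injective _ Sum.inl_injective] at h5
  have h3 : ∀ a, ww P i (R a) ≤ (if Sum.elim (fun s => P.gs s = i) (fun _ => False) (R a)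
      then 1 else 0) + Sum.elim (fun _ => (0 : ℕ)) (fun j => if P.e j = 0 then 0 else P.m j i)
        (R a) := by
    intro a
    rcases hRa : R a with s | j
    · by_cases hs : P.gs s = i <;> simp [ww, hs]
    · simp only [Sum.elim_inr, if_false, zero_add, ww]
      rw [if_neg (rows_inr hj0 hD hz hne q t R hdet a j hRa)]
  have h4 : ∑ a, Sum.elim (fun _ => (0 : ℕ)) (fun j => if P.e j = 0 then 0 else P.m j i) (R a) ≤
      ∑ j, (if P.e j = 0 then 0 else P.m j i) := by
    have h5 : ∑ ρ : σ ⊕ Fin c, Sum.elim (fun _ => (0 : ℕ))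
        (fun j => if P.e j = 0 then 0 else P.m j i) ρ =
        ∑ j, (if P.e j = 0 then 0 else P.m j i) := by
      rw [Fintype.sum_sum_type]
      simp
    rw [← h5, ← Finset.sum_image (s := Finset.univ) (g := R) (f := Sum.elim (fun _ => (0 : ℕ))
        (fun j => if P.e j = 0 then 0 else P.m j i)) (fun a _ b _ h => hinj h)]
    exact Finset.sum_le_sum_of_subset (Finset.subset_univ _)
  calc ∑ a, ww P i (R a) ≤ _ := Finset.sum_le_sum fun a _ => h3 a
    _ = A.card + ∑ a, Sum.elim (fun _ => (0 : ℕ)) (fun j => if P.e j = 0 then 0 else P.m j i) (R a) := by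
      rw [Finset.sum_add_distrib, hA, Finset.card_filter]
    _ ≤ _ := add_le_add (le_min h2 h1) h4

end

end Pool.Agent.Met.Y
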