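import Pool.Agent.Lib.MP_c7af3c_ag.GEN.Groups

/-!
# MP_c7af3c_ag, project MET, part Y: the scheme side (statements)
Schemes with `r` morphisms to projective spaces, systems of equations in the coordinates and in
additional sections on every chart.
-/

set_option autoImplicit false

namespace Pool.Agent.Met.Y

open AlgebraicGeometry CategoryTheory CategoryTheory.Limits
open MvPolynomial (homogeneousSubmodule)
open Pool.Agent.Gen

/-- finitely many solutions in every finitely generated field -/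
def FinSolM (k : Type) [Field k] (J : Type) (E : Set (MvPolynomial J k)) : Prop :=
  ∀ S : Set k, S.Finite →
    {z : J → k | (∀ j, z j ∈ Subfield.closure S) ∧ ∀ q ∈ E, MvPolynomial.eval z q = 0}.Finite

/-- the coordinates -/
abbrev Sg {r : ℕ} (N : Fin r → ℕ) : Type := Σ i, Fin (N i + 1)

section

variable {k : Type} [Field k] {r : ℕ} (N : Fin r → ℕ)
  [∀ i, GradedAlgebra (homogeneousSubmodule (Fin (N i + 1)) k)]
  {X : Scheme.{0}} (f : ∀ i, X ⟶ Proj (homogeneousSubmodule (Fin (N i + 1)) k))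

/-- the chart `p`: the locus where the coordinate `p i` does not vanish, for all `i` -/
noncomputable def chart (p : ∀ i, Fin (N i + 1)) : X.Opens :=
  ⨅ i, (f i) ⁻¹ᵁ Proj.basicOpen (homogeneousSubmodule (Fin (N i + 1)) k) (MvPolynomial.X (p i))

/-- the normalised coordinates on the chart `p` -/
noncomputable def crd (p : ∀ i, Fin (N i + 1)) (s : Sg N) : Γ(X, chart N f p) :=
  (X.presheaf.map (homOfLE (iInf_le _ s.1)).op).hom
    (((f s.1).app _).hom (coordSec k (N s.1) (p s.1) s.2))

end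

/-- the constants -/
noncomputable def cstR {k : Type} [Field k] {X : Scheme.{0}} (a : X ⟶ Spec (CommRingCat.of k))
    (U : X.Opens) : k →+* Γ(X, U) :=
  ((a.appLE ⊤ U le_top).hom).comp (Scheme.ΓSpecIso (CommRingCat.of k)).inv.hom

/-- `X` has `r` morphisms to projective spaces with finite joint fibres over `k`-points, and on
every chart `p` there are sections `y` such that the normalised coordinates and `y` satisfy the
equations `E p` (at every point of the chart) -/
def Over1 {k : Type} [Field k] {r : ℕ} (N : Fin r → ℕ) (c : ℕ)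
    (E : (∀ i, Fin (N i + 1)) → Set (MvPolynomial (Sg N ⊕ Fin c) k))
    (X : Over (Spec (CommRingCat.of k))) : Prop :=
  ∃ (_ : ∀ i, GradedAlgebra (homogeneousSubmodule (Fin (N i + 1)) k))
    (f : ∀ i, X.left ⟶ Proj (homogeneousSubmodule (Fin (N i + 1)) k)),
    (∀ i, f i ≫ projStr k (N i) = X.hom) ∧
    (∀ P : ∀ i, Spec (CommRingCat.of k) ⟶ Proj (homogeneousSubmodule (Fin (N i + 1)) k),
      {x : Spec (CommRingCat.of k) ⟶ X.left | x ≫ X.hom = 𝟙 _ ∧ ∀ i, x ≫ f i = P i}.Finite) ∧
    ∀ p : ∀ i, Fin (N i + 1), ∃ y : Fin c → Γ(X.left, chart N f p), ∀ q ∈ E p,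
      X.left.basicOpen (MvPolynomial.eval₂ (cstR X.hom (chart N f p))
        (Sum.elim (crd N f p) y) q) = ⊥

/-- Module SFINM: arithmetic hyperbolicity. -/
def SfinMStatement : Prop := ∀ (k : Type) [Field k] (r : ℕ) (N : Fin r → ℕ) (c : ℕ)
  (E : (∀ i, Fin (N i + 1)) → Set (MvPolynomial (Sg N ⊕ Fin c) k)),
  (∀ p, FinSolM k (Sg N ⊕ Fin c) (E p)) → ∀ (X : Over (Spec (CommRingCat.of k))),
  LocallyOfFiniteType X.hom → QuasiCompact X.hom → Over1 N c E X → IsAH k X

/-- Module GRPLM: grouplessness. -/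
def GrplMStatement : Prop := ∀ (k : Type) [Field k] [IsAlgClosed k] [CharZero k] (r : ℕ)
  (N : Fin r → ℕ) (c : ℕ) (E : (∀ i, Fin (N i + 1)) → Set (MvPolynomial (Sg N ⊕ Fin c) k)),
  (∀ (K' : Type) [Field K'] [IsAlgClosed K'] [Algebra k K'] (p),
    FinSolM K' (Sg N ⊕ Fin c) (MvPolynomial.map (algebraMap k K') '' E p)) →
  ∀ (X : Over (Spec (CommRingCat.of k))),
  LocallyOfFiniteType X.hom → QuasiCompact X.hom → Over1 N c E X → IsGL k X

end Pool.Agent.Met.Y
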