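import Pool.Agent.Lib.MP_c7af3c_ag.MET.Y.Lin

/-! The systems and the linear data of a solution. -/

set_option autoImplicit false
set_option linter.unusedSectionVars false
set_option linter.unusedVariables false

namespace Pool.Agent.Met.Y

open MvPolynomial WithZero Pool.Agent.Gen Pool.Agent.Met

/-! ### derivative of a value -/

section
variable {L : Type} [Field L] {σ : Type} [Fintype σ] [DecidableEq σ] (δ : Derivation ℤ L L)
  (x : σ → L)

/-- the part of `δ (F(x))` coming from the coefficients -/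
noncomputable def cpart (F : MvPolynomial σ L) : L :=
  ∑ J ∈ F.support, δ (coeff J F) * ∏ i, x i ^ J i

theorem cpart_of_subset (F : MvPolynomial σ L) (S : Finset (σ →₀ ℕ))
    (h : F.support ⊆ S) : cpart δ x F = ∑ J ∈ S, δ (coeff J F) * ∏ i, x i ^ J i := by
  unfold cpart
  apply Finset.sum_subset h
  intro J _ hJ
  rw [notMem_support_iff.1 hJ, map_zero, zero_mul]

theorem cpart_add (F G : MvPolynomial σ L) :
    cpart δ x (F + G) = cpart δ x F + cpart δ x G := by
  classical
  rw [cpart_of_subset δ x (F + G) (F.support ∪ G.support) support_add,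
    cpart_of_subset δ x F (F.support ∪ G.support) Finset.subset_union_left,
    cpart_of_subset δ x G (F.support ∪ G.support) Finset.subset_union_right,
    ← Finset.sum_add_distrib]
  apply Finset.sum_congr rfl
  intro J _
  rw [coeff_add, map_add, add_mul]

theorem cpart_mul_X (F : MvPolynomial σ L) (i : σ) :
    cpart δ x (F * X i) = cpart δ x F * x i := by
  classical
  unfold cpart
  rw [support_mul_X, Finset.sum_map, Finset.sum_mul]
  apply Finset.sum_congr rfl
  intro J _
  simp only [addRightEmbedding_apply]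
  rw [coeff_mul_X, mul_assoc]
  congr 1
  have : ∀ j, x j ^ ((J + Finsupp.single i 1 : σ →₀ ℕ) j) =
      x j ^ J j * (if j = i then x i else 1) := by
    intro j
    rw [Finsupp.add_apply, pow_add]
    congr 1
    by_cases h : j = i
    · subst h; simp
    · rw [if_neg h, Finsupp.single_eq_of_ne h, pow_zero]
  simp only [this]
  rw [Finset.prod_mul_distrib]
  congr 1
  rw [Finset.prod_ite_eq' Finset.univ i]
  simp

theorem cpart_C (a : L) : cpart δ x (C a) = δ a := by
  classical
  rw [cpart_of_subset δ x (C a) {0} (by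
    intro J hJ
    rw [mem_support_iff, coeff_C] at hJ
    by_contra h
    apply hJ
    rw [if_neg]
    intro h0
    exact h (by simp [← h0]))]
  simp

theorem der_eval (F : MvPolynomial σ L) :
    δ (eval x F) = cpart δ x F + ∑ p, eval x (pderiv p F) * δ (x p) := by
  classical
  induction F using MvPolynomial.induction_on with
  | C a => rw [cpart_C]; simp
  | add p q hp hq =>
    rw [map_add, map_add, hp, hq, cpart_add]
    simp only [map_add, add_mul, Finset.sum_add_distrib]
    ring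
  | mul_X p i hp =>
    rw [map_mul, eval_X, Derivation.leibniz, hp, cpart_mul_X]
    have : ∀ q, eval x (pderiv q (p * X i)) * δ (x q) =
        x i * (eval x (pderiv q p) * δ (x q)) + (if q = i then eval x p * δ (x i) else 0) := by
      intro q
      rw [Derivation.leibniz, map_add]
      simp only [smul_eq_mul, map_mul, eval_X]
      by_cases h : q = i
      · subst h
        rw [if_pos rfl, pderiv_X_self]
        simp only [map_one]
        ring
      · rw [if_neg h, pderiv_X_of_ne (Ne.symm h)]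
        simp only [map_zero]
        ring
    simp only [this]
    rw [Finset.sum_add_distrib, ← Finset.mul_sum, Finset.sum_ite_eq' Finset.univ i]
    simp only [smul_eq_mul, Finset.mem_univ, if_true]
    ring

/-- chain rule for constant coefficients -/
theorem der_aeval {k0 : Type} [Field k0] [Algebra k0 L] (hδ : ∀ a : k0, δ (algebraMap k0 L a) = 0)
    (F : MvPolynomial σ k0) :
    δ (aeval x F) = ∑ p, aeval x (pderiv p F) * δ (x p) := by
  classical
  have h1 : aeval x F = eval x (map (algebraMap k0 L) F) := by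
    rw [eval_map, aeval_def]
  rw [h1, der_eval]
  have h2 : cpart δ x (map (algebraMap k0 L) F) = 0 := by
    unfold cpart
    refine Finset.sum_eq_zero fun J _ => ?_
    rw [coeff_map, hδ, zero_mul]
  rw [h2, zero_add]
  refine Finset.sum_congr rfl fun p _ => ?_
  rw [pderiv_map, eval_map, aeval_def]

end

/-! ### multidegrees -/

section
variable {σ : Type} [Fintype σ] [DecidableEq σ] {r c : ℕ}

theorem mdeg_eq (g : σ → Fin r) (I : σ →₀ ℕ) (i : Fin r) :
    mdeg g I i = ∑ s, if g s = i then I s else 0 := by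
  unfold mdeg
  rw [Finsupp.weight_apply, Finsupp.sum_fintype]
  · refine Finset.sum_congr rfl fun s _ => ?_
    simp [wt]
  · intro s; simp

theorem finite_mdeg (g : σ → Fin r) (D : Fin r → ℕ) :
    {I : σ →₀ ℕ | ∀ i, mdeg g I i = D i}.Finite := by
  refine (Set.finite_Iic (Finsupp.equivFunOnFinite.symm fun s => D (g s))).subset ?_
  intro I hI
  rw [Set.mem_Iic]
  intro s
  have h1 := hI (g s)
  rw [mdeg_eq] at h1
  have h2 : I s ≤ ∑ s', if g s' = g s then I s' else 0 := by
    have := Finset.single_le_sum (f := fun s' => if g s' = g s then I s' else 0)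
      (fun _ _ => Nat.zero_le _) (Finset.mem_univ s)
    simpa using this
  rw [h1] at h2
  exact h2

/-- the monomials of multidegree `D` -/
noncomputable def Bf (g : σ → Fin r) (D : Fin r → ℕ) : Finset (σ →₀ ℕ) :=
  (finite_mdeg g D).toFinset

theorem mem_Bf {g : σ → Fin r} {D : Fin r → ℕ} {I : σ →₀ ℕ} :
    I ∈ Bf g D ↔ ∀ i, mdeg g I i = D i := by
  unfold Bf
  rw [Set.Finite.mem_toFinset]
  rfl

end

/-- the shape of a system: `gs`, `gt` group the source and target variables, `φ` the forms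
(multidegrees `Q`), `d` multidegrees of the general forms, `e` orders of the roots (`0`: no root,
an equation), `m` multidegrees of the roots -/
structure Shape (k0 : Type) [Field k0] (σ τ : Type) [Fintype σ] [DecidableEq σ] [Fintype τ]
    [DecidableEq τ] (r r' c : ℕ) where
  gs : σ → Fin r
  gt : τ → Fin r'
  Q : Fin r' → Fin r → ℕ
  φ : τ → MvPolynomial σ k0
  φh : ∀ t, MH gs (φ t) (Q (gt t))
  d : Fin c → Fin r' → ℕ
  e : Fin c → ℕ
  m : Fin c → Fin r → ℕ
  em : ∀ j, e j ≠ 0 → ∀ i, e j * m j i = ∑ t, d j t * Q t i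

section
variable {k0 : Type} [Field k0] {σ τ : Type} [Fintype σ] [DecidableEq σ] [Fintype τ]
  [DecidableEq τ] {r r' c : ℕ} (P : Shape k0 σ τ r r' c)

/-- index set of the parameters -/
abbrev Shape.Idx : Type := {s : Fin c × (τ →₀ ℕ) // ∀ i, mdeg P.gt s.2 i = P.d s.1 i}

instance finIdx : Finite P.Idx := by
  have h1 : {s : Fin c × (τ →₀ ℕ) | ∀ i, mdeg P.gt s.2 i = P.d s.1 i}.Finite := by
    have h2 : (⋃ j : Fin c, (fun I : τ →₀ ℕ => (j, I)) ''
        (Bf P.gt (P.d j) : Set (τ →₀ ℕ))).Finite :=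
      Set.finite_iUnion fun m => (Finset.finite_toSet _).image _
    refine h2.subset ?_
    rintro ⟨j, I⟩ hI
    rw [Set.mem_iUnion]
    exact ⟨j, I, mem_Bf.2 hI, rfl⟩
  exact h1

open Classical in
/-- all coefficients -/
noncomputable def cf {L : Type} [Zero L] (a : P.Idx → L) (j : Fin c) (I : τ →₀ ℕ) : L :=
  if h : ∀ i, mdeg P.gt I i = P.d j i then a ⟨(j, I), h⟩ else 0

theorem cf_pos {L : Type} [Zero L] (a : P.Idx → L) {j : Fin c} {I : τ →₀ ℕ}
    (h : ∀ i, mdeg P.gt I i = P.d j i) : cf P a j I = a ⟨(j, I), h⟩ := by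
  unfold cf
  rw [dif_pos h]

theorem cf_neg {L : Type} [Zero L] (a : P.Idx → L) {j : Fin c} {I : τ →₀ ℕ}
    (h : ¬ ∀ i, mdeg P.gt I i = P.d j i) : cf P a j I = 0 := by
  unfold cf
  rw [dif_neg h]

/-- the forms with coefficients `a` -/
noncomputable def frm {L : Type} [CommRing L] (a : P.Idx → L) (j : Fin c) : MvPolynomial τ L :=
  ∑ I ∈ Bf P.gt (P.d j), monomial I (cf P a j I)

theorem coeff_frm {L : Type} [CommRing L] (a : P.Idx → L) (j : Fin c) (I : τ →₀ ℕ) :
    coeff I (frm P a j) = cf P a j I := by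
  classical
  unfold frm
  rw [coeff_sum]
  simp only [coeff_monomial]
  rw [Finset.sum_ite_eq' (Bf P.gt (P.d j)) I]
  split_ifs with h
  · rfl
  · rw [cf_neg]
    intro h'
    exact h (mem_Bf.2 h')

theorem MH_frm {L : Type} [CommRing L] (a : P.Idx → L) (j : Fin c) :
    MH P.gt (frm P a j) (P.d j) := by
  intro i I hI
  rw [coeff_frm] at hI
  by_contra h
  apply hI
  apply cf_neg
  intro h'
  exact h (h' i)

/-- the values `φ(x)` -/
noncomputable def yv {L : Type} [CommRing L] [Algebra k0 L] (z : σ ⊕ Fin c → L) (t : τ) : L :=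
  aeval (fun s => z (Sum.inl s)) (P.φ t)

open Classical in
/-- universal form -/
noncomputable def Fu (j : Fin c) : MvPolynomial (P.Idx ⊕ (σ ⊕ Fin c)) k0 :=
  ∑ I ∈ Bf P.gt (P.d j), (if h : ∀ i, mdeg P.gt I i = P.d j i then X (Sum.inl ⟨(j, I), h⟩) else 0) *
    ∏ t, (rename (fun s => Sum.inr (Sum.inl s)) (P.φ t)) ^ I t

theorem aeval_Fu {L : Type} [CommRing L] [Algebra k0 L] (a : P.Idx → L) (z : σ ⊕ Fin c → L)
    (j : Fin c) :
    aeval (Sum.elim a z) (Fu P j) = eval (yv P z) (frm P a j) := by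
  unfold Fu frm
  rw [map_sum, map_sum]
  refine Finset.sum_congr rfl fun I hI => ?_
  have h := mem_Bf.1 hI
  rw [dif_pos h, map_mul, aeval_X, Sum.elim_inl, map_prod, eval_monomial, cf_pos P a h,
    Finsupp.prod_fintype _ _ (fun i => pow_zero _)]
  congr 1
  refine Finset.prod_congr rfl fun s _ => ?_
  rw [map_pow, aeval_rename]
  rfl

/-- the system: normalisation, ambient variety, equations, roots -/
def EE (I0 : Set (MvPolynomial σ k0)) (j0 : Fin r → σ) :
    Set (MvPolynomial (P.Idx ⊕ (σ ⊕ Fin c)) k0) :=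
  {q | (∃ i, q = X (Sum.inr (Sum.inl (j0 i))) - 1) ∨
    (∃ g ∈ I0, q = rename (fun s => Sum.inr (Sum.inl s)) g) ∨ (∃ j, P.e j = 0 ∧ q = Fu P j) ∨
    (∃ j, P.e j = 0 ∧ q = X (Sum.inr (Sum.inr j))) ∨
    ∃ j, P.e j ≠ 0 ∧ q = Fu P j - X (Sum.inr (Sum.inr j)) ^ P.e j}

/-- the solutions -/
structure IsSol {L : Type} [CommRing L] [Algebra k0 L] (I0 : Set (MvPolynomial σ k0))
    (j0 : Fin r → σ) (a : P.Idx → L) (z : σ ⊕ Fin c → L) : Prop where
  one : ∀ i, z (Sum.inl (j0 i)) = 1
  amb : ∀ g ∈ I0, aeval (fun s => z (Sum.inl s)) g = 0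
  eq0 : ∀ j, P.e j = 0 → eval (yv P z) (frm P a j) = 0
  y0 : ∀ j, P.e j = 0 → z (Sum.inr j) = 0
  root : ∀ j, P.e j ≠ 0 → eval (yv P z) (frm P a j) = z (Sum.inr j) ^ P.e j

theorem sol_iff {L : Type} [CommRing L] [Algebra k0 L] (I0 : Set (MvPolynomial σ k0))
    (j0 : Fin r → σ) (a : P.Idx → L) (z : σ ⊕ Fin c → L) :
    Sol (EE P I0 j0) (algebraMap k0 L) a z ↔ IsSol P I0 j0 a z := by
  constructor
  · intro h
    have h' : ∀ q ∈ EE P I0 j0, aeval (Sum.elim a z) q = 0 := h
    refine ⟨fun i => ?_, fun g hg => ?_, fun j hj => ?_, fun j hj => ?_, fun j hj => ?_⟩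
    · have := h' _ (Or.inl ⟨i, rfl⟩)
      rw [map_sub, aeval_X, map_one] at this
      exact sub_eq_zero.1 this
    · have := h' _ (Or.inr (Or.inl ⟨g, hg, rfl⟩))
      rw [aeval_rename] at this
      exact this
    · have := h' _ (Or.inr (Or.inr (Or.inl ⟨j, hj, rfl⟩)))
      rwa [aeval_Fu] at this
    · have := h' _ (Or.inr (Or.inr (Or.inr (Or.inl ⟨j, hj, rfl⟩))))
      rw [aeval_X] at this
      exact this
    · have := h' _ (Or.inr (Or.inr (Or.inr (Or.inr ⟨j, hj, rfl⟩))))
      rw [map_sub, aeval_Fu, map_pow, aeval_X] at this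
      exact sub_eq_zero.1 this
  · rintro ⟨h1, h0, h2, h3, h4⟩
    have : ∀ q ∈ EE P I0 j0, aeval (Sum.elim a z) q = 0 := by
      rintro q (⟨i, rfl⟩ | ⟨g, hg, rfl⟩ | ⟨j, hj, rfl⟩ | ⟨j, hj, rfl⟩ | ⟨j, hj, rfl⟩)
      · rw [map_sub, aeval_X, map_one]
        exact sub_eq_zero.2 (h1 i)
      · rw [aeval_rename]; exact h0 g hg
      · rw [aeval_Fu]; exact h2 j hj
      · rw [aeval_X]; exact h3 j hj
      · rw [map_sub, aeval_Fu, map_pow, aeval_X]
        exact sub_eq_zero.2 (h4 j hj)
    exact this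

end

/-! ### the linear data -/

section
variable {k0 : Type} [Field k0] {σ τ : Type} [Fintype σ] [DecidableEq σ] [Fintype τ]
  [DecidableEq τ] {r r' c : ℕ} (P : Shape k0 σ τ r r' c) {L : Type} [Field L] [Algebra k0 L]

open Classical in
/-- the derivation of the coefficient `(j, I)` -/
noncomputable def dl (D : DD P.Idx L) (j : Fin c) (I : τ →₀ ℕ) : Derivation ℤ L L :=
  if h : ∀ i, mdeg P.gt I i = P.d j i then D.del ⟨(j, I), h⟩ else 0

theorem dl_pos (D : DD P.Idx L) {j : Fin c} {I : τ →₀ ℕ}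
    (h : ∀ i, mdeg P.gt I i = P.d j i) : dl P D j I = D.del ⟨(j, I), h⟩ := by
  unfold dl
  rw [dif_pos h]

theorem dl_k0 (D : DD P.Idx L) (hD : ∀ s (a : k0), D.del s (algebraMap k0 L a) = 0)
    (j : Fin c) (I : τ →₀ ℕ) (a : k0) : dl P D j I (algebraMap k0 L a) = 0 := by
  unfold dl
  split_ifs with h
  · exact hD _ a
  · rfl

/-- `V_j` -/
noncomputable def VV (D : DD P.Idx L) {R : Type} (y : (Derivation ℤ L L) → R → L) (j : Fin c) :
    MvPolynomial τ L →ₗ[L] (R → L) :=
  (basisMonomials τ L).constr L fun I => y (dl P D j I)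

theorem VV_monomial (D : DD P.Idx L) {R : Type} (y : (Derivation ℤ L L) → R → L) (j : Fin c)
    (I : τ →₀ ℕ) (a : L) (ρ : R) :
    VV P D y j (monomial I a) ρ = a * y (dl P D j I) ρ := by
  have h : monomial I a = a • (basisMonomials τ L) I := by
    rw [coe_basisMonomials, smul_monomial]; simp
  rw [h, map_smul]
  unfold VV
  rw [Module.Basis.constr_basis]
  rfl

theorem VV_mono_one (D : DD P.Idx L) {R : Type} (y : (Derivation ℤ L L) → R → L) (j : Fin c)
    (I : τ →₀ ℕ) : VV P D y j (monomial I 1) = y (dl P D j I) := by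
  funext ρ
  rw [VV_monomial, one_mul]

theorem VV_sum (D : DD P.Idx L) {R : Type} (y : (Derivation ℤ L L) → R → L) (j : Fin c)
    (G : MvPolynomial τ L) :
    VV P D y j G = ∑ I ∈ G.support, coeff I G • y (dl P D j I) := by
  conv_lhs => rw [G.as_sum]
  rw [map_sum]
  refine Finset.sum_congr rfl fun I _ => ?_
  funext ρ
  rw [VV_monomial]
  rfl

/-- the weights of the coordinates -/
def ww (i : Fin r) : σ ⊕ Fin c → ℕ
  | Sum.inl s => if P.gs s = i then 1 else 0
  | Sum.inr j => P.m j i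

/-- Euler vectors -/
noncomputable def ptt (z : σ ⊕ Fin c → L) (i : Fin r) (ρ : σ ⊕ Fin c) : L := (ww P i ρ : L) * z ρ

/-- the functionals -/
noncomputable def ell (a : P.Idx → L) (z : σ ⊕ Fin c → L) (j : Fin c) :
    (σ ⊕ Fin c → L) →ₗ[L] L where
  toFun u := ∑ t, eval (yv P z) (pderiv t (frm P a j)) *
      (∑ s, aeval (fun s => z (Sum.inl s)) (pderiv s (P.φ t)) * u (Sum.inl s)) -
    (P.e j : L) * z (Sum.inr j) ^ (P.e j - 1) * u (Sum.inr j)
  map_add' u v := by
    simp only [Pi.add_apply, mul_add, Finset.sum_add_distrib]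
    ring
  map_smul' a u := by
    simp only [Pi.smul_apply, smul_eq_mul, RingHom.id_apply, mul_sub, Finset.mul_sum]
    congr 1
    · exact Finset.sum_congr rfl fun p _ => Finset.sum_congr rfl fun q _ => by ring
    · ring

theorem ell_apply (a : P.Idx → L) (z : σ ⊕ Fin c → L) (j : Fin c) (u : σ ⊕ Fin c → L) :
    ell P a z j u = ∑ t, eval (yv P z) (pderiv t (frm P a j)) *
      (∑ s, aeval (fun s => z (Sum.inl s)) (pderiv s (P.φ t)) * u (Sum.inl s)) -
    (P.e j : L) * z (Sum.inr j) ^ (P.e j - 1) * u (Sum.inr j) := rfl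

theorem cpart_frm (D : DD P.Idx L) (x : τ → L) (j j' : Fin c) {I : τ →₀ ℕ}
    (hI : ∀ i, mdeg P.gt I i = P.d j i) :
    cpart (dl P D j I) x (frm P D.a j') = if j' = j then ∏ s, x s ^ I s else 0 := by
  rw [cpart_of_subset (dl P D j I) x (frm P D.a j') (Bf P.gt (P.d j')) (by
    intro J hJ
    rw [mem_Bf]
    exact fun i => MH_frm P D.a j' i (mem_support_iff.1 hJ))]
  simp only [coeff_frm]
  have h3 : ∀ J ∈ Bf P.gt (P.d j'), dl P D j I (cf P D.a j' J) =
      if j' = j ∧ J = I then 1 else 0 := by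
    intro J hJ
    have hJ' := mem_Bf.1 hJ
    rw [dl_pos P D hI, cf_pos P D.a hJ']
    by_cases h : (⟨(j, I), hI⟩ : P.Idx) = ⟨(j', J), hJ'⟩
    · rw [← h, D.one, if_pos]
      simp only [Subtype.mk.injEq, Prod.mk.injEq] at h
      exact ⟨h.1.symm, h.2.symm⟩
    · rw [D.zero _ _ h, if_neg]
      intro h'
      apply h
      simp only [Subtype.mk.injEq, Prod.mk.injEq]
      exact ⟨h'.1.symm, h'.2.symm⟩
  rw [Finset.sum_congr rfl (fun J hJ => by rw [h3 J hJ])]
  by_cases hj : j' = j
  · rw [if_pos hj]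
    subst hj
    rw [Finset.sum_eq_single I]
    · rw [if_pos ⟨rfl, rfl⟩, one_mul]
    · intro J _ hJ
      rw [if_neg (fun h => hJ h.2), zero_mul]
    · intro h; exact absurd (mem_Bf.2 hI) h
  · rw [if_neg hj]
    apply Finset.sum_eq_zero
    intro J _
    rw [if_neg (fun h => hj h.1), zero_mul]

theorem der_pow (δ : Derivation ℤ L L) (y : L) (n : ℕ) :
    δ (y ^ n) = (n : L) * y ^ (n - 1) * δ y := by
  rw [Derivation.leibniz_pow, nsmul_eq_mul, smul_eq_mul, mul_assoc]

/-- the key relation -/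
theorem ell_der {I0 : Set (MvPolynomial σ k0)} {j0 : Fin r → σ} (D : DD P.Idx L)
    (hD : ∀ s (a : k0), D.del s (algebraMap k0 L a) = 0) (z : σ ⊕ Fin c → L)
    (hz : IsSol P I0 j0 D.a z) (j' j : Fin c) {I : τ →₀ ℕ} (hI : ∀ i, mdeg P.gt I i = P.d j i) :
    ell P D.a z j' (fun ρ => dl P D j I (z ρ)) =
      if j' = j then - ∏ s, yv P z s ^ I s else 0 := by
  set δ := dl P D j I with hδ
  have h1 := der_eval δ (yv P z) (frm P D.a j')
  rw [cpart_frm P D (yv P z) j j' hI] at h1
  rw [ell_apply]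
  have e1 : ∀ t, (∑ s, aeval (fun s => z (Sum.inl s)) (pderiv s (P.φ t)) * δ (z (Sum.inl s))) =
      δ (yv P z t) := fun t =>
    (der_aeval δ (fun s => z (Sum.inl s)) (dl_k0 P D hD j I) (P.φ t)).symm
  simp only [e1]
  rw [← der_pow δ (z (Sum.inr j')) (P.e j')]
  have e2 : δ (eval (yv P z) (frm P D.a j')) = δ (z (Sum.inr j') ^ P.e j') := by
    by_cases he : P.e j' = 0
    · rw [hz.eq0 j' he, he, pow_zero, map_zero, Derivation.map_one_eq_zero]
    · rw [hz.root j' he]
  rw [← e2, h1]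
  split_ifs <;> ring

theorem ell_V {I0 : Set (MvPolynomial σ k0)} {j0 : Fin r → σ} (D : DD P.Idx L)
    (hD : ∀ s (a : k0), D.del s (algebraMap k0 L a) = 0) (z : σ ⊕ Fin c → L)
    (hz : IsSol P I0 j0 D.a z) (j' j : Fin c) (H : MvPolynomial τ L) (hH : MH P.gt H (P.d j)) :
    ell P D.a z j' (VV P D (fun δ ρ => δ (z ρ)) j H) =
      if j' = j then - eval (yv P z) H else 0 := by
  rw [VV_sum, map_sum]
  have h1 : ∀ I ∈ H.support, ell P D.a z j' (coeff I H • fun ρ => dl P D j I (z ρ)) =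
      coeff I H * if j' = j then - ∏ s, yv P z s ^ I s else 0 := by
    intro I hI
    rw [map_smul, ell_der P D hD z hz j' j (fun i => hH i (mem_support_iff.1 hI)), smul_eq_mul]
  rw [Finset.sum_congr rfl h1]
  by_cases hj : j' = j
  · simp only [if_pos hj]
    rw [eval_eq', ← Finset.sum_neg_distrib]
    exact Finset.sum_congr rfl fun I _ => by ring
  · simp only [if_neg hj, mul_zero, Finset.sum_const_zero]

/-- Euler for the forms `φ` -/
theorem euler_phi (z : σ ⊕ Fin c → L) (i : Fin r) (t : τ) :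
    ∑ s, aeval (fun s => z (Sum.inl s)) (pderiv s (P.φ t)) * ptt P z i (Sum.inl s) =
      (P.Q (P.gt t) i : L) * yv P z t := by
  have h3 := (P.φh t i).sum_weight_X_mul_pderiv
  have h4 := congrArg (aeval (fun s => z (Sum.inl s))) h3
  rw [map_sum, map_nsmul, nsmul_eq_mul] at h4
  unfold yv
  rw [← h4]
  refine Finset.sum_congr rfl fun s _ => ?_
  rw [map_nsmul, map_mul, aeval_X, nsmul_eq_mul]
  unfold ptt ww wt
  ring

/-- Euler for the general forms -/
theorem euler_frm (a : P.Idx → L) (z : σ ⊕ Fin c → L) (j : Fin c) (i : Fin r) :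
    ∑ t, eval (yv P z) (pderiv t (frm P a j)) * ((P.Q (P.gt t) i : L) * yv P z t) =
      ((∑ t, P.d j t * P.Q t i : ℕ) : L) * eval (yv P z) (frm P a j) := by
  have h3 : ∀ t' : Fin r', ∑ t, (if P.gt t = t' then 1 else 0) *
      (yv P z t * eval (yv P z) (pderiv t (frm P a j))) =
        (P.d j t' : L) * eval (yv P z) (frm P a j) := by
    intro t'
    have h4 := congrArg (eval (yv P z)) (MH_frm P a j t').sum_weight_X_mul_pderiv
    rw [map_sum, map_nsmul, nsmul_eq_mul] at h4
    rw [← h4]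
    refine Finset.sum_congr rfl fun s _ => ?_
    rw [map_nsmul, map_mul, eval_X, nsmul_eq_mul]
    unfold wt
    push_cast
    ring
  have h5 : ∀ t, eval (yv P z) (pderiv t (frm P a j)) * ((P.Q (P.gt t) i : L) * yv P z t) =
      ∑ t', (P.Q t' i : L) * ((if P.gt t = t' then 1 else 0) *
        (yv P z t * eval (yv P z) (pderiv t (frm P a j)))) := by
    intro t
    rw [Finset.sum_eq_single (P.gt t)]
    · rw [if_pos rfl]; ring
    · intro b _ hb
      rw [if_neg (Ne.symm hb)]; ring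
    · intro h; exact absurd (Finset.mem_univ _) h
  simp only [h5]
  rw [Finset.sum_comm]
  simp only [← Finset.mul_sum, h3]
  push_cast
  rw [Finset.sum_mul]
  exact Finset.sum_congr rfl fun t _ => by ring

theorem ell_pt {I0 : Set (MvPolynomial σ k0)} {j0 : Fin r → σ} (a : P.Idx → L)
    (z : σ ⊕ Fin c → L) (hz : IsSol P I0 j0 a z) (i : Fin r) (j : Fin c) :
    ell P a z j (ptt P z i) = 0 := by
  rw [ell_apply]
  simp only [euler_phi]
  rw [euler_frm]
  change _ - (P.e j : L) * z (Sum.inr j) ^ (P.e j - 1) * ((P.m j i : L) * z (Sum.inr j)) = 0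
  by_cases he : P.e j = 0
  · rw [hz.eq0 j he, he]
    simp
  · rw [hz.root j he, ← P.em j he i]
    have h4 : z (Sum.inr j) ^ P.e j = z (Sum.inr j) ^ (P.e j - 1) * z (Sum.inr j) := by
      rw [← pow_succ, Nat.sub_add_cancel (Nat.one_le_iff_ne_zero.2 he)]
    rw [h4]
    push_cast
    ring

theorem pt_li {I0 : Set (MvPolynomial σ k0)} {j0 : Fin r → σ} (hj0 : ∀ i, P.gs (j0 i) = i)
    (a : P.Idx → L) (z : σ ⊕ Fin c → L) (hz : IsSol P I0 j0 a z) :
    LinearIndependent L (ptt P z) := by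
  rw [Fintype.linearIndependent_iff]
  intro w hw i
  have h1 := congrFun hw (Sum.inl (j0 i))
  rw [Finset.sum_apply] at h1
  have h2 : ∀ k : Fin r, (w k • ptt P z k) (Sum.inl (j0 i)) = if k = i then w k else 0 := by
    intro k
    change w k * (((if P.gs (j0 i) = k then 1 else 0 : ℕ) : L) * z (Sum.inl (j0 i))) = _
    rw [hj0 i, hz.one i]
    by_cases hk : k = i
    · subst hk; simp
    · rw [if_neg (Ne.symm hk), if_neg hk]
      simp
  simp only [h2] at h1
  rw [Finset.sum_ite_eq' Finset.univ i, if_pos (Finset.mem_univ _)] at h1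
  exact h1

/-- the linear data of a solution -/
noncomputable def LYof {I0 : Set (MvPolynomial σ k0)} {j0 : Fin r → σ}
    (hj0 : ∀ i, P.gs (j0 i) = i) (D : DD P.Idx L)
    (hD : ∀ s (a : k0), D.del s (algebraMap k0 L a) = 0)
    (z : σ ⊕ Fin c → L) (hz : IsSol P I0 j0 D.a z) (hne : ∀ i, ∃ t, P.gt t = i ∧ yv P z t ≠ 0) :
    LY L (σ ⊕ Fin c) τ r r' c where
  g := P.gt
  d := P.d
  y := yv P z
  ne := hne
  V := VV P D fun δ ρ => δ (z ρ)
  ell := ell P D.a z
  rel := ell_V P D hD z hz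
  pt := ptt P z
  ptk := fun i j => ell_pt P D.a z hz i j
  ptli := pt_li P hj0 D.a z hz

end

end Pool.Agent.Met.Y
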